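import Pool.Agent.Y164.HG.Cfg
import Pool.Agent.Y164.PS.Avg

/-!
Averages over tuples of primes.
-/

set_option autoImplicit false
set_option linter.all false

namespace Pool.Agent.Y164.HG

open Finset Polynomial Pool.Agent.H341R2.Sharp
open Pool.Agent.Y164.PS (L L_comm L_prod_left sg_L sg sg_add sg_zero sg_one abs_sg prod_not_sq sum_update abs_lam_le lam_irr)
open scoped Classical

section orth

variable {W : Type} [AddCommGroup W] [Module F2 W] [Symp W] [Fintype W]
variable {ι τ : Type} [Fintype ι] [Fintype τ]
variable (D : Dat W τ) {A : ι → ι → F2} (B : ι → τ → F2) (d : ι → F2)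

theorem V_add_self (w : V W ι τ) : w + w = 0 :=
  Prod.ext (funext fun _ => W_add_self _) (funext fun _ => F2_add_self _)

theorem orth1 (hA : ∀ i j, A i j = A j i) (w : V W ι τ) :
    ∑ w' ∈ V0s D d, sg (FF D A B d w w') =
      if (∀ w', dg D d w' = 0 → FF D A B d w w' = 0) then ((V0s D d).card : ℝ) else 0 := by
  split_ifs with h
  · rw [sum_congr rfl (fun w' hw' => by rw [h w' ((mem_V0s D d).1 hw'), sg_zero])]
    simp
  · push Not at h
    obtain ⟨u, hu, hne⟩ := h
    have h1 : FF D A B d w u = 1 := F2_ne_zero hne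
    have h2 : ∑ w' ∈ V0s D d, sg (FF D A B d w w') = ∑ w' ∈ V0s D d, sg (FF D A B d w (w' + u)) := by
      refine sum_nbij' (fun w' => w' + u) (fun w' => w' + u) ?_ ?_ ?_ ?_ ?_
      · intro x hx
        exact (mem_V0s D d).2 (by rw [dg_add, (mem_V0s D d).1 hx, hu, add_zero])
      · intro x hx
        exact (mem_V0s D d).2 (by rw [dg_add, (mem_V0s D d).1 hx, hu, add_zero])
      · intro x _
        show x + u + u = x
        rw [add_assoc, V_add_self, add_zero]
      · intro x _
        show x + u + u = x
        rw [add_assoc, V_add_self, add_zero]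
      · intro x _
        show _ = sg (FF D A B d w (x + u + u))
        rw [add_assoc, V_add_self, add_zero]
    have h3 : ∀ w', sg (FF D A B d w (w' + u)) = - sg (FF D A B d w w') := by
      intro w'
      rw [FF_add_right D B d hA, sg_add, h1, sg_one]
      ring
    rw [sum_congr rfl (fun w' _ => h3 w'), sum_neg_distrib] at h2
    linarith

theorem orth2 (hA : ∀ i j, A i j = A j i) :
    (kc D A B d : ℝ) * (V0s D d).card = ∑ w ∈ V0s D d, ∑ w' ∈ V0s D d, sg (FF D A B d w w') := by
  rw [sum_congr rfl (fun w _ => orth1 D B d hA w), ← sum_filter, sum_const, nsmul_eq_mul,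
    kc]
  congr 2
  rw [Nat.card_eq_fintype_card, Fintype.card_subtype]
  congr 1
  ext w
  rw [mem_filter, mem_filter, mem_V0s]
  simp

theorem orth3 (f : τ → F2) :
    (if (∀ s, f s = 0) then (2 : ℝ) ^ Fintype.card τ else 0) =
      ∑ U : τ → F2, sg (∑ s, U s * f s) := by
  split_ifs with h
  · simp only [h, mul_zero, sum_const_zero, sg_zero, sum_const, card_univ, nsmul_eq_mul, mul_one]
    rw [Fintype.card_fun, ZMod.card]
    push_cast
    rfl
  · push Not at h
    obtain ⟨s, hs⟩ := h
    have h1 : f s = 1 := F2_ne_zero hs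
    set e : τ → F2 := Pi.single s 1 with he
    have hself : ∀ U : τ → F2, U + e + e = U := by
      intro U
      rw [add_assoc]
      have : (e + e : τ → F2) = 0 := by
        funext i
        exact F2_add_self _
      rw [this, add_zero]
    have h2 : ∑ U : τ → F2, sg (∑ s, U s * f s) =
        ∑ U : τ → F2, sg (∑ s', (U + e) s' * f s') := by
      refine sum_nbij' (fun U => U + e) (fun U => U + e) ?_ ?_ ?_ ?_ ?_
      · intro x _
        exact mem_univ _
      · intro x _
        exact mem_univ _
      · intro x _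
        exact hself x
      · intro x _
        exact hself x
      · intro x _
        show _ = sg (∑ s', (x + e + e) s' * f s')
        rw [hself]
    have h3 : ∀ U : τ → F2, sg (∑ s', (U + e) s' * f s') = - sg (∑ s', U s' * f s') := by
      intro U
      have h4 : ∑ s', (U + e) s' * f s' = ∑ s', U s' * f s' + 1 := by
        simp only [Pi.add_apply, add_mul, sum_add_distrib]
        congr 1
        rw [sum_eq_single s]
        · rw [he, Pi.single_eq_same, one_mul, h1]
        · intro b _ hb
          rw [he, Pi.single_eq_of_ne hb, zero_mul]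
        · intro h
          exact absurd (mem_univ _) h
      rw [h4, sg_add, sg_one]
      ring
    rw [sum_congr rfl (fun U _ => h3 U), sum_neg_distrib] at h2
    linarith

theorem FF_split (hA : ∀ i j, A i j = A j i) (w w' : V W ι τ) (j : ι) :
    FF D A B d w w' = FF D (fun i i' => if i = j ∨ i' = j then 0 else A i i')
      (fun i s => if i = j then 0 else B i s) d w w' +
      (∑ i ∈ univ.erase j, A i j * Oq (lab w w' i + lab w w' j) +
      ∑ s, B j s * ee (D.t s) (w.2 s) (w'.2 s) (lab w w' j)) := by
  have e1 : ∑ i, ∑ i', A i i' * (om (w.1 i') (w'.1 i) + om (w.1 i) (w'.1 i)) =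
      ∑ i, ∑ i', (if i = j ∨ i' = j then 0 else A i i') *
        (om (w.1 i') (w'.1 i) + om (w.1 i) (w'.1 i)) +
      ∑ i ∈ univ.erase j, A i j * Oq (lab w w' i + lab w w' j) := by
    set c : ι → ι → F2 := fun i i' => om (w.1 i') (w'.1 i) + om (w.1 i) (w'.1 i) with hc
    have hcc : ∀ i, c i i = 0 := fun i => F2_add_self _
    have h1 : ∀ i i', A i i' * c i i' = (if i = j ∨ i' = j then 0 else A i i') * c i i' +
        (if i = j ∨ i' = j then A i i' * c i i' else 0) := by
      intro i i'
      split_ifs
      · rw [zero_mul, zero_add]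
      · rw [add_zero]
    have h2 : ∑ i, ∑ i', (if i = j ∨ i' = j then A i i' * c i i' else 0) =
        ∑ i ∈ univ.erase j, A i j * Oq (lab w w' i + lab w w' j) := by
      rw [← add_sum_erase univ _ (mem_univ j)]
      have h3 : ∑ i', (if j = j ∨ i' = j then A j i' * c j i' else 0) =
          ∑ i' ∈ univ.erase j, A j i' * c j i' := by
        rw [← add_sum_erase univ _ (mem_univ j), if_pos (Or.inl rfl), hcc, mul_zero, zero_add]
        exact sum_congr rfl fun i' _ => if_pos (Or.inl rfl)
      have h4 : ∀ i ∈ univ.erase j, ∑ i', (if i = j ∨ i' = j then A i i' * c i i' else 0) =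
          A i j * c i j := by
        intro i hi
        have hij : i ≠ j := ne_of_mem_erase hi
        rw [sum_eq_single j]
        · rw [if_pos (Or.inr rfl)]
        · intro b _ hb
          rw [if_neg]
          rintro (h | h)
          · exact hij h
          · exact hb h
        · intro h
          exact absurd (mem_univ _) h
      rw [h3, sum_congr rfl h4, ← sum_add_distrib]
      refine sum_congr rfl fun i _ => ?_
      rw [hA j i, ← mul_add]
      congr 1
      simp only [hc, Oq, lab, Prod.fst_add, Prod.snd_add, om_add_left, om_add_right]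
      ring
    rw [← h2, ← sum_add_distrib]
    refine sum_congr rfl fun i _ => ?_
    rw [← sum_add_distrib]
    exact sum_congr rfl fun i' _ => h1 i i'
  have e2 : ∑ i, ∑ s, B i s * (om (w.1 i) (D.t s) * om (w'.1 i) (D.t s) +
      w.2 s * om (D.t s) (w'.1 i) + w'.2 s * om (w.1 i) (D.t s)) =
      ∑ i, ∑ s, (if i = j then 0 else B i s) * (om (w.1 i) (D.t s) * om (w'.1 i) (D.t s) +
      w.2 s * om (D.t s) (w'.1 i) + w'.2 s * om (w.1 i) (D.t s)) +
      ∑ s, B j s * ee (D.t s) (w.2 s) (w'.2 s) (lab w w' j) := by
    have h1 : ∀ i, ∑ s, B i s * (om (w.1 i) (D.t s) * om (w'.1 i) (D.t s) +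
      w.2 s * om (D.t s) (w'.1 i) + w'.2 s * om (w.1 i) (D.t s)) =
      ∑ s, (if i = j then 0 else B i s) * (om (w.1 i) (D.t s) * om (w'.1 i) (D.t s) +
      w.2 s * om (D.t s) (w'.1 i) + w'.2 s * om (w.1 i) (D.t s)) +
      (if i = j then ∑ s, B i s * (om (w.1 i) (D.t s) * om (w'.1 i) (D.t s) +
      w.2 s * om (D.t s) (w'.1 i) + w'.2 s * om (w.1 i) (D.t s)) else 0) := by
      intro i
      split_ifs
      · simp
      · rw [add_zero]
    rw [sum_congr rfl (fun i _ => h1 i), sum_add_distrib]
    congr 1
    rw [sum_ite_eq']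
    rw [if_pos (mem_univ _)]
    rfl
  rw [FF, e1, e2, FF]
  ring

end orth


end Pool.Agent.Y164.HG
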