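import Pool.Agent.Y164.HG.Imp

/-!
The final form of the theorem.
-/

set_option autoImplicit false
set_option linter.all false

open Polynomial IsDedekindDomain

namespace Pool.Agent.Y164.HG

open Finset Polynomial Pool.Agent.H341R2.Sharp Filter Topology
open Pool.Agent.Y164.PS (Sf mem_Sf)
open scoped Classical

/-- the twists -/
def tw {k : Type} [Field k] {n : ℕ} (a : Fin n → k[X]) (m : ℕ) : Set k[X] :=
  {E | E.Monic ∧ E.natDegree = m ∧ Squarefree E ∧ ∀ i j, i ≠ j → IsCoprime E (a i - a j)}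

theorem four_le {k : Type} [Field k] [Fintype k] (h2 : (2 : k) ≠ 0) (hi : IsSquare (-1 : k)) :
    4 ≤ Fintype.card k := by
  by_contra hlt
  push Not at hlt
  obtain ⟨i, hi'⟩ := hi
  have n0 : (0 : k) ≠ 1 := zero_ne_one
  have n1 : (1 : k) ≠ -1 := by
    intro h
    apply h2
    have : (2 : k) = 1 + 1 := by norm_num
    rw [this]
    nth_rewrite 2 [h]
    ring
  have i0 : i ≠ 0 := by
    rintro rfl
    rw [mul_zero] at hi'
    exact neg_ne_zero.2 one_ne_zero hi'
  have i1 : i ≠ 1 := by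
    rintro rfl
    rw [mul_one] at hi'
    exact n1 hi'.symm
  have i2 : i ≠ -1 := by
    rintro rfl
    apply n1
    rw [hi']
    ring
  have hcard : ({0, 1, -1, i} : Finset k).card = 4 := by
    rw [card_insert_of_notMem, card_insert_of_notMem, card_insert_of_notMem, card_singleton]
    · rw [mem_singleton]; exact fun h => i2 h.symm
    · rw [mem_insert, mem_singleton]
      push Not
      exact ⟨n1, fun h => i1 h.symm⟩
    · rw [mem_insert, mem_insert, mem_singleton]
      push Not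
      exact ⟨n0, fun h => neg_ne_zero.2 one_ne_zero h.symm, fun h => i0 h.symm⟩
  have := card_le_univ ({0, 1, -1, i} : Finset k)
  rw [hcard] at this
  omega

theorem nb_iff {k : Type} [Field k] [Fintype k] [DecidableEq k] {n : ℕ} {a : Fin n → k[X]} {N : ℕ}
    (H : Geo a N) {E : k[X]} (hE : E.Monic) :
    nb (QQ a) E ↔ ∀ i j, i ≠ j → IsCoprime E (a i - a j) := by
  constructor
  · intro h i j hij
    by_contra hnc
    obtain ⟨π, hπ, h1, h2⟩ : ∃ π : k[X], Irreducible π ∧ π ∣ E ∧ π ∣ a i - a j := by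
      by_contra hno
      push Not at hno
      apply hnc
      apply isCoprime_of_dvd
      · exact fun h => hE.ne_zero h.1
      · intro z hz hz0 hz1 hz2
        obtain ⟨π, hπ, hd⟩ := WfDvdMonoid.exists_irreducible_factor hz hz0
        exact hno π hπ (hd.trans hz1) (hd.trans hz2)
    have hm : (normalize π).Monic := monic_normalize hπ.ne_zero
    have ha : Associated π (normalize π) := (normalize_associated π).symm
    have hmem : normalize π ∈ bpF a :=
      H.mem.2 ⟨hm, ha.irreducible hπ, (ha.symm.dvd.trans h2).trans (H.dvd_del hij)⟩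
    exact h ⟨_, hmem⟩ (ha.symm.dvd.trans h1)
  · intro h s hs
    have h1 := h (H.p s) (H.q s) (ne_of_lt (H.lt s))
    exact (H.fam.irr s).not_isUnit (h1.isUnit_of_dvd' hs (H.dvd s))

/-- the final form -/
theorem final {k : Type} [Field k] [Finite k] (h2 : (2 : k) ≠ 0) (hi : IsSquare (-1 : k))
    (K : Type) [Field K] [Algebra k[X] K] [IsFractionRing k[X] K] {n : ℕ} (hn : Odd n)
    (hn3 : 3 ≤ n) (N : ℕ) (hN : 1 ≤ N) (a : Fin n → k[X])
    (hdeg : ∀ i j, i ≠ j → (a i - a j).natDegree = N) (hsq : Squarefree (Del a)) :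
    (∃ c : ℝ, 0 < c ∧ ∀ᶠ m : ℕ in atTop, c * (Nat.card k : ℝ) ^ m ≤ ((tw a m).ncard : ℝ)) ∧
    ∀ ε : ℝ, 0 < ε → ∀ᶠ m : ℕ in atTop, Odd (m + N) →
      (1 / 6 - ε) * ((tw a m).ncard : ℝ) ≤ (({E ∈ tw a m | Good K a E}).ncard : ℝ) := by
  letI : Fintype k := Fintype.ofFinite k
  haveI : Fact (Odd n) := ⟨hn⟩
  have hchar : ringChar k ≠ 2 := by
    intro h
    apply h2
    have := ringChar.Nat.cast_ringChar (R := k)
    rw [h] at this
    exact_mod_cast this
  have H : Geo a N := ⟨hchar, hi, hn, hn3, hN, hdeg, hsq⟩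
  have hq := four_le h2 hi
  have hcN : (Nat.card k : ℝ) = (Fintype.card k : ℝ) := by rw [Nat.card_eq_fintype_card]
  have e1 : ∀ m, (tw a m).ncard = ((Sf k m).filter (nb (QQ a))).card := by
    intro m
    rw [← Set.ncard_coe_finset]
    congr 1
    ext E
    rw [Finset.mem_coe, mem_filter, mem_Sf]
    show (_ ∧ _ ∧ _ ∧ _) ↔ _
    constructor
    · rintro ⟨a1, a2, a3, a4⟩
      exact ⟨⟨a1, a2, a3⟩, (nb_iff H a1).2 a4⟩
    · rintro ⟨⟨a1, a2, a3⟩, a4⟩
      exact ⟨a1, a2, a3, (nb_iff H a1).1 a4⟩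
  have e2 : ∀ m, ((Sf k m).filter (fun E => nb (QQ a) E ∧ Good K a E)).card ≤
      ({E ∈ tw a m | Good K a E}).ncard := by
    intro m
    rw [← Set.ncard_coe_finset]
    apply Set.ncard_le_ncard
    · intro E hE
      rw [Finset.mem_coe, mem_filter, mem_Sf] at hE
      obtain ⟨⟨a1, a2, a3⟩, a4, a5⟩ := hE
      exact ⟨⟨a1, a2, a3, (nb_iff H a1).1 a4⟩, a5⟩
    · apply Set.Finite.subset (Finset.finite_toSet (Sf k m))
      rintro E ⟨⟨a1, a2, a3, -⟩, -⟩
      exact mem_Sf.2 ⟨a1, a2, a3⟩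
  constructor
  · obtain ⟨c, hc, h⟩ := nb_lower H.hyp hq
    refine ⟨c, hc, ?_⟩
    filter_upwards [h] with m hm
    rw [e1, hcN]
    exact hm
  · intro ε hε
    have hmain := main_cnt H.hyp (G := Good K a) (W := EW n) (fun σ => H.dat σ) (fun σ => rfl)
      (fun σ σ' => rfl) (N : F2) (fun σ => rfl) (fun σ _ => imp_good H σ) hq (fun σ => H.conn σ)
      ε hε
    filter_upwards [hmain] with m hm ho
    rw [e1]
    refine (hm ?_).trans ?_
    · have : ((m + N : ℕ) : F2) = 1 := (ZMod.natCast_eq_one_iff_odd).2 ho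
      rw [← this]
      push_cast
      rfl
    · exact_mod_cast e2 m

end Pool.Agent.Y164.HG
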