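import Pool.Agent.Y164.HG.Even

/-!
The configurations which give the main term: general symplectic spaces.
-/

set_option autoImplicit false
set_option linter.all false

namespace Pool.Agent.Y164.HG

open Finset

variable {W : Type} [AddCommGroup W] [Module F2 W] [Symp W]

/-- the quadratic form on labels -/
def Oq (X : W × W) : F2 := om X.1 X.2

/-- the polar form -/
def Bq (X Y : W × W) : F2 := om X.1 Y.2 + om X.2 Y.1

theorem Oq_add (X Y : W × W) : Oq (X + Y) = Oq X + Oq Y + Bq X Y := by
  simp only [Oq, Bq, Prod.fst_add, Prod.snd_add, om_add_left, om_add_right, om_comm X.2 Y.1]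
  ring

theorem Bq_add_left (X Y Z : W × W) : Bq (X + Y) Z = Bq X Z + Bq Y Z := by
  simp only [Bq, Prod.fst_add, Prod.snd_add, om_add_left]
  ring

theorem Bq_comm (X Y : W × W) : Bq X Y = Bq Y X := by
  simp only [Bq, om_comm X.1 Y.2, om_comm X.2 Y.1]
  ring

theorem Bq_add_right (X Y Z : W × W) : Bq X (Y + Z) = Bq X Y + Bq X Z := by
  rw [Bq_comm, Bq_add_left, Bq_comm Y, Bq_comm Z]

theorem Bq_smul_left (c : F2) (X Y : W × W) : Bq (c • X) Y = c * Bq X Y := by
  simp only [Bq, Prod.smul_fst, Prod.smul_snd, om_smul_left]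
  ring

theorem Bq_zero_left (X : W × W) : Bq 0 X = 0 := by
  simp only [Bq, Prod.fst_zero, Prod.snd_zero, om_zero_left, add_zero]

theorem Oq_zero : Oq (0 : W × W) = 0 := om_zero_left _

/-- the polar form as a bilinear form -/
def BB (W : Type) [AddCommGroup W] [Module F2 W] [Symp W] : LinearMap.BilinForm F2 (W × W) :=
  LinearMap.mk₂ F2 Bq Bq_add_left Bq_smul_left Bq_add_right (fun c X Y => by
    rw [Bq_comm, Bq_smul_left, Bq_comm]; rfl)

theorem BB_apply (X Y : W × W) : BB W X Y = Bq X Y := rfl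

theorem Bq_nd (X : W × W) (h : ∀ Y, Bq X Y = 0) : X = 0 := by
  apply Prod.ext
  · apply eq_zero_of_om
    intro y
    have := h (0, y)
    simpa [Bq, om_zero_right] using this
  · apply eq_zero_of_om
    intro y
    have := h (y, 0)
    simpa [Bq, om_zero_right] using this

theorem BB_nd : (BB W).Nondegenerate := by
  constructor
  · intro X h
    exact Bq_nd X h
  · intro X h
    exact Bq_nd X fun Y => by rw [Bq_comm]; exact h Y

theorem card_pow (A : Type) [AddCommGroup A] [Module F2 A] [Finite A] :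
    Nat.card A = 2 ^ Module.finrank F2 A := by
  have : Fact (Nat.Prime 2) := ⟨Nat.prime_two⟩
  rw [Module.natCard_eq_pow_finrank (K := F2), Nat.card_zmod]

/-- the size of a totally isotropic subspace -/
theorem iso_le [Finite W] (M : Submodule F2 (W × W)) (h : ∀ X ∈ M, ∀ Y ∈ M, Bq X Y = 0) :
    Nat.card M ≤ Nat.card W ∧ (Nat.card W ≤ Nat.card M →
      ∀ X, (∀ Y ∈ M, Bq X Y = 0) → X ∈ M) := by
  have hp : Fact (Nat.Prime 2) := ⟨Nat.prime_two⟩
  have hle : M ≤ (BB W).orthogonal M := by
    intro X hX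
    rw [LinearMap.BilinForm.mem_orthogonal_iff]
    intro Y hY
    exact h Y hY X hX
  have h1 := LinearMap.BilinForm.finrank_orthogonal (BB_nd (W := W)) M
  have h2 : Module.finrank F2 (W × W) = Module.finrank F2 W + Module.finrank F2 W :=
    Module.finrank_prod
  have h3 := Submodule.finrank_mono hle
  have h4 := Submodule.finrank_le M
  rw [card_pow W, card_pow M]
  constructor
  · exact Nat.pow_le_pow_right (by norm_num) (by omega)
  · intro h5 X hX
    have h6 : Module.finrank F2 W ≤ Module.finrank F2 M :=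
      (Nat.pow_le_pow_iff_right (by norm_num)).1 h5
    have h7 : M = (BB W).orthogonal M := Submodule.eq_of_le_of_finrank_le hle (by omega)
    rw [h7, LinearMap.BilinForm.mem_orthogonal_iff]
    intro Y hY
    have := hX Y hY
    rw [Bq_comm] at this
    exact this

theorem W2_add_self (x : W × W) : x + x = 0 := Prod.ext (W_add_self _) (W_add_self _)

theorem add_add_cancel2 (a b c : W × W) : (a + c) + (b + c) = a + b := by
  have h := W2_add_self c
  calc (a + c) + (b + c) = a + b + (c + c) := by abel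
    _ = a + b := by rw [h, add_zero]

theorem add_eq_of (a b c : W × W) (h : a + c = b) : a = b + c := by
  rw [← h, add_assoc, W2_add_self, add_zero]

/-- large unlinked sets are cosets -/
theorem coset_of [Finite W] (S : Set (W × W)) (hS : ∀ X ∈ S, ∀ Y ∈ S, Oq (X + Y) = 0)
    (hc : Nat.card W ≤ Nat.card S) (X0 : W × W) (hX0 : X0 ∈ S) :
    ∃ M : Submodule F2 (W × W), (∀ X ∈ M, ∀ Y ∈ M, Bq X Y = 0) ∧ (∀ X ∈ M, Oq X = 0) ∧
      Nat.card W ≤ Nat.card M ∧ ∀ X, X ∈ S ↔ X + X0 ∈ M := by
  set G : Set (W × W) := (fun X => X + X0) '' S with hG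
  set M := Submodule.span F2 G with hM
  have hgB : ∀ X ∈ G, ∀ Y ∈ G, Bq X Y = 0 := by
    rintro _ ⟨X, hX, rfl⟩ _ ⟨Y, hY, rfl⟩
    have h1 := Oq_add (X + X0) (Y + X0)
    rw [add_add_cancel2, hS X hX Y hY, hS X hX X0 hX0, hS Y hY X0 hX0, add_zero, zero_add] at h1
    exact h1.symm
  have hgO : ∀ X ∈ G, Oq X = 0 := by
    rintro _ ⟨X, hX, rfl⟩
    exact hS X hX X0 hX0
  have hB1 : ∀ X ∈ M, ∀ Y ∈ G, Bq X Y = 0 := by
    intro X hX Y hY
    refine Submodule.span_induction (p := fun X _ => Bq X Y = 0) ?_ ?_ ?_ ?_ hX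
    · intro x hx
      exact hgB x hx Y hY
    · exact Bq_zero_left Y
    · intro x y _ _ h1 h2
      rw [Bq_add_left, h1, h2, add_zero]
    · intro c x _ h1
      rw [Bq_smul_left, h1, mul_zero]
  have hB : ∀ X ∈ M, ∀ Y ∈ M, Bq X Y = 0 := by
    intro X hX Y hY
    refine Submodule.span_induction (p := fun Y _ => Bq X Y = 0) ?_ ?_ ?_ ?_ hY
    · intro x hx
      exact hB1 X hX x hx
    · rw [Bq_comm, Bq_zero_left]
    · intro x y _ _ h1 h2
      rw [Bq_add_right, h1, h2, add_zero]
    · intro c x _ h1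
      rw [Bq_comm, Bq_smul_left, Bq_comm, h1, mul_zero]
  have hO : ∀ X ∈ M, Oq X = 0 := by
    intro X hX
    refine Submodule.span_induction (p := fun X _ => Oq X = 0) ?_ ?_ ?_ ?_ hX
    · exact hgO
    · exact Oq_zero
    · intro x y hx hy h1 h2
      rw [Oq_add, h1, h2, hB x hx y hy, add_zero, add_zero]
    · intro c x _ h1
      rcases F2_cases c with rfl | rfl
      · rw [zero_smul, Oq_zero]
      · rw [one_smul, h1]
  obtain ⟨h1, h2⟩ := iso_le M hB
  have hinj : Function.Injective (fun X : W × W => X + X0) := fun _ _ h => add_right_cancel h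
  have h3 : Nat.card S = Nat.card G := (Nat.card_image_of_injective hinj S).symm
  have hGM : G ⊆ (M : Set (W × W)) := Submodule.subset_span
  have h4 : Nat.card W ≤ Nat.card G := h3 ▸ hc
  have h5 : Nat.card G ≤ Nat.card M := Nat.card_mono (Set.toFinite _) hGM
  have h6 : G = (M : Set (W × W)) := by
    apply Set.eq_of_subset_of_ncard_le hGM _ (Set.toFinite _)
    have e1 : (M : Set (W × W)).ncard = Nat.card M := rfl
    have e2 : G.ncard = Nat.card G := rfl
    omega
  refine ⟨M, hB, hO, h4.trans h5, fun X => ?_⟩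
  constructor
  · intro hX
    exact hGM ⟨X, hX, rfl⟩
  · intro hX
    have : X + X0 ∈ G := by rw [h6]; exact hX
    obtain ⟨Y, hY, h⟩ := this
    rwa [hinj h] at hY

/-- the coefficient of the symbol at a bad prime -/
def ee (t : W) (z z' : F2) (X : W × W) : F2 := om X.1 t * om X.2 t + z * om t X.2 + z' * om X.1 t

/-- second difference -/
theorem ee_diff (t : W) (z z' U : F2) (X0 m m' : W × W) (h0 : ee t z z' X0 + U = 0)
    (h1 : ee t z z' (X0 + m) + U = 0) (h2 : ee t z z' (X0 + m') + U = 0)
    (h3 : ee t z z' (X0 + m + m') + U = 0) : om m.1 t * om m'.2 t + om m.2 t * om m'.1 t = 0 := by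
  have key : (ee t z z' X0 + U) + (ee t z z' (X0 + m) + U) + (ee t z z' (X0 + m') + U) +
      (ee t z z' (X0 + m + m') + U) = om m.1 t * om m'.2 t + om m.2 t * om m'.1 t := by
    simp only [ee, Prod.fst_add, Prod.snd_add, om_add_left, om_add_right]
    generalize om X0.1 t = a
    generalize om X0.2 t = b
    generalize om m.1 t = c
    generalize om m.2 t = e
    generalize om m'.1 t = f
    generalize om m'.2 t = g
    generalize om t X0.2 = h
    generalize om t m.2 = i
    generalize om t m'.2 = j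
    have h2 : (2 : F2) = 0 := by decide
    linear_combination (2*a*b+a*e+c*b+c*e+a*g+f*b+f*g+z*(2*h+i+j)+z'*(2*a+c+f)+2*U) * h2
  rw [← key, h0, h1, h2, h3]
  simp

/-- the pure tensor -/
def tens (x : W) (u : F2 × F2) : W × W := (u.1 • x, u.2 • x)

theorem Bq_tens (x : W) (u : F2 × F2) (Y : W × W) :
    Bq (tens x u) Y = om x (u.1 • Y.2 + u.2 • Y.1) := by
  simp only [Bq, tens, om_smul_left, om_add_right, om_smul_right]

theorem F22_cases (u : F2 × F2) : u = (0, 0) ∨ u = (1, 0) ∨ u = (0, 1) ∨ u = (1, 1) := by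
  revert u; decide

theorem perp_line : ∀ u v : F2 × F2, v ≠ 0 → u.1 * v.2 + u.2 * v.1 = 0 → u = 0 ∨ u = v := by
  decide

/-- the direction of a maximal isotropic subspace -/
theorem dir_of [Finite W] {τ : Type} (t : τ → W) (hG : ∀ u : W, u ≠ 0 → ∃ s, om u (t s) ≠ 0)
    (ht : ∀ s, t s ≠ 0) (hconn : ∀ P : τ → Prop, (∃ s, P s) →
      (∀ s s', P s → om (t s) (t s') ≠ 0 → P s') → ∀ s, P s)
    (hne : Nonempty τ) (M : Submodule F2 (W × W)) (hB : ∀ X ∈ M, ∀ Y ∈ M, Bq X Y = 0)
    (hc : Nat.card W ≤ Nat.card M)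
    (hd : ∀ s, ∀ m ∈ M, ∀ m' ∈ M, om m.1 (t s) * om m'.2 (t s) + om m.2 (t s) * om m'.1 (t s) = 0) :
    ∃ v : F2 × F2, v ≠ 0 ∧ ∀ X : W × W, X ∈ M ↔ v.1 • X.2 + v.2 • X.1 = 0 := by
  have hperp := (iso_le M hB).2 hc
  have i2 : ∀ s u, tens (t s) u ∈ M ↔ ∀ Y ∈ M, Bq (tens (t s) u) Y = 0 := fun s u =>
    ⟨fun h Y hY => hB _ h Y hY, fun h => hperp _ h⟩
  have hBt : ∀ s u (Y : W × W), Bq (tens (t s) u) Y = u.1 * om Y.2 (t s) + u.2 * om Y.1 (t s) := by
    intro s u Y
    rw [Bq_tens, om_add_right, om_smul_right, om_smul_right, om_comm (t s), om_comm (t s)]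
  -- existence
  have ex : ∀ s, ∃ v : F2 × F2, v ≠ 0 ∧ tens (t s) v ∈ M := by
    intro s
    by_cases h : ∃ Y ∈ M, (om Y.1 (t s), om Y.2 (t s)) ≠ ((0, 0) : F2 × F2)
    · obtain ⟨Y, hY, hne⟩ := h
      refine ⟨(om Y.1 (t s), om Y.2 (t s)), hne, (i2 s _).2 fun Z hZ => ?_⟩
      rw [hBt]
      have := hd s Y hY Z hZ
      exact this
    · push Not at h
      refine ⟨(1, 0), by decide, (i2 s _).2 fun Z hZ => ?_⟩
      have := h Z hZ
      rw [Prod.mk.injEq] at this
      rw [hBt, this.1, this.2, mul_zero, mul_zero, add_zero]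
  have orth : ∀ s s' u v, om (t s) (t s') ≠ 0 → tens (t s) u ∈ M → tens (t s') v ∈ M →
      u.1 * v.2 + u.2 * v.1 = 0 := by
    intro s s' u v hss hu hv
    have h1 := hB _ hu _ hv
    rw [hBt] at h1
    simp only [tens, om_smul_left] at h1
    rw [om_comm, F2_ne_zero hss, mul_one, mul_one] at h1
    exact h1
  have step : ∀ s s' v, v ≠ 0 → om (t s) (t s') ≠ 0 → tens (t s) v ∈ M → tens (t s') v ∈ M := by
    intro s s' v hv hss hm
    obtain ⟨v', hv', hm'⟩ := ex s'
    rcases perp_line v' v hv (by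
      have := orth s s' v v' hss hm hm'
      rw [← this]; ring) with h | h
    · exact absurd h hv'
    · rwa [h] at hm'
  obtain ⟨s0⟩ := hne
  obtain ⟨v, hv, hm0⟩ := ex s0
  have hall := hconn (fun s => tens (t s) v ∈ M) ⟨s0, hm0⟩ (fun s s' h1 h2 => step s s' v hv h2 h1)
  refine ⟨v, hv, fun X => ⟨fun hX => ?_, fun hX => ?_⟩⟩
  · by_contra hne
    obtain ⟨s, hs⟩ := hG _ hne
    apply hs
    rw [om_comm, ← Bq_tens]
    exact hB _ (hall s) _ hX
  · -- `X` is a pure tensor
    apply hperp
    have hXt : ∃ x, X = tens x v := by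
      rcases F22_cases v with h | h | h | h
      · exact absurd h hv
      · rw [h] at hX ⊢
        simp only [one_smul, zero_smul, add_zero] at hX
        exact ⟨X.1, Prod.ext (by simp [tens]) (by simp [tens, hX])⟩
      · rw [h] at hX ⊢
        simp only [one_smul, zero_smul, zero_add] at hX
        exact ⟨X.2, Prod.ext (by simp [tens, hX]) (by simp [tens])⟩
      · rw [h] at hX ⊢
        simp only [one_smul] at hX
        have h3 : X.2 = X.1 := by
          rw [← add_zero X.2, ← W_add_self X.1, ← add_assoc, hX, zero_add]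
        exact ⟨X.1, Prod.ext (by simp [tens]) (by simp [tens, h3])⟩
    obtain ⟨x, rfl⟩ := hXt
    intro Y hY
    rw [Bq_tens]
    have : v.1 • Y.2 + v.2 • Y.1 = 0 := by
      by_contra hne
      obtain ⟨s, hs⟩ := hG _ hne
      apply hs
      rw [om_comm, ← Bq_tens]
      exact hB _ (hall s) _ hY
    rw [this, om_zero_right]

theorem exists_om {t : W} (ht : t ≠ 0) : ∃ x, om x t = 1 := by
  by_contra h
  push Not at h
  apply ht
  apply eq_zero_of_om
  intro y
  rw [om_comm]
  exact (F2_cases _).resolve_right (h y)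

theorem l1 (t c : W) (z z' U : F2) (h : ∀ x : W, ee t z z' (x, c) + U = 0) :
    (t ≠ 0 → z' = om c t) ∧ U = z * om t c := by
  have h0 : z * om t c + U = 0 := by
    have := h 0
    simpa [ee, om_zero_left] using this
  have hU : U = z * om t c := by
    have e := F2_add_self (z * om t c)
    calc U = (z * om t c + z * om t c) + U := by rw [e, zero_add]
      _ = z * om t c + (z * om t c + U) := by ring
      _ = _ := by rw [h0, add_zero]
  refine ⟨fun ht => ?_, hU⟩
  obtain ⟨x, hx⟩ := exists_om ht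
  have h1 := h x
  simp only [ee, hx, one_mul, mul_one] at h1
  have h2 : om c t + z' + (z * om t c + U) = 0 := by rw [← h1]; ring
  rw [h0, add_zero] at h2
  have e := F2_add_self (om c t)
  calc z' = (om c t + om c t) + z' := by rw [e, zero_add]
    _ = om c t + (om c t + z') := by ring
    _ = _ := by rw [h2, add_zero]

theorem l2 (t c : W) (z z' U : F2) (h : ∀ x : W, ee t z z' (c, x) + U = 0) :
    (t ≠ 0 → z = om c t) ∧ U = z' * om t c := by
  have key := l1 t c z' z U (fun x => by
    have := h x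
    simp only [ee] at this ⊢
    rw [om_comm t x, om_comm c t] at this
    rw [← this]
    rw [om_comm c t]
    ring)
  exact key

theorem l3 (t c : W) (z z' U : F2) (h : ∀ x : W, ee t z z' (x, x + c) + U = 0) :
    (t ≠ 0 → z' = z + om c t + 1) ∧ U = z * om t c := by
  have h0 : z * om t c + U = 0 := by
    have := h 0
    simpa [ee, om_zero_left] using this
  have hU : U = z * om t c := by
    have e := F2_add_self (z * om t c)
    calc U = (z * om t c + z * om t c) + U := by rw [e, zero_add]
      _ = z * om t c + (z * om t c + U) := by ring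
      _ = _ := by rw [h0, add_zero]
  refine ⟨fun ht => ?_, hU⟩
  obtain ⟨x, hx⟩ := exists_om ht
  have h1 := h x
  simp only [ee, om_add_left, om_add_right, om_comm t x, hx, one_mul, mul_one] at h1
  have h2 : (1 + om c t + z + z') + (z * om t c + U) = 0 := by rw [← h1]; ring
  rw [h0, add_zero] at h2
  have e := F2_add_self (1 + om c t + z)
  calc z' = ((1 + om c t + z) + (1 + om c t + z)) + z' := by rw [e, zero_add]
    _ = (1 + om c t + z) + (1 + om c t + z + z') := by ring
    _ = _ := by rw [h2, add_zero]; ring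

theorem om_all (a b : W) (h : ∀ x : W, om (a + x) b = 0) : b = 0 := by
  apply eq_zero_of_om
  intro y
  have := h (a + y)
  rw [← add_assoc, W_add_self, zero_add, om_comm] at this
  exact this

variable {ι τ : Type} [Fintype ι] [Fintype τ]
variable (D : Dat W τ) (d : ι → F2)

/-- the label of `i` -/
def lab (w w' : V W ι τ) (i : ι) : W × W := (w.1 i, w'.1 i)

/-- the conditions on the bad primes -/
structure Conn {τ : Type} (t : τ → W) : Prop where
  nd : ∀ u : W, u ≠ 0 → ∃ s, om u (t s) ≠ 0
  ne : ∀ s, t s ≠ 0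
  conn : ∀ P : τ → Prop, (∃ s, P s) → (∀ s s', P s → om (t s) (t s') ≠ 0 → P s') → ∀ s, P s
  nonempty : Nonempty τ

/-- the main configurations -/
theorem main_cfg [Finite W] (hN : ∑ i, d i + D.N = 1) (hG : Conn D.t)
    (w w' : V W ι τ) (U : τ → F2) (hw : dg D d w = 0) (hw' : dg D d w' = 0)
    (lg : Finset ι) (hcard : Nat.card W ≤ Nat.card {X : W × W | ∃ j ∈ lg, lab w w' j = X})
    (h1 : ∀ j ∈ lg, ∀ i, Oq (lab w w' i + lab w w' j) = 0)
    (h2 : ∀ j ∈ lg, ∀ s, ee (D.t s) (w.2 s) (w'.2 s) (lab w w' j) + U s = 0) :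
    (w = 0 ∨ w' = 0 ∨ w' = w + ws) ∧ U = 0 := by
  classical
  set S : Set (W × W) := {X : W × W | ∃ j ∈ lg, lab w w' j = X} with hS
  have hSne : S.Nonempty := by
    by_contra he
    rw [Set.not_nonempty_iff_eq_empty] at he
    rw [he] at hcard
    have : 0 < Nat.card W := Nat.card_pos
    simp only [Set.coe_setOf, Set.mem_empty_iff_false, Nat.card_of_isEmpty] at hcard
    omega
  obtain ⟨X0, hX0⟩ := hSne
  obtain ⟨M, hB, hO, hc, hmem⟩ := coset_of S (by
    rintro X ⟨j, hj, rfl⟩ Y ⟨j', hj', rfl⟩
    exact h1 j' hj' j) hcard X0 hX0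
  have hee : ∀ s, ∀ m ∈ M, ee (D.t s) (w.2 s) (w'.2 s) (X0 + m) + U s = 0 := by
    intro s m hm
    have h3 : X0 + m ∈ S := by
      rw [hmem]
      have : X0 + m + X0 = m := by
        rw [add_comm X0 m, add_assoc, W2_add_self, add_zero]
      rw [this]
      exact hm
    obtain ⟨j, hj, hjX⟩ := h3
    rw [← hjX]
    exact h2 j hj s
  obtain ⟨v, hv, hMv⟩ := dir_of D.t hG.nd hG.ne hG.conn hG.nonempty M hB hc (by
    intro s m hm m' hm'
    refine ee_diff (D.t s) (w.2 s) (w'.2 s) (U s) X0 m m' ?_ (hee s m hm) (hee s m' hm') ?_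
    · have := hee s 0 M.zero_mem
      rwa [add_zero] at this
    · rw [add_assoc]
      exact hee s _ (M.add_mem hm hm'))
  have hdT : ∀ y : W, dg D d (TT D y) = y := fun y => by rw [dg_TT, hN, one_smul]
  have hS' : ∀ X, (∃ j ∈ lg, lab w w' j = X) ↔ v.1 • (X.2 + X0.2) + v.2 • (X.1 + X0.1) = 0 := by
    intro X
    have := (hmem X).trans (hMv _)
    exact this
  rcases F22_cases v with h | h | h | h
  · exact absurd h hv
  · -- the second coordinate is constant
    have hall : ∀ x : W, ∃ j ∈ lg, lab w w' j = (x, X0.2) := by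
      intro x
      rw [hS', h]
      simp [W_add_self]
    have hc : ∀ i, w'.1 i = X0.2 := by
      intro i
      have h3 : w'.1 i + X0.2 = 0 := by
        apply om_all (w.1 i)
        intro x
        obtain ⟨j, hj, ha⟩ := hall x
        have := h1 j hj i
        rw [ha] at this
        exact this
      rw [← add_zero (w'.1 i), ← W_add_self X0.2, ← add_assoc, h3, zero_add]
    have hs : ∀ s, (D.t s ≠ 0 → w'.2 s = om X0.2 (D.t s)) ∧ U s = w.2 s * om (D.t s) X0.2 := by
      intro s
      apply l1
      intro x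
      obtain ⟨j, hj, ha⟩ := hall x
      have := h2 j hj s
      rw [ha] at this
      exact this
    have hwT : w' = TT D X0.2 :=
      Prod.ext (funext hc) (funext fun s => (hs s).1 (hG.ne s))
    have hA : X0.2 = 0 := by
      rw [← hdT X0.2, ← hwT]
      exact hw'
    refine ⟨Or.inr (Or.inl ?_), ?_⟩
    · rw [hwT, hA]
      refine Prod.ext rfl (funext fun s => ?_)
      exact om_zero_left _
    · funext s
      rw [(hs s).2, hA, om_zero_right, mul_zero]
      rfl
  · -- the first coordinate is constant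
    have hall : ∀ x : W, ∃ j ∈ lg, lab w w' j = (X0.1, x) := by
      intro x
      rw [hS', h]
      simp [W_add_self]
    have hc : ∀ i, w.1 i = X0.1 := by
      intro i
      have h3 : w.1 i + X0.1 = 0 := by
        apply om_all (w'.1 i)
        intro x
        obtain ⟨j, hj, ha⟩ := hall x
        have := h1 j hj i
        rw [ha] at this
        rw [om_comm]
        exact this
      rw [← add_zero (w.1 i), ← W_add_self X0.1, ← add_assoc, h3, zero_add]
    have hs : ∀ s, (D.t s ≠ 0 → w.2 s = om X0.1 (D.t s)) ∧ U s = w'.2 s * om (D.t s) X0.1 := by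
      intro s
      apply l2
      intro x
      obtain ⟨j, hj, ha⟩ := hall x
      have := h2 j hj s
      rw [ha] at this
      exact this
    have hwT : w = TT D X0.1 :=
      Prod.ext (funext hc) (funext fun s => (hs s).1 (hG.ne s))
    have hA : X0.1 = 0 := by
      rw [← hdT X0.1, ← hwT]
      exact hw
    refine ⟨Or.inl ?_, ?_⟩
    · rw [hwT, hA]
      refine Prod.ext rfl (funext fun s => ?_)
      exact om_zero_left _
    · funext s
      rw [(hs s).2, hA, om_zero_right, mul_zero]
      rfl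
  · -- the sum of the coordinates is constant
    set c := X0.1 + X0.2 with hcdef
    have hall : ∀ x : W, ∃ j ∈ lg, lab w w' j = (x, x + c) := by
      intro x
      rw [hS', h]
      simp only [one_smul]
      calc x + c + X0.2 + (x + X0.1) = (x + x) + (X0.1 + X0.1) + (X0.2 + X0.2) := by
            rw [hcdef]; abel
        _ = 0 := by simp only [W_add_self, add_zero]
    have hc : ∀ i, w'.1 i = w.1 i + c := by
      intro i
      have h3 : w.1 i + (w'.1 i + c) = 0 := by
        apply om_all (w.1 i)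
        intro x
        obtain ⟨j, hj, ha⟩ := hall x
        have h4 : om (w.1 i + x) (w'.1 i + (x + c)) = 0 := by
          have := h1 j hj i
          rw [ha] at this
          exact this
        have h5 : om (w.1 i + x) (w.1 i + (w'.1 i + c)) =
            om (w.1 i + x) (w.1 i + x) + om (w.1 i + x) (w'.1 i + (x + c)) := by
          rw [← om_add_right]
          congr 1
          have := W_add_self x
          calc w.1 i + (w'.1 i + c) = w.1 i + (w'.1 i + c) + (x + x) := by rw [this, add_zero]
            _ = _ := by abel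
        rw [h5, h4, om_self, add_zero]
      have h6 := W_add_self (w.1 i + c)
      calc w'.1 i = w'.1 i + ((w.1 i + c) + (w.1 i + c)) := by rw [h6, add_zero]
        _ = (w.1 i + (w'.1 i + c)) + (w.1 i + c) := by abel
        _ = _ := by rw [h3, zero_add]
    have hs : ∀ s, (D.t s ≠ 0 → w'.2 s = w.2 s + om c (D.t s) + 1) ∧ U s = w.2 s * om (D.t s) c := by
      intro s
      apply l3
      intro x
      obtain ⟨j, hj, ha⟩ := hall x
      have := h2 j hj s
      rw [ha] at this
      exact this
    have hwT : w' = w + TT D c + ws := by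
      refine Prod.ext (funext fun i => ?_) (funext fun s => ?_)
      · rw [hc]
        show w.1 i + c = w.1 i + c + 0
        rw [add_zero]
      · show w'.2 s = w.2 s + om c (D.t s) + 1
        exact (hs s).1 (hG.ne s)
    have hA : c = 0 := by
      have h5 := hw'
      rw [hwT, dg_add, dg_add, hw, hdT, dg_ws, zero_add, add_zero] at h5
      exact h5
    refine ⟨Or.inr (Or.inr ?_), ?_⟩
    · rw [hwT, hA]
      have : (TT D 0 : V W ι τ) = 0 := Prod.ext rfl (funext fun s => om_zero_left _)
      rw [this, add_zero]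
    · funext s
      rw [(hs s).2, hA, om_zero_right, mul_zero]
      rfl

end Pool.Agent.Y164.HG
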