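import Pool.Agent.Y164.PS.El0

/-!
Squarefree polynomials as products of primes.
-/

set_option autoImplicit false
set_option linter.all false

open Polynomial
open scoped Classical

namespace Pool.Agent.Y164.HG

open Finset
open Pool.Agent.Y164.PS (Fam)

variable {k : Type} [Field k] {κ : Type} [Fintype κ] {R : κ → k[X]}

theorem dvd_of_primes {S m : k[X]} (hS : Squarefree S)
    (h : ∀ π : k[X], Irreducible π → π ∣ S → π ∣ m) : S ∣ m := by
  obtain ⟨q, hq⟩ := EuclideanDomain.gcd_dvd_left S m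
  have hS0 : S ≠ 0 := hS.ne_zero
  have hu : IsUnit q := by
    by_contra hu
    have hq0 : q ≠ 0 := by
      rintro rfl
      rw [mul_zero] at hq
      exact hS0 hq
    obtain ⟨π, hπ, hπq⟩ := WfDvdMonoid.exists_irreducible_factor hu hq0
    have h1 : π ∣ S := by rw [hq]; exact hπq.mul_left _
    have h3 : π ∣ EuclideanDomain.gcd S m := EuclideanDomain.dvd_gcd h1 (h π hπ h1)
    apply hπ.not_isUnit
    apply hS
    rw [hq]
    exact mul_dvd_mul h3 hπq
  obtain ⟨u, rfl⟩ := hu
  have h5 : S ∣ EuclideanDomain.gcd S m := ⟨↑u⁻¹, (Units.eq_mul_inv_iff_mul_eq u).2 hq.symm⟩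
  exact h5.trans (EuclideanDomain.gcd_dvd_right S m)

theorem sqf_eq [Fintype k] [DecidableEq k] (hR : Fam R) {S : k[X]} (hS : S.Monic)
    (hS' : Squarefree S) (h : ∀ π : k[X], Irreducible π → π ∣ S → ∃ x, R x ∣ π) :
    S = ∏ x, R x ^ (if R x ∣ S then 1 else 0) := by
  set M := ∏ x, R x ^ (if R x ∣ S then 1 else 0) with hM
  have hMm : M.Monic := monic_prod_of_monic _ _ fun x _ => (hR.mon x).pow _
  refine eq_of_monic_of_associated hS hMm (associated_of_dvd_dvd ?_ ?_)
  · refine dvd_of_primes hS' fun π hπ hd => ?_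
    obtain ⟨x, hx⟩ := h π hπ hd
    have h1 : R x ∣ S := hx.trans hd
    have h2 : R x ∣ M := by
      refine dvd_trans ?_ (dvd_prod_of_mem _ (mem_univ x))
      rw [if_pos h1, pow_one]
    exact (((hR.irr x).associated_of_dvd hπ hx).symm.dvd).trans h2
  · apply prod_dvd_of_coprime
    · intro x _ y _ hxy
      exact (hR.coprime hxy).pow
    · intro x _
      split_ifs with h1
      · rwa [pow_one]
      · rw [pow_zero]; exact one_dvd _

end Pool.Agent.Y164.HG
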