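import Pool.Agent.Y164.HG.Tmr

/-!
The equations satisfied by the locally soluble classes.
-/

set_option autoImplicit false
set_option linter.all false

open Polynomial IsDedekindDomain
open scoped Classical

namespace Pool.Agent.Y164.HG

open Finset
open Pool.Agent.Y713.SE (hp Pw)
open Pool.Agent.Y164.PS (L ch el Fam ch_mul el_mul el_ne L_comm L_prod_left coprime_of_not_dvd)

variable {k K : Type} [Field k] [Fintype k] [DecidableEq k] [Field K] [Algebra k[X] K]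
  [IsFractionRing k[X] K]
variable {n : ℕ} {a : Fin n → k[X]} {N : ℕ} (H : Geo a N)
variable {ι : Type} [Fintype ι] {T : ι → k[X]}
variable [Fact (Odd n)]

/-- the exponents of the components -/
def uu (p q : Tau a → Fin n) (w : V (EW n) ι (Tau a)) (i : Fin n) : ι ⊕ Tau a → F2 :=
  Sum.elim (fun y => (w.1 y).1 i) (fun s => w.2 s * e2 (p s) (q s) i)

omit [IsFractionRing k[X] K] in
theorem E1_coord (σ : Tau a → F2) (A : ι → ι → F2) (B : ι → Tau a → F2) (d : ι → F2)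
    (w : V (EW n) ι (Tau a)) (x0 : EW n) (x : ι) (i : Fin n) :
    (E1 (A := A) (H.dat σ) B d w x0 x).1 i =
      ∑ y, A x y * ((w.1 y).1 i + (w.1 x).1 i) +
      ∑ s, B x s * (((w.1 x).1 (H.p s) + (w.1 x).1 (H.q s)) * e2 (H.p s) (H.q s) i +
        w.2 s * e2 (H.p s) (H.q s) i) +
      d x * (H.comb.ksf (w.1 x).1 i + x0.1 i) := by
  rw [E1]
  have h1 : ∀ (f g h : EW n), (f + g + h).1 i = f.1 i + g.1 i + h.1 i := fun _ _ _ => rfl
  rw [h1]
  congr 1
  congr 1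
  · rw [Submodule.coe_sum, Finset.sum_apply]
    rfl
  · rw [Submodule.coe_sum, Finset.sum_apply]
    refine sum_congr rfl fun s _ => ?_
    show B x s * (om (w.1 x) (E2v (H.p s) (H.q s)) * e2 (H.p s) (H.q s) i +
      w.2 s * e2 (H.p s) (H.q s) i) = _
    rw [om_E2v]

include H in
theorem E1_of_loc (hREP : S_REP) (hR : Fam (RR a T)) (D0 : Y713.SE.Dat 2 n K)
    (hδ : D0.δ = algebraMap k[X] K (∏ i, T i)) (he : ∀ i, D0.e i = algebraMap k[X] K (a i))
    (σ : Tau a → F2) (w : V (EW n) ι (Tau a)) (x0 : EW n) (mi : Fin n → K)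
    (hrep : ∀ i, IsRep (RR a T) (mi i) (x0.1 i) (uu H.p H.q w i))
    (x : ι) (mv : Fin n → ℕ)
    (hloc : ∀ i j, ∃ z : (hp (RR a T (Sum.inl x)) (hR.irr (Sum.inl x))).adicCompletion K,
      algebraMap K _ (mi i * mi j * (Tm D0 mv i * Tm D0 mv j)) = z ^ 2) :
    E1 (A := AT T) (H.dat σ) (BT (QQ a) T) (fun i => ((T i).natDegree : F2)) w x0 x = 0 := by
  have hT := isRep_Tm (K := K) H hR D0 hδ he mv
  have key : ∀ i j, ((w.1 x).1 i + (mv i : F2)) + ((w.1 x).1 j + (mv j : F2)) = 0 ∧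
      ∑ y, ((uu H.p H.q w i y + Sum.elim (fun _ : ι => (mv i : F2))
        (fun s => e2 (H.p s) (H.q s) i * ((mv (H.p s) : F2) + mv (H.q s))) y) +
        (uu H.p H.q w j y + Sum.elim (fun _ : ι => (mv j : F2))
        (fun s => e2 (H.p s) (H.q s) j * ((mv (H.p s) : F2) + mv (H.q s))) y)) *
        L (RR a T y) (T x) + ((T x).natDegree : F2) *
        ((x0.1 i + H.comb.ksf (fun j => (mv j : F2)) i) +
          (x0.1 j + H.comb.ksf (fun j => (mv j : F2)) j)) = 0 := by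
    intro i j
    have h1 := (((hrep i).mul (hT i)).mul ((hrep j).mul (hT j)))
    have h2 : mi i * Tm D0 mv i * (mi j * Tm D0 mv j) = mi i * mi j * (Tm D0 mv i * Tm D0 mv j) := by
      ring
    rw [h2] at h1
    exact (hREP k K (ι ⊕ Tau a) (RR a T) hR H.hk).2.1 _ _ _ h1 (Sum.inl x) (hloc i j)
  have hmv : ∀ i j, (mv i : F2) + mv j = (w.1 x).1 i + (w.1 x).1 j := by
    intro i j
    have h1 := (key i j).1
    have h2 : ∀ a b c d : F2, (a + b) + (c + d) = 0 → b + d = a + c := by decide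
    exact h2 _ _ _ _ h1
  have hks : ∀ i, H.comb.ksf (fun j => (mv j : F2)) i = H.comb.ksf (w.1 x).1 i := by
    intro i
    refine sum_congr rfl fun l _ => ?_
    show ((mv i : F2) + mv l) * _ = _
    rw [hmv]
  apply Subtype.ext
  refine const_zero H.hn _ (E1 (A := AT T) (H.dat σ) (BT (QQ a) T)
    (fun i => ((T i).natDegree : F2)) w x0 x).2 ?_
  intro i j
  rw [E1_coord, E1_coord]
  have h1 := (key i j).2
  rw [Fintype.sum_sum_type] at h1
  rw [← h1, hks, hks]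
  have e1 : ∑ y, AT T x y * ((w.1 y).1 i + (w.1 x).1 i) + ∑ y, AT T x y * ((w.1 y).1 j + (w.1 x).1 j) =
      ∑ y : ι, ((uu H.p H.q w i (Sum.inl y) + Sum.elim (fun _ : ι => (mv i : F2))
        (fun s => e2 (H.p s) (H.q s) i * ((mv (H.p s) : F2) + mv (H.q s))) (Sum.inl y)) +
        (uu H.p H.q w j (Sum.inl y) + Sum.elim (fun _ : ι => (mv j : F2))
        (fun s => e2 (H.p s) (H.q s) j * ((mv (H.p s) : F2) + mv (H.q s))) (Sum.inl y))) *
        L (RR a T (Sum.inl y)) (T x) := by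
    rw [← sum_add_distrib]
    refine sum_congr rfl fun y _ => ?_
    show AT T x y * ((w.1 y).1 i + (w.1 x).1 i) + AT T x y * ((w.1 y).1 j + (w.1 x).1 j) =
      (((w.1 y).1 i + (mv i : F2)) + ((w.1 y).1 j + (mv j : F2))) * L (T y) (T x)
    have h2 : AT T x y = L (T y) (T x) := L_comm H.hm _ _
    rw [h2]
    have h3 := hmv i j
    have h4 : ∀ a b c d e f l : F2, c + f = b + e → l * (a + b) + l * (d + e) = ((a + c) + (d + f)) * l := by
      decide
    exact h4 _ _ _ _ _ _ _ h3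
  have e2' : ∑ s, BT (QQ a) T x s * (((w.1 x).1 (H.p s) + (w.1 x).1 (H.q s)) * e2 (H.p s) (H.q s) i +
        w.2 s * e2 (H.p s) (H.q s) i) +
      ∑ s, BT (QQ a) T x s * (((w.1 x).1 (H.p s) + (w.1 x).1 (H.q s)) * e2 (H.p s) (H.q s) j +
        w.2 s * e2 (H.p s) (H.q s) j) =
      ∑ s : Tau a, ((uu H.p H.q w i (Sum.inr s) + Sum.elim (fun _ : ι => (mv i : F2))
        (fun s => e2 (H.p s) (H.q s) i * ((mv (H.p s) : F2) + mv (H.q s))) (Sum.inr s)) +
        (uu H.p H.q w j (Sum.inr s) + Sum.elim (fun _ : ι => (mv j : F2))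
        (fun s => e2 (H.p s) (H.q s) j * ((mv (H.p s) : F2) + mv (H.q s))) (Sum.inr s))) *
        L (RR a T (Sum.inr s)) (T x) := by
    rw [← sum_add_distrib]
    refine sum_congr rfl fun s _ => ?_
    show _ = ((w.2 s * e2 (H.p s) (H.q s) i + e2 (H.p s) (H.q s) i * ((mv (H.p s) : F2) + mv (H.q s))) +
      (w.2 s * e2 (H.p s) (H.q s) j + e2 (H.p s) (H.q s) j * ((mv (H.p s) : F2) + mv (H.q s)))) *
      L (QQ a s) (T x)
    have h2 : BT (QQ a) T x s = L (QQ a s) (T x) := L_comm H.hm _ _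
    rw [h2, hmv]
    ring
  rw [← e1, ← e2']
  ring

include H in
theorem E2_of_loc (hREP : S_REP) (hR : Fam (RR a T)) (D0 : Y713.SE.Dat 2 n K)
    (hδ : D0.δ = algebraMap k[X] K (∏ i, T i)) (he : ∀ i, D0.e i = algebraMap k[X] K (a i))
    (σ : Tau a → F2) (hcl : ∀ s, σ s + ∑ i, BT (QQ a) T i s + H.comb.gg s = 0)
    (w : V (EW n) ι (Tau a)) (x0 : EW n) (mi : Fin n → K)
    (hrep : ∀ i, IsRep (RR a T) (mi i) (x0.1 i) (uu H.p H.q w i))
    (s : Tau a) (r : ℕ) (hr : (r : F2) = w.2 s)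
    (hloc : ∃ z : (hp (RR a T (Sum.inr s)) (hR.irr (Sum.inr s))).adicCompletion K,
      algebraMap K _ (mi (H.p s) * mi (H.q s) * (Tm D0 (fun l => if l = H.q s then r else 0) (H.p s) *
        Tm D0 (fun l => if l = H.q s then r else 0) (H.q s))) = z ^ 2) :
    E2 (H.dat σ) (BT (QQ a) T) w x0 s = 0 := by
  obtain ⟨mv, hmv⟩ : ∃ mv : Fin n → ℕ, mv = fun l => if l = H.q s then r else 0 := ⟨_, rfl⟩
  rw [← hmv] at hloc
  have hT := isRep_Tm (K := K) H hR D0 hδ he mv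
  set i := H.p s with hi
  set j := H.q s with hj
  have hij : i ≠ j := ne_of_lt (H.lt s)
  have h1 := (((hrep i).mul (hT i)).mul ((hrep j).mul (hT j)))
  have h2 : mi i * Tm D0 mv i * (mi j * Tm D0 mv j) = mi i * mi j * (Tm D0 mv i * Tm D0 mv j) := by
    ring
  rw [h2] at h1
  have h3 := ((hREP k K (ι ⊕ Tau a) (RR a T) hR H.hk).2.1 _ _ _ h1 (Sum.inr s) hloc).2
  rw [Fintype.sum_sum_type] at h3
  have hmi : (mv i : F2) = 0 := by
    rw [hmv]
    simp only [if_neg hij, Nat.cast_zero]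
  have hmj : (mv j : F2) = w.2 s := by
    rw [hmv]
    simp only [if_true]
    exact hr
  have h4 := H.comb.h1fun s (fun l => (mv l : F2))
  have h4' : ∑ s', L (QQ a s) (QQ a s') * (((mv (H.p s') : F2) + mv (H.q s')) *
      (e2 (H.p s') (H.q s') i + e2 (H.p s') (H.q s') j)) +
      ((QQ a s).natDegree : F2) * (H.comb.ksf (fun l => (mv l : F2)) i +
        H.comb.ksf (fun l => (mv l : F2)) j) = H.comb.gg s * ((mv i : F2) + mv j) := h4
  rw [hmi, hmj, zero_add] at h4'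
  have e1 : ∑ y : ι, (uu H.p H.q w i (Sum.inl y) + Sum.elim (fun _ : ι => (mv i : F2))
        (fun s => e2 (H.p s) (H.q s) i * ((mv (H.p s) : F2) + mv (H.q s))) (Sum.inl y) +
        (uu H.p H.q w j (Sum.inl y) + Sum.elim (fun _ : ι => (mv j : F2))
        (fun s => e2 (H.p s) (H.q s) j * ((mv (H.p s) : F2) + mv (H.q s))) (Sum.inl y))) *
        L (RR a T (Sum.inl y)) (RR a T (Sum.inr s)) =
      ∑ y, BT (QQ a) T y s * om (w.1 y) (E2v i j) + w.2 s * ∑ y, BT (QQ a) T y s := by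
    rw [mul_sum, ← sum_add_distrib]
    refine sum_congr rfl fun y _ => ?_
    show ((w.1 y).1 i + (mv i : F2) + ((w.1 y).1 j + (mv j : F2))) * L (T y) (QQ a s) =
      L (T y) (QQ a s) * om (w.1 y) (E2v i j) + w.2 s * L (T y) (QQ a s)
    rw [om_E2v, hmi, hmj]
    ring
  have e2' : ∑ s' : Tau a, (uu H.p H.q w i (Sum.inr s') + Sum.elim (fun _ : ι => (mv i : F2))
        (fun s => e2 (H.p s) (H.q s) i * ((mv (H.p s) : F2) + mv (H.q s))) (Sum.inr s') +
        (uu H.p H.q w j (Sum.inr s') + Sum.elim (fun _ : ι => (mv j : F2))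
        (fun s => e2 (H.p s) (H.q s) j * ((mv (H.p s) : F2) + mv (H.q s))) (Sum.inr s'))) *
        L (RR a T (Sum.inr s')) (RR a T (Sum.inr s)) =
      ∑ s', L (QQ a s) (QQ a s') * (w.2 s' * om (E2v (H.p s') (H.q s')) (E2v i j)) +
      ∑ s', L (QQ a s) (QQ a s') * (((mv (H.p s') : F2) + mv (H.q s')) *
        (e2 (H.p s') (H.q s') i + e2 (H.p s') (H.q s') j)) := by
    rw [← sum_add_distrib]
    refine sum_congr rfl fun s' _ => ?_
    show (w.2 s' * e2 (H.p s') (H.q s') i + e2 (H.p s') (H.q s') i * ((mv (H.p s') : F2) + mv (H.q s')) +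
      (w.2 s' * e2 (H.p s') (H.q s') j + e2 (H.p s') (H.q s') j * ((mv (H.p s') : F2) + mv (H.q s')))) *
      L (QQ a s') (QQ a s) = _
    rw [om_E2v, L_comm H.hm (QQ a s') (QQ a s)]
    show _ = L (QQ a s) (QQ a s') * (w.2 s' * (e2 (H.p s') (H.q s') i + e2 (H.p s') (H.q s') j)) + _
    ring
  rw [e1, e2'] at h3
  have h5 : E2 (H.dat σ) (BT (QQ a) T) w x0 s =
      σ s * w.2 s + ∑ y, BT (QQ a) T y s * om (w.1 y) (E2v i j) +
      ∑ s', L (QQ a s) (QQ a s') * (w.2 s' * om (E2v (H.p s') (H.q s')) (E2v i j)) +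
      ((QQ a s).natDegree : F2) * (x0.1 i + x0.1 j) := by
    rw [← om_E2v x0 i j]
    rfl
  rw [h5]
  have h6 := hcl s
  obtain ⟨X1, hX1⟩ : ∃ X1, X1 = ∑ y, BT (QQ a) T y s * om (w.1 y) (E2v i j) := ⟨_, rfl⟩
  obtain ⟨X2, hX2⟩ : ∃ X2, X2 = ∑ y, BT (QQ a) T y s := ⟨_, rfl⟩
  obtain ⟨X3, hX3⟩ : ∃ X3, X3 = ∑ s', L (QQ a s) (QQ a s') *
    (w.2 s' * om (E2v (H.p s') (H.q s')) (E2v i j)) := ⟨_, rfl⟩
  obtain ⟨X4, hX4⟩ : ∃ X4, X4 = ∑ s', L (QQ a s) (QQ a s') *
    (((mv (H.p s') : F2) + mv (H.q s')) * (e2 (H.p s') (H.q s') i + e2 (H.p s') (H.q s') j)) :=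
    ⟨_, rfl⟩
  have h3' : X1 + w.2 s * X2 + (X3 + X4) + ((QQ a s).natDegree : F2) *
      (x0.1 i + H.comb.ksf (fun l => (mv l : F2)) i + (x0.1 j + H.comb.ksf (fun l => (mv l : F2)) j)) =
      0 := by
    rw [hX1, hX2, hX3, hX4]
    exact h3
  rw [← hX4] at h4'
  rw [← hX1, ← hX3]
  rw [← hX2] at h6
  generalize H.comb.ksf (fun l => (mv l : F2)) i = k1 at *
  generalize H.comb.ksf (fun l => (mv l : F2)) j = k2 at *
  generalize ((QQ a s).natDegree : F2) = dq at *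
  generalize H.comb.gg s = g at *
  generalize σ s = sg at *
  generalize x0.1 i = y1 at *
  generalize x0.1 j = y2 at *
  generalize w.2 s = r' at *
  have h7 : σ = σ := rfl
  have e3 : sg * r' + X1 + X3 + dq * (y1 + y2) =
      (X1 + r' * X2 + (X3 + X4) + dq * (y1 + k1 + (y2 + k2))) +
      (X4 + dq * (k1 + k2) + g * r') + (sg + X2 + g) * r' +
      (g * r' + g * r') + (X4 + X4) + (r' * X2 + r' * X2) + (dq * (k1 + k2) + dq * (k1 + k2)) -
      (X4 + X4) - (r' * X2 + r' * X2) - (dq * (k1 + k2) + dq * (k1 + k2)) - (g * r' + g * r') -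
      (X4 + X4) - (r' * X2 + r' * X2) - (dq * (k1 + k2) + dq * (k1 + k2)) - (g * r' + g * r') := by
    ring
  rw [e3, h3', h4', h6]
  simp only [F2_add_self, zero_mul, add_zero, sub_zero]

end Pool.Agent.Y164.HG
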