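import Pool.Agent.Y164.HG.Cls

/-!
Vectors of even weight, and the data attached to a graph on the indices.
-/

set_option autoImplicit false
set_option linter.all false

namespace Pool.Agent.Y164.HG

open Finset

/-- vectors of even weight -/
def EW (n : ℕ) : Submodule F2 (Fin n → F2) where
  carrier := {v | ∑ i, v i = 0}
  add_mem' := by
    intro a b ha hb
    have ha' : ∑ i, a i = 0 := ha
    have hb' : ∑ i, b i = 0 := hb
    show ∑ i, (a i + b i) = 0
    rw [sum_add_distrib, ha', hb', add_zero]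
  zero_mem' := by
    show ∑ i, (0 : F2) = 0
    exact sum_const_zero
  smul_mem' := by
    intro c v hv
    have hv' : ∑ i, v i = 0 := hv
    show ∑ i, (c * v i) = 0
    rw [← mul_sum, hv', mul_zero]

theorem EW.sum {n : ℕ} (v : EW n) : ∑ i, v.1 i = 0 := v.2

theorem odd_cast {n : ℕ} (h : Odd n) : (n : F2) = 1 := (ZMod.natCast_eq_one_iff_odd).2 h

theorem const_zero {n : ℕ} (h : Odd n) (v : Fin n → F2) (hs : ∑ i, v i = 0)
    (hc : ∀ i j, v i + v j = 0) : v = 0 := by
  funext i
  have h1 : ∀ j, v j = v i := by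
    intro j
    have h2 : ∀ a b : F2, a + b = 0 → b = a := by decide
    exact h2 _ _ (hc i j)
  have h2 : ∑ j, v j = (n : F2) * v i := by
    rw [sum_congr rfl (fun j _ => h1 j), sum_const, card_univ, Fintype.card_fin, nsmul_eq_mul]
  rw [hs, odd_cast h, one_mul] at h2
  exact h2.symm

/-- the vector with ones at two places -/
def e2 {n : ℕ} (i j : Fin n) : Fin n → F2 := fun l => (if i = l then 1 else 0) + (if j = l then 1 else 0)

theorem e2_sum {n : ℕ} (i j : Fin n) : ∑ l, e2 i j l = 0 := by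
  simp only [e2, sum_add_distrib, sum_ite_eq, mem_univ, if_true]
  decide

theorem sum_mul_e2 {n : ℕ} (i j : Fin n) (y : Fin n → F2) : ∑ l, y l * e2 i j l = y i + y j := by
  simp only [e2, mul_add, sum_add_distrib, mul_ite, mul_one, mul_zero, sum_ite_eq, mem_univ, if_true]

/-- the vector with ones at two places, of even weight -/
def E2v {n : ℕ} (i j : Fin n) : EW n := ⟨e2 i j, e2_sum i j⟩

instance EW.symp {n : ℕ} [h : Fact (Odd n)] : Symp (EW n) where
  om := fun x y => ∑ i, x.1 i * y.1 i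
  add_left := by
    intro x y z
    rw [← sum_add_distrib]
    refine sum_congr rfl fun i _ => ?_
    show (x.1 i + y.1 i) * z.1 i = _
    ring
  comm := fun x y => sum_congr rfl fun i _ => mul_comm _ _
  self := fun x => by
    rw [sum_congr rfl (fun i _ => F2_sq (x.1 i))]
    exact x.2
  nd := by
    intro x hx
    apply Subtype.ext
    apply const_zero h.out x.1 x.2
    intro i j
    have := hx (E2v i j)
    rw [← this]
    exact (sum_mul_e2 i j x.1).symm

theorem om_def {n : ℕ} [Fact (Odd n)] (x y : EW n) : om x y = ∑ i, x.1 i * y.1 i := rfl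

theorem om_E2v {n : ℕ} [Fact (Odd n)] (x : EW n) (i j : Fin n) :
    om x (E2v i j) = x.1 i + x.1 j := sum_mul_e2 i j x.1

theorem sym_sum {n : ℕ} (f : Fin n → Fin n → F2) (hf : ∀ i j, f i j = f j i) (h0 : ∀ i, f i i = 0) :
    ∑ i, ∑ j, f i j = 0 := by
  classical
  rw [← sum_product']
  refine sum_involution (fun p _ => (p.2, p.1)) ?_ ?_ ?_ ?_
  · rintro ⟨i, j⟩ _
    show f i j + f j i = 0
    rw [hf i j, F2_add_self]
  · rintro ⟨i, j⟩ _ hne h
    simp only [Prod.mk.injEq] at h
    apply hne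
    show f i j = 0
    rw [h.1]
    exact h0 _
  · intro _ _
    exact mem_univ _
  · rintro ⟨i, j⟩ _
    rfl

/-- the indicator of the nodes joining two indices -/
def mu {n : ℕ} {τ : Type} (p q : τ → Fin n) (i j : Fin n) (s : τ) : F2 :=
  if (p s = i ∧ q s = j) ∨ (p s = j ∧ q s = i) then 1 else 0

theorem mu_comm {n : ℕ} {τ : Type} (p q : τ → Fin n) (i j : Fin n) (s : τ) :
    mu p q i j s = mu p q j i s := by
  unfold mu
  simp only [or_comm]

/-- combinatorial data -/
structure Comb (n : ℕ) (τ : Type) [Fintype τ] where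
  p : τ → Fin n
  q : τ → Fin n
  hpq : ∀ s, p s ≠ q s
  G : τ → τ → F2
  e : τ → F2
  c : Fin n → Fin n → F2
  lam : τ → Fin n → F2
  N : F2
  symG : ∀ s s', G s s' = G s' s
  symc : ∀ i j, c i j = c j i
  hN : ∀ i j, i ≠ j → ∑ s, mu p q i j s * e s = N
  hp : ∀ s l, l ≠ p s → l ≠ q s → ∑ s', mu p q (p s) l s' * G s s' + e s * c (p s) l = lam s l
  hq : ∀ s l, l ≠ p s → l ≠ q s → ∑ s', mu p q (q s) l s' * G s s' + e s * c (q s) l = lam s l

namespace Comb

variable {n : ℕ} {τ : Type} [Fintype τ] (C : Comb n τ)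

theorem mu_self (i : Fin n) (s : τ) : mu C.p C.q i i s = 0 := by
  unfold mu
  rw [if_neg]
  rintro (⟨h1, h2⟩ | ⟨h1, h2⟩)
  · exact C.hpq s (h1.trans h2.symm)
  · exact C.hpq s (h1.trans h2.symm)

/-- the main identity -/
theorem key (y : Fin n → F2) (i : Fin n) (s : τ) :
    ∑ j, mu C.p C.q i j s * (y i + y j) = e2 (C.p s) (C.q s) i * (y (C.p s) + y (C.q s)) := by
  have hpq := C.hpq s
  by_cases h1 : C.p s = i
  · have h2 : C.q s ≠ i := fun h => hpq (h1.trans h.symm)
    rw [sum_eq_single (C.q s)]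
    · have : mu C.p C.q i (C.q s) s = 1 := if_pos (Or.inl ⟨h1, rfl⟩)
      rw [this, e2, if_pos h1, if_neg h2, h1]
      ring
    · intro j _ hj
      have : mu C.p C.q i j s = 0 := by
        unfold mu
        rw [if_neg]
        rintro (⟨_, h⟩ | ⟨_, h⟩)
        · exact hj h.symm
        · exact h2 h
      rw [this, zero_mul]
    · intro h
      exact absurd (mem_univ _) h
  · by_cases h2 : C.q s = i
    · rw [sum_eq_single (C.p s)]
      · have : mu C.p C.q i (C.p s) s = 1 := if_pos (Or.inr ⟨rfl, h2⟩)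
        rw [this, e2, if_neg h1, if_pos h2, h2]
        ring
      · intro j _ hj
        have : mu C.p C.q i j s = 0 := by
          unfold mu
          rw [if_neg]
          rintro (⟨h, _⟩ | ⟨h, _⟩)
          · exact h1 h
          · exact hj h.symm
        rw [this, zero_mul]
      · intro h
        exact absurd (mem_univ _) h
    · rw [e2, if_neg h1, if_neg h2, add_zero, zero_mul]
      apply sum_eq_zero
      intro j _
      have : mu C.p C.q i j s = 0 := by
        unfold mu
        rw [if_neg]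
        rintro (⟨h, _⟩ | ⟨_, h⟩)
        · exact h1 h
        · exact h2 h
      rw [this, zero_mul]

/-- the number of edges at an index -/
theorem key1 (i : Fin n) (s : τ) : ∑ j, mu C.p C.q i j s = e2 (C.p s) (C.q s) i := by
  have hpq := C.hpq s
  by_cases h1 : C.p s = i
  · have h2 : C.q s ≠ i := fun h => hpq (h1.trans h.symm)
    rw [sum_eq_single (C.q s)]
    · have : mu C.p C.q i (C.q s) s = 1 := if_pos (Or.inl ⟨h1, rfl⟩)
      rw [this, e2, if_pos h1, if_neg h2, add_zero]
    · intro j _ hj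
      unfold mu
      rw [if_neg]
      rintro (⟨_, h⟩ | ⟨_, h⟩)
      · exact hj h.symm
      · exact h2 h
    · intro h
      exact absurd (mem_univ _) h
  · by_cases h2 : C.q s = i
    · rw [sum_eq_single (C.p s)]
      · have : mu C.p C.q i (C.p s) s = 1 := if_pos (Or.inr ⟨rfl, h2⟩)
        rw [this, e2, if_neg h1, if_pos h2, zero_add]
      · intro j _ hj
        unfold mu
        rw [if_neg]
        rintro (⟨h, _⟩ | ⟨h, _⟩)
        · exact h1 h
        · exact hj h.symm
      · intro h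
        exact absurd (mem_univ _) h
    · rw [e2, if_neg h1, if_neg h2, add_zero]
      apply sum_eq_zero
      intro j _
      unfold mu
      rw [if_neg]
      rintro (⟨h, _⟩ | ⟨_, h⟩)
      · exact h1 h
      · exact h2 h

/-- the twisting function -/
def ksf (y : Fin n → F2) (i : Fin n) : F2 := ∑ j, (y i + y j) * C.c i j

theorem ksf_sum (y : Fin n → F2) : ∑ i, C.ksf y i = 0 := by
  apply sym_sum (fun i j => (y i + y j) * C.c i j)
  · intro i j
    rw [C.symc, add_comm (y i)]
  · intro i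
    rw [F2_add_self, zero_mul]

variable [hodd : Fact (Odd n)]

/-- the constants -/
def gg (s : τ) : F2 := ∑ l, if l = C.p s ∨ l = C.q s then 0 else C.lam s l

theorem ksf_pair (x y : Fin n → F2) : ∑ i, C.ksf x i * y i =
    ∑ i, ∑ j, (x i * y i + x j * y i) * C.c i j := by
  refine sum_congr rfl fun i _ => ?_
  rw [ksf, sum_mul]
  refine sum_congr rfl fun j _ => ?_
  ring

theorem h1fun (s : τ) (y : Fin n → F2) :
    ∑ s', C.G s s' * ((y (C.p s') + y (C.q s')) *
      (e2 (C.p s') (C.q s') (C.p s) + e2 (C.p s') (C.q s') (C.q s))) +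
      C.e s * (C.ksf y (C.p s) + C.ksf y (C.q s)) = C.gg s * (y (C.p s) + y (C.q s)) := by
  set i := C.p s with hi
  set j := C.q s with hj
  have hij : i ≠ j := C.hpq s
  set A : Fin n → F2 := fun l => ∑ s', mu C.p C.q i l s' * C.G s s' with hA
  set B : Fin n → F2 := fun l => ∑ s', mu C.p C.q j l s' * C.G s s' with hB
  have e1 : ∑ s', C.G s s' * ((y (C.p s') + y (C.q s')) *
      (e2 (C.p s') (C.q s') i + e2 (C.p s') (C.q s') j)) =
      ∑ l, ((y i + y l) * A l + (y j + y l) * B l) := by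
    have h1 : ∀ s', C.G s s' * ((y (C.p s') + y (C.q s')) *
        (e2 (C.p s') (C.q s') i + e2 (C.p s') (C.q s') j)) =
        ∑ l, (mu C.p C.q i l s' * (y i + y l) * C.G s s' +
          mu C.p C.q j l s' * (y j + y l) * C.G s s') := by
      intro s'
      rw [sum_add_distrib, ← sum_mul, ← sum_mul, C.key, C.key]
      ring
    rw [sum_congr rfl (fun s' _ => h1 s'), sum_comm]
    refine sum_congr rfl fun l _ => ?_
    rw [sum_add_distrib, hA, hB]
    simp only [mul_sum]
    congr 1
    · refine sum_congr rfl fun s' _ => ?_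
      ring
    · refine sum_congr rfl fun s' _ => ?_
      ring
  have e2' : C.e s * (C.ksf y i + C.ksf y j) =
      ∑ l, C.e s * ((y i + y l) * C.c i l + (y j + y l) * C.c j l) := by
    rw [ksf, ksf, ← sum_add_distrib, mul_sum]
  rw [e1, e2', ← sum_add_distrib]
  set F : Fin n → F2 := fun l => (y i + y l) * A l + (y j + y l) * B l +
      C.e s * ((y i + y l) * C.c i l + (y j + y l) * C.c j l) with hF
  have hFij : F i + F j = 0 := by
    have h1 : B i = A j := by
      rw [hA, hB]
      exact sum_congr rfl fun s' _ => by rw [mu_comm]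
    rw [hF]
    simp only [F2_add_self, zero_mul, zero_add, add_zero]
    rw [h1, C.symc j i, add_comm (y j) (y i)]
    exact F2_add_self _
  have hFl : ∀ l, l ≠ i → l ≠ j → F l = (y i + y j) * C.lam s l := by
    intro l h1 h2
    have h3 := C.hp s l h1 h2
    have h4 := C.hq s l h1 h2
    have h3' : A l + C.e s * C.c i l = C.lam s l := h3
    have h4' : B l + C.e s * C.c j l = C.lam s l := h4
    have h5 : F l = (y i + y l) * (A l + C.e s * C.c i l) +
        (y j + y l) * (B l + C.e s * C.c j l) := by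
      rw [hF]; ring
    rw [h5, h3', h4', ← add_mul]
    congr 1
    have h6 : ∀ a b c : F2, a + c + (b + c) = a + b := by decide
    exact h6 _ _ _
  show ∑ l, F l = _
  rw [gg, sum_mul]
  have h7 : ∀ g : Fin n → F2, ∑ l, g l = g i + g j + ∑ l ∈ (univ.erase i).erase j, g l := by
    intro g
    rw [← add_sum_erase univ _ (mem_univ i), ← add_sum_erase (univ.erase i) _
      (mem_erase.2 ⟨hij.symm, mem_univ j⟩), add_assoc]
  rw [h7 F, hFij, zero_add, h7]
  rw [if_pos (Or.inl hi), if_pos (Or.inr hj), zero_mul, add_zero, zero_add]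
  refine sum_congr rfl fun l hl => ?_
  have h8 := ne_of_mem_erase hl
  have h9 := ne_of_mem_erase (mem_of_mem_erase hl)
  rw [hFl l h9 h8, if_neg (by rintro (h | h); exacts [h9 h, h8 h]), mul_comm]

theorem h1core (s : τ) (y : EW n) :
    ∑ s', C.G s s' * (om y (E2v (C.p s') (C.q s')) * om (E2v (C.p s') (C.q s')) (E2v (C.p s) (C.q s))) +
      C.e s * (C.ksf y.1 (C.p s) + C.ksf y.1 (C.q s)) = C.gg s * om y (E2v (C.p s) (C.q s)) := by
  rw [om_E2v, ← C.h1fun s y.1]
  congr 1
  refine sum_congr rfl fun s' _ => ?_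
  rw [om_E2v, om_E2v]
  rfl

/-- the data -/
def dat (σ : τ → F2) : Dat (EW n) τ where
  t := fun s => E2v (C.p s) (C.q s)
  G := C.G
  e := C.e
  ks := fun y => ⟨C.ksf y.1, C.ksf_sum y.1⟩
  ks_add := by
    intro x y
    apply Subtype.ext
    funext i
    show C.ksf (x.1 + y.1) i = C.ksf x.1 i + C.ksf y.1 i
    simp only [ksf, Pi.add_apply]
    rw [← sum_add_distrib]
    refine sum_congr rfl fun j _ => ?_
    ring
  ks_comm := by
    intro x y
    rw [om_def, om_def]
    show ∑ i, C.ksf x.1 i * y.1 i = ∑ i, C.ksf y.1 i * x.1 i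
    rw [ksf_pair, ksf_pair]
    have h1 : ∑ i, ∑ j, (x.1 i * y.1 i + x.1 j * y.1 i) * C.c i j +
        ∑ i, ∑ j, (y.1 i * x.1 i + y.1 j * x.1 i) * C.c i j = 0 := by
      rw [← sum_add_distrib]
      simp only [← sum_add_distrib]
      apply sym_sum (fun i j => (x.1 i * y.1 i + x.1 j * y.1 i) * C.c i j +
        (y.1 i * x.1 i + y.1 j * x.1 i) * C.c i j)
      · intro i j
        rw [C.symc j i]
        have h2 : ∀ a b c d e : F2, (a * b + c * b) * e + (b * a + d * a) * e =
            (c * d + a * d) * e + (d * c + b * c) * e := by decide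
        exact h2 _ _ _ _ _
      · intro i
        have h2 : ∀ a b e : F2, (a * b + a * b) * e + (b * a + b * a) * e = 0 := by decide
        exact h2 _ _ _
    have h3 : ∀ a b : F2, a + b = 0 → a = b := by decide
    exact h3 _ _ h1
  uu := ⟨fun i => ∑ j, (if i = j then 0 else C.c i j), by
    apply sym_sum (fun i j => if i = j then 0 else C.c i j)
    · intro i j
      by_cases h : i = j
      · rw [if_pos h, if_pos h.symm]
      · rw [if_neg h, if_neg (Ne.symm h), C.symc]
    · intro i
      exact if_pos rfl⟩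
  ks_self := by
    intro x
    rw [om_def, om_def]
    show ∑ i, C.ksf x.1 i * x.1 i = ∑ i, x.1 i * ∑ j, (if i = j then 0 else C.c i j)
    rw [ksf_pair]
    have h1 : ∑ i, ∑ j, (x.1 i * x.1 i + x.1 j * x.1 i) * C.c i j +
        ∑ i, x.1 i * ∑ j, (if i = j then 0 else C.c i j) = 0 := by
      rw [← sum_add_distrib]
      simp only [mul_sum, ← sum_add_distrib]
      apply sym_sum (fun i j => (x.1 i * x.1 i + x.1 j * x.1 i) * C.c i j +
        x.1 i * (if i = j then 0 else C.c i j))
      · intro i j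
        by_cases h : i = j
        · rw [h]
        · rw [if_neg h, if_neg (Ne.symm h), C.symc j i]
          have h2 : ∀ a b e : F2, (a * a + b * a) * e + a * e = (b * b + a * b) * e + b * e := by
            decide
          exact h2 _ _ _
      · intro i
        rw [if_pos rfl]
        have h2 : ∀ a e : F2, (a * a + a * a) * e + a * 0 = 0 := by decide
        exact h2 _ _
    have h3 : ∀ a b : F2, a + b = 0 → a = b := by decide
    exact h3 _ _ h1
  N := C.N
  g := C.gg
  sp := σ
  symm := C.symG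
  h1 := by
    intro s y
    rw [om_E2v (⟨C.ksf y.1, C.ksf_sum y.1⟩ : EW n)]
    exact C.h1core s y
  h4 := by
    intro y
    apply Subtype.ext
    funext i
    show (((∑ s, (C.e s * om y (E2v (C.p s) (C.q s))) • E2v (C.p s) (C.q s) : EW n) : Fin n → F2)) i =
      C.N * y.1 i
    rw [Submodule.coe_sum, Finset.sum_apply]
    have h1 : ∀ s, ((((C.e s * om y (E2v (C.p s) (C.q s))) • E2v (C.p s) (C.q s) : EW n) :
        Fin n → F2)) i = ∑ j, mu C.p C.q i j s * C.e s * (y.1 i + y.1 j) := by
      intro s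
      show (C.e s * om y (E2v (C.p s) (C.q s))) * e2 (C.p s) (C.q s) i = _
      rw [om_E2v]
      have := C.key y.1 i s
      calc C.e s * (y.1 (C.p s) + y.1 (C.q s)) * e2 (C.p s) (C.q s) i =
          C.e s * (e2 (C.p s) (C.q s) i * (y.1 (C.p s) + y.1 (C.q s))) := by ring
        _ = C.e s * ∑ j, mu C.p C.q i j s * (y.1 i + y.1 j) := by rw [this]
        _ = _ := by
            rw [mul_sum]
            exact sum_congr rfl fun j _ => by ring
    rw [sum_congr rfl (fun s _ => h1 s), sum_comm]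
    have h2 : ∀ j, ∑ s, mu C.p C.q i j s * C.e s * (y.1 i + y.1 j) = C.N * (y.1 i + y.1 j) := by
      intro j
      rw [← sum_mul]
      by_cases hij : i = j
      · rw [hij, F2_add_self, mul_zero, mul_zero]
      · rw [C.hN i j hij]
    rw [sum_congr rfl (fun j _ => h2 j), ← mul_sum, sum_add_distrib, EW.sum y, add_zero, sum_const,
      card_univ, Fintype.card_fin, nsmul_eq_mul, odd_cast hodd.out, one_mul]
  h3 := by
    apply Subtype.ext
    funext i
    show (((∑ s, C.e s • E2v (C.p s) (C.q s) : EW n) : Fin n → F2)) i = 0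
    rw [Submodule.coe_sum, Finset.sum_apply]
    have h1 : ∀ s, (((C.e s • E2v (C.p s) (C.q s) : EW n) : Fin n → F2)) i =
        ∑ j, mu C.p C.q i j s * C.e s := by
      intro s
      show C.e s * e2 (C.p s) (C.q s) i = _
      rw [← C.key1 i s, mul_sum]
      exact sum_congr rfl fun j _ => by ring
    rw [sum_congr rfl (fun s _ => h1 s), sum_comm, ← add_sum_erase univ _ (mem_univ i)]
    have h2 : ∑ s, mu C.p C.q i i s * C.e s = 0 :=
      sum_eq_zero fun s _ => by rw [C.mu_self, zero_mul]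
    have h3 : ∀ j ∈ univ.erase i, ∑ s, mu C.p C.q i j s * C.e s = C.N := fun j hj =>
      C.hN i j (ne_of_mem_erase hj).symm
    rw [h2, zero_add, sum_congr rfl h3, sum_const, card_erase_of_mem (mem_univ i), card_univ,
      Fintype.card_fin, nsmul_eq_mul]
    have h4 : ((n - 1 : ℕ) : F2) = 0 := by
      obtain ⟨m, hm⟩ := hodd.out
      rw [hm, Nat.add_sub_cancel]
      push_cast
      have : (2 : F2) = 0 := by decide
      rw [this, zero_mul]
    rw [h4, zero_mul]

/-- connectedness -/
theorem conn (hn : 3 ≤ n) (hex : ∀ i j, i ≠ j → ∃ s, (C.p s = i ∧ C.q s = j) ∨ (C.p s = j ∧ C.q s = i)) :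
    Conn (fun s => (E2v (C.p s) (C.q s) : EW n)) where
  nd := by
    intro u hu
    by_contra hno
    push Not at hno
    apply hu
    apply Subtype.ext
    apply const_zero hodd.out u.1 u.2
    intro i j
    by_cases hij : i = j
    · rw [hij, F2_add_self]
    · obtain ⟨s, hs⟩ := hex i j hij
      have h1 := hno s
      rw [om_E2v] at h1
      rcases hs with ⟨h2, h3⟩ | ⟨h2, h3⟩
      · rw [h2, h3] at h1
        exact h1
      · rw [h2, h3] at h1
        rw [add_comm]
        exact h1
  ne := by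
    intro s h
    have h1 := congrFun (congrArg Subtype.val h) (C.p s)
    have h2 : e2 (C.p s) (C.q s) (C.p s) = 0 := h1
    rw [e2, if_pos rfl, if_neg (C.hpq s).symm] at h2
    exact absurd h2 (by decide)
  conn := by
    intro P hP hcl
    obtain ⟨s0, h0⟩ := hP
    -- sharing exactly one index
    have hshare : ∀ s s', P s → (∃ i j l : Fin n, i ≠ j ∧ j ≠ l ∧ i ≠ l ∧
        ((C.p s = i ∧ C.q s = j) ∨ (C.p s = j ∧ C.q s = i)) ∧
        ((C.p s' = j ∧ C.q s' = l) ∨ (C.p s' = l ∧ C.q s' = j))) → P s' := by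
      rintro s s' hs ⟨i, j, l, hij, hjl, hil, h1, h2⟩
      apply hcl s s' hs
      rw [om_E2v]
      show e2 (C.p s) (C.q s) (C.p s') + e2 (C.p s) (C.q s) (C.q s') ≠ 0
      have hli := hil.symm
      have hji := hij.symm
      have hlj := hjl.symm
      rcases h1 with ⟨a1, a2⟩ | ⟨a1, a2⟩ <;> rcases h2 with ⟨b1, b2⟩ | ⟨b1, b2⟩ <;>
        rw [a1, a2, b1, b2] <;> simp [e2, hij, hjl, hil, hli, hji, hlj]
    have hthird : ∀ i j : Fin n, ∃ l, l ≠ i ∧ l ≠ j := by
      intro i j
      have h1 : ({i, j} : Finset (Fin n)).card < (univ : Finset (Fin n)).card := by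
        rw [card_univ, Fintype.card_fin]
        exact lt_of_le_of_lt card_le_two (by omega)
      obtain ⟨c, -, hc⟩ := exists_mem_notMem_of_card_lt_card h1
      rw [mem_insert, mem_singleton, not_or] at hc
      exact ⟨c, hc⟩
    -- an edge with the same ends
    have hsame : ∀ s s' (i j : Fin n), i ≠ j → P s →
        ((C.p s = i ∧ C.q s = j) ∨ (C.p s = j ∧ C.q s = i)) →
        ((C.p s' = i ∧ C.q s' = j) ∨ (C.p s' = j ∧ C.q s' = i)) → P s' := by
      intro s s' i j hij hs h1 h2
      obtain ⟨l, hli, hlj⟩ := hthird i j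
      obtain ⟨s1, hs1⟩ := hex j l hlj.symm
      have k1 : P s1 := hshare s s1 hs ⟨i, j, l, hij, hlj.symm, hli.symm, h1, hs1⟩
      exact hshare s1 s' k1 ⟨l, j, i, hlj, hij.symm, hli, hs1.symm, h2.symm⟩
    intro s'
    have a := C.hpq s0
    have b := C.hpq s'
    by_cases c1 : C.p s0 = C.p s'
    · by_cases c2 : C.q s0 = C.q s'
      · exact hsame s0 s' (C.p s0) (C.q s0) a h0 (Or.inl ⟨rfl, rfl⟩) (Or.inl ⟨c1.symm, c2.symm⟩)
      · exact hshare s0 s' h0 ⟨C.q s0, C.p s0, C.q s', a.symm, by rw [c1]; exact b, c2,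
          Or.inr ⟨rfl, rfl⟩, Or.inl ⟨c1.symm, rfl⟩⟩
    · by_cases c2 : C.q s0 = C.q s'
      · exact hshare s0 s' h0 ⟨C.p s0, C.q s0, C.p s', a, by rw [c2]; exact b.symm, c1,
          Or.inl ⟨rfl, rfl⟩, Or.inr ⟨rfl, c2.symm⟩⟩
      · by_cases c3 : C.p s0 = C.q s'
        · by_cases c4 : C.q s0 = C.p s'
          · exact hsame s0 s' (C.p s0) (C.q s0) a h0 (Or.inl ⟨rfl, rfl⟩) (Or.inr ⟨c4.symm, c3.symm⟩)
          · exact hshare s0 s' h0 ⟨C.q s0, C.p s0, C.p s', a.symm, by rw [c3]; exact b.symm, c4,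
              Or.inr ⟨rfl, rfl⟩, Or.inr ⟨rfl, c3.symm⟩⟩
        · by_cases c4 : C.q s0 = C.p s'
          · exact hshare s0 s' h0 ⟨C.p s0, C.q s0, C.q s', a, by rw [c4]; exact b, c3,
              Or.inl ⟨rfl, rfl⟩, Or.inl ⟨c4.symm, rfl⟩⟩
          · -- disjoint edges
            obtain ⟨s1, hs1⟩ := hex (C.q s0) (C.p s') c4
            have k1 : P s1 := hshare s0 s1 h0 ⟨C.p s0, C.q s0, C.p s', a, c4, c1,
              Or.inl ⟨rfl, rfl⟩, hs1⟩
            exact hshare s1 s' k1 ⟨C.q s0, C.p s', C.q s', c4, b, c2, hs1, Or.inl ⟨rfl, rfl⟩⟩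
  nonempty := by
    have h0 : (⟨0, by omega⟩ : Fin n) ≠ ⟨1, by omega⟩ := by
      intro h
      have := congrArg Fin.val h
      simp at this
    obtain ⟨s, -⟩ := hex _ _ h0
    exact ⟨s⟩

end Comb

end Pool.Agent.Y164.HG
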