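import Mathlib

/-!
The bilinear form whose kernel is the group of everywhere locally soluble classes: abstract part,
for a general symplectic space over the field with two elements.
-/

set_option autoImplicit false
set_option linter.all false

namespace Pool.Agent.Y164.HG

open Finset

abbrev F2 := ZMod 2

/-- a symplectic space over the field with two elements -/
class Symp (W : Type) [AddCommGroup W] [Module F2 W] where
  om : W → W → F2
  add_left : ∀ x y z, om (x + y) z = om x z + om y z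
  comm : ∀ x y, om x y = om y x
  self : ∀ x, om x x = 0
  nd : ∀ x, (∀ y, om x y = 0) → x = 0

theorem F2_add_self (x : F2) : x + x = 0 := by revert x; decide

theorem F2_sq (x : F2) : x * x = x := by revert x; decide

theorem F2_cases (x : F2) : x = 0 ∨ x = 1 := by revert x; decide

theorem F2_ne_zero {x : F2} (h : x ≠ 0) : x = 1 := (F2_cases x).resolve_left h

section sp
variable {W : Type} [AddCommGroup W] [Module F2 W]

theorem W_add_self (x : W) : x + x = 0 := by
  have h : (1 : F2) + 1 = 0 := by decide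
  calc x + x = (1 : F2) • x + (1 : F2) • x := by rw [one_smul]
    _ = ((1 : F2) + 1) • x := (add_smul _ _ _).symm
    _ = 0 := by rw [h, zero_smul]

variable [Symp W]

/-- the symplectic form -/
def om (x y : W) : F2 := Symp.om x y

theorem om_add_left (x y z : W) : om (x + y) z = om x z + om y z := Symp.add_left x y z

theorem om_comm (x y : W) : om x y = om y x := Symp.comm x y

theorem om_add_right (x y z : W) : om x (y + z) = om x y + om x z := by
  rw [om_comm, om_add_left, om_comm y, om_comm z]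

theorem om_self (x : W) : om x x = 0 := Symp.self x

theorem eq_zero_of_om (x : W) (h : ∀ y, om x y = 0) : x = 0 := Symp.nd x h

theorem om_zero_left (x : W) : om 0 x = 0 := by
  have h := om_add_left (0 : W) 0 x
  rw [add_zero, F2_add_self] at h
  exact h

theorem om_zero_right (x : W) : om x 0 = 0 := by rw [om_comm, om_zero_left]

theorem om_smul_left (c : F2) (x y : W) : om (c • x) y = c * om x y := by
  rcases F2_cases c with rfl | rfl
  · rw [zero_smul, om_zero_left, zero_mul]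
  · rw [one_smul, one_mul]

theorem om_smul_right (c : F2) (x y : W) : om x (c • y) = c * om x y := by
  rw [om_comm, om_smul_left, om_comm]

/-- `om · y` as a homomorphism -/
def omL (y : W) : W →+ F2 := ⟨⟨fun x => om x y, om_zero_left y⟩, fun a b => om_add_left a b y⟩

theorem om_sum_left {α : Type*} (s : Finset α) (f : α → W) (y : W) :
    om (∑ a ∈ s, f a) y = ∑ a ∈ s, om (f a) y := map_sum (omL y) f s

theorem om_sum_right {α : Type*} (s : Finset α) (f : α → W) (y : W) :
    om y (∑ a ∈ s, f a) = ∑ a ∈ s, om y (f a) := by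
  rw [om_comm, om_sum_left]
  exact sum_congr rfl fun _ _ => om_comm _ _

end sp

variable {W : Type} [AddCommGroup W] [Module F2 W] [Symp W]

variable (W) in
/-- The data attached to the bad primes of the curve. -/
structure Dat (τ : Type) [Fintype τ] where
  t : τ → W
  G : τ → τ → F2
  e : τ → F2
  ks : W → W
  ks_add : ∀ x y, ks (x + y) = ks x + ks y
  ks_comm : ∀ x y, om (ks x) y = om (ks y) x
  uu : W
  ks_self : ∀ x, om (ks x) x = om x uu
  N : F2
  g : τ → F2
  sp : τ → F2
  symm : ∀ s s', G s s' = G s' s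
  h1 : ∀ s y, ∑ s', G s s' * (om y (t s') * om (t s') (t s)) + e s * om (ks y) (t s) =
    g s * om y (t s)
  h4 : ∀ y, ∑ s, (e s * om y (t s)) • t s = N • y
  h3 : ∑ s, e s • t s = 0

variable {ι τ : Type} [Fintype ι] [Fintype τ]

/-- the space of exponents -/
abbrev V (W ι τ : Type) := (ι → W) × (τ → F2)

/-- the form -/
def FF (D : Dat W τ) (A : ι → ι → F2) (B : ι → τ → F2) (d : ι → F2) (w w' : V W ι τ) : F2 :=
  ∑ i, ∑ j, A i j * (om (w.1 j) (w'.1 i) + om (w.1 i) (w'.1 i)) +
  ∑ i, ∑ s, B i s * (om (w.1 i) (D.t s) * om (w'.1 i) (D.t s) + w.2 s * om (D.t s) (w'.1 i) +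
    w'.2 s * om (w.1 i) (D.t s)) +
  ∑ s, ∑ s', D.G s s' * (w.2 s' * w'.2 s * om (D.t s') (D.t s)) +
  ∑ s, D.sp s * (w.2 s * w'.2 s) + ∑ i, d i * om (D.ks (w.1 i)) (w'.1 i)

/-- the degree of the divisor -/
def dg (D : Dat W τ) (d : ι → F2) (w : V W ι τ) : W :=
  ∑ i, d i • w.1 i + ∑ s, (D.e s * w.2 s) • D.t s

variable (D : Dat W τ) (A : ι → ι → F2) (B : ι → τ → F2) (d : ι → F2)

theorem dg_add (w w' : V W ι τ) : dg D d (w + w') = dg D d w + dg D d w' := by
  simp only [dg, Prod.fst_add, Prod.snd_add, Pi.add_apply, smul_add, mul_add, add_smul,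
    sum_add_distrib]
  abel

theorem FF_add_left (w₁ w₂ w' : V W ι τ) :
    FF D A B d (w₁ + w₂) w' = FF D A B d w₁ w' + FF D A B d w₂ w' := by
  have e1 : ∀ i j, A i j * (om ((w₁ + w₂).1 j) (w'.1 i) + om ((w₁ + w₂).1 i) (w'.1 i)) =
      A i j * (om (w₁.1 j) (w'.1 i) + om (w₁.1 i) (w'.1 i)) +
      A i j * (om (w₂.1 j) (w'.1 i) + om (w₂.1 i) (w'.1 i)) := by
    intro i j
    simp only [Prod.fst_add, Pi.add_apply, om_add_left]; ring
  have e2 : ∀ i s, B i s * (om ((w₁ + w₂).1 i) (D.t s) * om (w'.1 i) (D.t s) +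
      (w₁ + w₂).2 s * om (D.t s) (w'.1 i) + w'.2 s * om ((w₁ + w₂).1 i) (D.t s)) =
      B i s * (om (w₁.1 i) (D.t s) * om (w'.1 i) (D.t s) +
      w₁.2 s * om (D.t s) (w'.1 i) + w'.2 s * om (w₁.1 i) (D.t s)) +
      B i s * (om (w₂.1 i) (D.t s) * om (w'.1 i) (D.t s) +
      w₂.2 s * om (D.t s) (w'.1 i) + w'.2 s * om (w₂.1 i) (D.t s)) := by
    intro i s
    simp only [Prod.fst_add, Prod.snd_add, Pi.add_apply, om_add_left]; ring
  have e3 : ∀ s s', D.G s s' * ((w₁ + w₂).2 s' * w'.2 s * om (D.t s') (D.t s)) =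
      D.G s s' * (w₁.2 s' * w'.2 s * om (D.t s') (D.t s)) +
      D.G s s' * (w₂.2 s' * w'.2 s * om (D.t s') (D.t s)) := by
    intro s s'
    simp only [Prod.snd_add, Pi.add_apply]; ring
  have e4 : ∀ s, D.sp s * ((w₁ + w₂).2 s * w'.2 s) =
      D.sp s * (w₁.2 s * w'.2 s) + D.sp s * (w₂.2 s * w'.2 s) := by
    intro s
    simp only [Prod.snd_add, Pi.add_apply]; ring
  have e5 : ∀ i, d i * om (D.ks ((w₁ + w₂).1 i)) (w'.1 i) =
      d i * om (D.ks (w₁.1 i)) (w'.1 i) + d i * om (D.ks (w₂.1 i)) (w'.1 i) := by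
    intro i
    simp only [Prod.fst_add, Pi.add_apply, D.ks_add, om_add_left]; ring
  simp only [FF, e1, e2, e3, e4, e5, sum_add_distrib]
  ring

variable {A}

theorem FF_comm (hA : ∀ i j, A i j = A j i) (w w' : V W ι τ) :
    FF D A B d w w' = FF D A B d w' w := by
  have e1 : ∑ i, ∑ j, A i j * (om (w.1 j) (w'.1 i) + om (w.1 i) (w'.1 i)) =
      ∑ i, ∑ j, A i j * (om (w'.1 j) (w.1 i) + om (w'.1 i) (w.1 i)) := by
    simp only [mul_add, sum_add_distrib]
    congr 1
    · rw [sum_comm]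
      refine sum_congr rfl fun i _ => sum_congr rfl fun j _ => ?_
      rw [hA, om_comm]
    · refine sum_congr rfl fun i _ => sum_congr rfl fun j _ => ?_
      rw [om_comm]
  have e2 : ∑ i, ∑ s, B i s * (om (w.1 i) (D.t s) * om (w'.1 i) (D.t s) +
      w.2 s * om (D.t s) (w'.1 i) + w'.2 s * om (w.1 i) (D.t s)) =
      ∑ i, ∑ s, B i s * (om (w'.1 i) (D.t s) * om (w.1 i) (D.t s) +
      w'.2 s * om (D.t s) (w.1 i) + w.2 s * om (w'.1 i) (D.t s)) := by
    refine sum_congr rfl fun i _ => sum_congr rfl fun s _ => ?_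
    rw [om_comm (D.t s) (w'.1 i), om_comm (D.t s) (w.1 i)]; ring
  have e3 : ∑ s, ∑ s', D.G s s' * (w.2 s' * w'.2 s * om (D.t s') (D.t s)) =
      ∑ s, ∑ s', D.G s s' * (w'.2 s' * w.2 s * om (D.t s') (D.t s)) := by
    rw [sum_comm]
    refine sum_congr rfl fun s _ => sum_congr rfl fun s' _ => ?_
    rw [D.symm, om_comm]; ring
  have e4 : ∑ s, D.sp s * (w.2 s * w'.2 s) = ∑ s, D.sp s * (w'.2 s * w.2 s) :=
    sum_congr rfl fun s _ => by rw [mul_comm (w.2 s)]
  have e5 : ∑ i, d i * om (D.ks (w.1 i)) (w'.1 i) = ∑ i, d i * om (D.ks (w'.1 i)) (w.1 i) :=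
    sum_congr rfl fun i _ => by rw [D.ks_comm]
  rw [FF, FF, e1, e2, e3, e4, e5]

theorem FF_add_right (hA : ∀ i j, A i j = A j i) (w w₁ w₂ : V W ι τ) :
    FF D A B d w (w₁ + w₂) = FF D A B d w w₁ + FF D A B d w w₂ := by
  rw [FF_comm D B d hA, FF_add_left, FF_comm D B d hA w₁, FF_comm D B d hA w₂]

theorem FF_zero_left (w : V W ι τ) : FF D A B d 0 w = 0 := by
  have h := FF_add_left D A B d 0 0 w
  rw [add_zero, F2_add_self] at h
  exact h

/-- the vector `(0, 1)` -/
def ws : V W ι τ := (0, fun _ => 1)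

theorem dg_ws : dg D d ws = 0 := by
  have := D.h3
  simp only [dg, ws, Pi.zero_apply, smul_zero, sum_const_zero, zero_add, mul_one]
  exact this

theorem FF_diag (hA : ∀ i j, A i j = A j i) (w : V W ι τ) (hw : dg D d w = 0) :
    FF D A B d w w = FF D A B d w ws := by
  have hswap : ∀ f : ι → ι → F2, (∀ i j, f i j = f j i) → (∀ i, f i i = 0) →
      ∑ i, ∑ j, f i j = 0 := by
    classical
    intro f hf h0
    rw [← sum_product']
    refine sum_involution (fun p _ => (p.2, p.1)) ?_ ?_ ?_ ?_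
    · rintro ⟨i, j⟩ _
      show f i j + f j i = 0
      rw [hf i j, F2_add_self]
    · rintro ⟨i, j⟩ _ hne h
      simp only [Prod.mk.injEq] at h
      apply hne
      show f i j = 0
      rw [h.1]
      exact h0 _
    · intro _ _
      exact mem_univ _
    · rintro ⟨i, j⟩ _
      rfl
  have hswap' : ∀ f : τ → τ → F2, (∀ i j, f i j = f j i) → (∀ i, f i i = 0) →
      ∑ i, ∑ j, f i j = 0 := by
    classical
    intro f hf h0
    rw [← sum_product']
    refine sum_involution (fun p _ => (p.2, p.1)) ?_ ?_ ?_ ?_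
    · rintro ⟨i, j⟩ _
      show f i j + f j i = 0
      rw [hf i j, F2_add_self]
    · rintro ⟨i, j⟩ _ hne h
      simp only [Prod.mk.injEq] at h
      apply hne
      show f i j = 0
      rw [h.1]
      exact h0 _
    · intro _ _
      exact mem_univ _
    · rintro ⟨i, j⟩ _
      rfl
  have e1 : ∑ i, ∑ j, A i j * (om (w.1 j) (w.1 i) + om (w.1 i) (w.1 i)) = 0 := by
    apply hswap
    · intro i j
      rw [hA, om_self, om_self, om_comm]
    · intro i
      rw [om_self, add_zero, mul_zero]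
  have e3 : ∑ s, ∑ s', D.G s s' * (w.2 s' * w.2 s * om (D.t s') (D.t s)) = 0 := by
    apply hswap'
    · intro s s'
      rw [D.symm, om_comm, mul_comm (w.2 s')]
    · intro s
      rw [om_self, mul_zero, mul_zero]
  have e2 : ∑ i, ∑ s, B i s * (om (w.1 i) (D.t s) * om (w.1 i) (D.t s) +
      w.2 s * om (D.t s) (w.1 i) + w.2 s * om (w.1 i) (D.t s)) =
      ∑ i, ∑ s, B i s * om (w.1 i) (D.t s) := by
    refine sum_congr rfl fun i _ => sum_congr rfl fun s _ => ?_
    rw [om_comm (D.t s) (w.1 i), add_assoc, F2_add_self, add_zero, F2_sq]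
  have e4 : ∑ s, D.sp s * (w.2 s * w.2 s) = ∑ s, D.sp s * w.2 s :=
    sum_congr rfl fun s _ => by rw [F2_sq]
  have e5 : ∑ i, d i * om (D.ks (w.1 i)) (w.1 i) =
      ∑ s, ∑ s', D.G s s' * (w.2 s' * om (D.t s') (D.t s)) := by
    have h1 : ∑ i, d i * om (D.ks (w.1 i)) (w.1 i) = om (∑ i, d i • w.1 i) D.uu := by
      rw [om_sum_left]
      refine sum_congr rfl fun i _ => ?_
      rw [D.ks_self, om_smul_left]
    have h2 : ∑ i, d i • w.1 i = ∑ s, (D.e s * w.2 s) • D.t s := by
      have h3 : ∑ i, d i • w.1 i + ∑ s, (D.e s * w.2 s) • D.t s = 0 := hw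
      have h4 := W_add_self (∑ s, (D.e s * w.2 s) • D.t s)
      calc ∑ i, d i • w.1 i = ∑ i, d i • w.1 i + (∑ s, (D.e s * w.2 s) • D.t s +
            ∑ s, (D.e s * w.2 s) • D.t s) := by rw [h4, add_zero]
        _ = _ := by rw [← add_assoc, h3, zero_add]
    rw [h1, h2, om_sum_left, sum_comm]
    refine sum_congr rfl fun s _ => ?_
    have h5 := D.h1 s (D.t s)
    rw [om_self, mul_zero] at h5
    rw [om_smul_left]
    have h6 : ∑ s', D.G s' s * (w.2 s * om (D.t s) (D.t s')) =
        w.2 s * ∑ s', D.G s s' * (om (D.t s) (D.t s') * om (D.t s') (D.t s)) := by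
      rw [mul_sum]
      refine sum_congr rfl fun s' _ => ?_
      rw [om_comm (D.t s') (D.t s), F2_sq, D.symm]; ring
    rw [h6]
    have h7 : ∑ s', D.G s s' * (om (D.t s) (D.t s') * om (D.t s') (D.t s)) =
        D.e s * om (D.t s) D.uu := by
      rw [D.ks_self] at h5
      have h8 := F2_add_self (D.e s * om (D.t s) D.uu)
      calc ∑ s', D.G s s' * (om (D.t s) (D.t s') * om (D.t s') (D.t s)) =
          ∑ s', D.G s s' * (om (D.t s) (D.t s') * om (D.t s') (D.t s)) +
          (D.e s * om (D.t s) D.uu + D.e s * om (D.t s) D.uu) := by rw [h8, add_zero]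
        _ = _ := by rw [← add_assoc, h5, zero_add]
    rw [h7]; ring
  have r1 : FF D A B d w w = ∑ i, ∑ s, B i s * om (w.1 i) (D.t s) + ∑ s, D.sp s * w.2 s +
      ∑ s, ∑ s', D.G s s' * (w.2 s' * om (D.t s') (D.t s)) := by
    rw [FF, e1, e2, e3, e4, e5]; ring
  have r2 : FF D A B d w ws = ∑ i, ∑ s, B i s * om (w.1 i) (D.t s) + ∑ s, D.sp s * w.2 s +
      ∑ s, ∑ s', D.G s s' * (w.2 s' * om (D.t s') (D.t s)) := by
    simp only [FF, ws, Pi.zero_apply, om_zero_right, om_zero_left, mul_zero, add_zero, zero_add,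
      mul_one, sum_const_zero, one_mul]
    ring
  rw [r1, r2]

/-- the equations at the primes of the twist -/
def E1 (w : V W ι τ) (x0 : W) (i : ι) : W :=
  ∑ j, A i j • (w.1 j + w.1 i) + ∑ s, B i s • (om (w.1 i) (D.t s) • D.t s + w.2 s • D.t s) +
    d i • (D.ks (w.1 i) + x0)

/-- the equations at the bad primes -/
def E2 (w : V W ι τ) (x0 : W) (s : τ) : F2 :=
  D.sp s * w.2 s + ∑ i, B i s * om (w.1 i) (D.t s) + ∑ s', D.G s s' * (w.2 s' * om (D.t s') (D.t s)) +
    D.e s * om x0 (D.t s)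

theorem FF_eq (w : V W ι τ) (x0 : W) (h1 : ∀ i, E1 (A := A) D B d w x0 i = 0)
    (h2 : ∀ s, E2 (ι := ι) D B w x0 s = 0) (w' : V W ι τ) : FF D A B d w w' = om x0 (dg D d w') := by
  have key : FF D A B d w w' + om x0 (dg D d w') =
      ∑ i, om (E1 (A := A) D B d w x0 i) (w'.1 i) + ∑ s, E2 (ι := ι) D B w x0 s * w'.2 s := by
    have a1 : ∀ i, om (E1 (A := A) D B d w x0 i) (w'.1 i) =
        ∑ j, A i j * (om (w.1 j) (w'.1 i) + om (w.1 i) (w'.1 i)) +
        ∑ s, B i s * (om (w.1 i) (D.t s) * om (D.t s) (w'.1 i) + w.2 s * om (D.t s) (w'.1 i)) +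
        (d i * om (D.ks (w.1 i)) (w'.1 i) + d i * om x0 (w'.1 i)) := by
      intro i
      simp only [E1, om_add_left, om_sum_left, om_smul_left]
      rw [mul_add (d i)]
    have a2 : ∀ s, E2 (ι := ι) D B w x0 s * w'.2 s = D.sp s * (w.2 s * w'.2 s) +
        ∑ i, B i s * (w'.2 s * om (w.1 i) (D.t s)) +
        ∑ s', D.G s s' * (w.2 s' * w'.2 s * om (D.t s') (D.t s)) +
        D.e s * w'.2 s * om x0 (D.t s) := by
      intro s
      simp only [E2, add_mul, sum_mul]
      congr 1
      · congr 1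
        · congr 1
          · ring
          · refine sum_congr rfl fun i _ => ?_
            ring
        · refine sum_congr rfl fun i _ => ?_
          ring
      · ring
    have a3 : om x0 (dg D d w') = ∑ i, d i * om x0 (w'.1 i) + ∑ s, D.e s * w'.2 s * om x0 (D.t s) := by
      simp only [dg, om_add_right, om_sum_right, om_smul_right]
    have a4 : ∑ i, ∑ s, B i s * (om (w.1 i) (D.t s) * om (w'.1 i) (D.t s) +
        w.2 s * om (D.t s) (w'.1 i) + w'.2 s * om (w.1 i) (D.t s)) =
        ∑ i, ∑ s, B i s * (om (w.1 i) (D.t s) * om (D.t s) (w'.1 i) + w.2 s * om (D.t s) (w'.1 i)) +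
        ∑ s, ∑ i, B i s * (w'.2 s * om (w.1 i) (D.t s)) := by
      rw [sum_comm (s := (univ : Finset τ)) (t := (univ : Finset ι)), ← sum_add_distrib]
      refine sum_congr rfl fun i _ => ?_
      rw [← sum_add_distrib]
      refine sum_congr rfl fun s _ => ?_
      rw [om_comm (w'.1 i) (D.t s)]; ring
    rw [a3]
    simp only [a1, a2, sum_add_distrib]
    rw [FF, a4]
    ring
  simp only [h1, h2, om_zero_left, zero_mul, sum_const_zero, add_zero] at key
  have h8 := F2_add_self (om x0 (dg D d w'))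
  calc FF D A B d w w' = FF D A B d w w' + (om x0 (dg D d w') + om x0 (dg D d w')) := by
        rw [h8, add_zero]
    _ = _ := by rw [← add_assoc, key, zero_add]

/-- the torsion vectors -/
def TT (y : W) : V W ι τ := (fun _ => y, fun s => om y (D.t s))

theorem dg_TT (y : W) : dg D d (TT D y) = (∑ i, d i + D.N) • y := by
  simp only [dg, TT]
  rw [D.h4 y, ← sum_smul, add_smul]

variable {B} in
theorem E1_add (w w' : V W ι τ) (x0 x0' : W) (i : ι) :
    E1 (A := A) D B d (w + w') (x0 + x0') i = E1 (A := A) D B d w x0 i + E1 (A := A) D B d w' x0' i := by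
  simp only [E1, Prod.fst_add, Prod.snd_add, Pi.add_apply, smul_add, D.ks_add, sum_add_distrib,
    om_add_left, add_smul]
  abel

variable {B} in
theorem E2_add (w w' : V W ι τ) (x0 x0' : W) (s : τ) :
    E2 (ι := ι) D B (w + w') (x0 + x0') s = E2 (ι := ι) D B w x0 s + E2 (ι := ι) D B w' x0' s := by
  simp only [E2, Prod.fst_add, Prod.snd_add, Pi.add_apply, sum_add_distrib,
    om_add_left, add_mul, mul_add]
  ring

theorem E1_TT (y : W) (i : ι) : E1 (A := A) D B d (TT D y) (D.ks y) i = 0 := by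
  simp only [E1, TT, W_add_self, smul_zero, sum_const_zero, add_zero]

theorem E2_TT (hcl : ∀ s, D.sp s + ∑ i, B i s + D.g s = 0) (y : W) (s : τ) :
    E2 (ι := ι) D B (TT D y) (D.ks y) s = 0 := by
  simp only [E2, TT]
  have h1 := D.h1 s y
  have h2 := hcl s
  rw [add_assoc _ _ (D.e s * om (D.ks y) (D.t s)), h1, ← sum_mul]
  calc D.sp s * om y (D.t s) + (∑ i, B i s) * om y (D.t s) + D.g s * om y (D.t s) =
      (D.sp s + ∑ i, B i s + D.g s) * om y (D.t s) := by ring
    _ = 0 := by rw [h2, zero_mul]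

variable (A) in
/-- the kernel is trivial -/
def Triv : Prop := ∀ w : V W ι τ, dg D d w = 0 → (∀ w' : V W ι τ, dg D d w' = 0 → FF D A B d w w' = 0) →
  w = 0

theorem key_of_triv (hcl : ∀ s, D.sp s + ∑ i, B i s + D.g s = 0) (hN : ∑ i, d i + D.N = 1)
    (hT : Triv D A B d) (w : V W ι τ) (x0 : W) (h1 : ∀ i, E1 (A := A) D B d w x0 i = 0)
    (h2 : ∀ s, E2 (ι := ι) D B w x0 s = 0) : ∃ y, w = TT D y ∧ x0 = D.ks y := by
  set y := dg D d w with hy
  have hdT : ∀ y : W, dg D d (TT D y) = y := fun y => by rw [dg_TT, hN, one_smul]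
  refine ⟨y, ?_⟩
  have k1 : ∀ i, E1 (A := A) D B d (w + TT D y) (x0 + D.ks y) i = 0 := fun i => by
    rw [E1_add, h1, E1_TT, add_zero]
  have k2 : ∀ s, E2 (ι := ι) D B (w + TT D y) (x0 + D.ks y) s = 0 := fun s => by
    rw [E2_add, h2, E2_TT D B hcl, add_zero]
  have k3 := FF_eq D B d _ _ k1 k2
  have k4 : w + TT D y = 0 := by
    apply hT
    · rw [dg_add, hdT, ← hy, W_add_self]
    · intro w' hw'
      rw [k3, hw', om_zero_right]
  have k5 : w = TT D y := by
    have h8 : (TT D y : V W ι τ) + TT D y = 0 := by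
      apply Prod.ext
      · funext i
        exact W_add_self _
      · funext s
        exact F2_add_self _
    calc w = w + (TT D y + TT D y) := by rw [h8, add_zero]
      _ = TT D y := by rw [← add_assoc, k4, zero_add]
  refine ⟨k5, ?_⟩
  have k6 : x0 + D.ks y = 0 := by
    apply eq_zero_of_om
    intro z
    have := k3 (TT D z)
    rw [k4, FF_zero_left, hdT] at this
    exact this.symm
  calc x0 = x0 + (D.ks y + D.ks y) := by rw [W_add_self, add_zero]
    _ = _ := by rw [← add_assoc, k6, zero_add]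

end Pool.Agent.Y164.HG
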