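import Pool.Agent.Y164.HG.Fin
import Pool.Agent.Y164.PS.Lvl
import Pool.Agent.Y164.PS.El0

/-!
Squarefree polynomials with a given number of prime factors.
-/

set_option autoImplicit false
set_option linter.all false

namespace Pool.Agent.Y164.HG

open Finset Polynomial Pool.Agent.H341R2.Sharp
open Pool.Agent.Y164.PS (L L_comm L_prod_left sg_L sg sg_add sg_zero sg_one abs_sg prod_not_sq sum_update abs_lam_le lam_irr coprime_of_not_dvd Fam
  Tp mem_Tp cell lgs cell_deg cell_eq lgs_eq self_cell cell_Tp cells_nonneg tup_prod fibre tuple_sum small_eq Pr mem_Pr card_Pr_ge char_sum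
  Sf mem_Sf pf mem_pf numcore m_le)
open scoped Classical

variable {k : Type} [Field k] [Fintype k] [DecidableEq k]
variable {W : Type} [AddCommGroup W] [Module F2 W] [Symp W] [Fintype W]
variable {ι τ : Type} [Fintype ι] [Fintype τ]
variable {Q : τ → k[X]} {D : Dat W τ}

/-- the hypotheses on the bad primes -/
structure Hyp (Q : τ → k[X]) : Prop where
  hk : ringChar k ≠ 2
  hm : IsSquare (-1 : k)
  fam : Fam Q

variable (H : Hyp Q)

/-- no bad prime divides -/
def nb (Q : τ → k[X]) (E : k[X]) : Prop := ∀ s : τ, ¬ Q s ∣ E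

/-- the class condition -/
def gcl (D : Dat W τ) (Q : τ → k[X]) (E : k[X]) : Prop := ∀ s : τ, D.sp s + L E (Q s) + D.g s = 0

include H in
theorem ok_iff {n : ℕ} {T : ι → k[X]} (hT : T ∈ Tp k ι n) :
    ok Q T ↔ Function.Injective T ∧ nb Q (∏ i, T i) := by
  have h1 := (mem_Tp.1 hT).1
  constructor
  · intro h
    refine ⟨fun i j hij => Sum.inl_injective (h (a₁ := Sum.inl i) (a₂ := Sum.inl j) hij), ?_⟩
    intro s hs
    obtain ⟨i, -, hd⟩ := (((H.fam).irr s).prime.dvd_finset_prod_iff _).1 hs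
    have h2 : T i = Q s := (eq_of_monic_of_associated (H.fam.mon s) (h1 i).1
      ((H.fam.irr s).associated_of_dvd (h1 i).2 hd)).symm
    have h3 : (Sum.inl i : ι ⊕ τ) = Sum.inr s := h h2
    cases h3
  · rintro ⟨h2, h3⟩
    rintro (i | s) (j | s') h
    · exact congrArg _ (h2 h)
    · exfalso
      apply h3 s'
      have h' : T i = Q s' := h
      rw [← h']
      exact dvd_prod_of_mem _ (mem_univ i)
    · exfalso
      apply h3 s
      have h' : Q s = T j := h
      rw [h']
      exact dvd_prod_of_mem _ (mem_univ j)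
    · exact congrArg _ (H.fam.inj h)

include H in
theorem cl_iff {n : ℕ} {T : ι → k[X]} (hT : T ∈ Tp k ι n) (hn : nb Q (∏ i, T i)) :
    cl D Q T ↔ gcl D Q (∏ i, T i) := by
  have h1 := (mem_Tp.1 hT).1
  apply forall_congr'
  intro s
  have h2 : L (∏ i, T i) (Q s) = ∑ i, BT Q T i s := by
    apply L_prod_left (H.fam.irr s).ne_zero (fun i _ => (h1 i).1.ne_zero)
    intro i _
    apply coprime_of_not_dvd (H.fam.irr s)
    intro hd
    exact hn s (hd.trans (dvd_prod_of_mem _ (mem_univ i)))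
  rw [h2]

/-- total degree of the bad primes -/
noncomputable def dQ (Q : τ → k[X]) : ℕ := ∑ s : τ, (Q s).natDegree

/-- the error -/
noncomputable def et (Q : τ → k[X]) (n z : ℕ) : ℝ :=
  2 * (5 * (n + dQ Q : ℕ) + 2 + n * (n + Fintype.card (τ))) / 2 ^ z

theorem et_nonneg (n z : ℕ) : 0 ≤ et Q n z := by
  have h1 : (0 : ℝ) ≤ (n + dQ Q : ℕ) := Nat.cast_nonneg _
  have h2 : (0 : ℝ) ≤ n := Nat.cast_nonneg _
  have h3 : (0 : ℝ) ≤ Fintype.card (τ) := Nat.cast_nonneg _
  have h4 : 0 ≤ (n : ℝ) * (n + Fintype.card (τ)) := mul_nonneg h2 (by linarith)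
  unfold et
  exact div_nonneg (by linarith) (by positivity)

include H in
theorem cell_inst (hq : 4 ≤ Fintype.card k) {n z : ℕ} (hz : 2 ≤ z) {T0 : ι → k[X]}
    (hT0 : T0 ∈ Tp k ι n) (hne : (lgs z T0).Nonempty) :
    Cell D Q (cell z T0) (lgs z T0) (n + dQ Q) (et Q n z) := by
  have hT := mem_Tp.1 hT0
  have hmn := m_le hT0
  have key : ∀ j ∈ lgs z T0, cell z T0 j = Pr k (T0 j).natDegree ∧ z ≤ (T0 j).natDegree ∧
      (T0 j).natDegree ≤ n := by
    intro j hj
    rw [lgs, mem_filter] at hj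
    refine ⟨?_, hj.2, ?_⟩
    · rw [cell, if_neg (by omega)]
    · rw [← hT.2]
      exact single_le_sum (f := fun i => (T0 i).natDegree) (fun _ _ => Nat.zero_le _) (mem_univ j)
  have est : ∀ j ∈ lgs z T0, ∀ S : ℝ, 0 ≤ S →
      ((T0 j).natDegree : ℝ) * S ≤ (5 * (n + dQ Q : ℕ) + 2) *
        (Real.sqrt (Fintype.card k)) ^ (T0 j).natDegree →
      S + (Fintype.card (ι) + Fintype.card (τ)) ≤ et Q n z * (cell z T0 j).card := by
    intro j hj S hS0 hS
    obtain ⟨h1, h2, h3⟩ := key j hj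
    rw [h1]
    set m : ℕ := Fintype.card ι with hm
    set d := (T0 j).natDegree with hd
    have hd1 : 1 ≤ d := by omega
    set r : ℝ := Real.sqrt (Fintype.card k) with hr
    have hr2 : 2 ≤ r := by
      rw [hr]
      apply Real.le_sqrt_of_sq_le
      norm_num
      exact_mod_cast hq
    have hrr : (Fintype.card k : ℝ) = r ^ 2 := by
      rw [hr, Real.sq_sqrt (Nat.cast_nonneg _)]
    have h4 := card_Pr_ge (k := k) H.hk d hd1
    rw [← hr, hrr, ← pow_mul, mul_comm 2 d, pow_mul] at h4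
    have hdn : (d : ℝ) ≤ n := by exact_mod_cast h3
    have hmn' : (m : ℝ) ≤ n := by exact_mod_cast hmn
    exact numcore hr2 h2 hz hdn hmn' (Nat.cast_nonneg _) (Nat.cast_nonneg _) (Nat.cast_nonneg _)
      hS0 hS h4
  refine ⟨H.hm, H.fam.mon, H.fam.irr, ?_, ?_, ?_, ?_, ?_, et_nonneg _ _, hne⟩
  · intro i p hp
    rw [cell] at hp
    split_ifs at hp with h
    · rw [mem_singleton.1 hp]; exact (hT.1 i).1
    · exact (mem_Pr.1 hp).1
  · intro i p hp
    rw [cell] at hp
    split_ifs at hp with h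
    · rw [mem_singleton.1 hp]; exact (hT.1 i).2
    · exact (mem_Pr.1 hp).2.1
  · intro T hT'
    simp only [cell_deg hT']
    rw [hT.2]
    exact le_rfl
  · intro j hj M hM hM1 hM2 hM3
    apply est j hj _ (abs_nonneg _)
    obtain ⟨h1, h2, h3⟩ := key j hj
    rw [h1]
    refine (char_sum H.hk hM hM1 hM3 _ (by omega)).trans ?_
    apply mul_le_mul_of_nonneg_right _ (pow_nonneg (Real.sqrt_nonneg _) _)
    have : (M.natDegree : ℝ) ≤ (n + dQ Q : ℕ) := by exact_mod_cast hM2
    linarith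
  · intro j hj
    have := est j hj 0 le_rfl (by
      rw [mul_zero]
      have h1 : (0 : ℝ) ≤ (n + dQ Q : ℕ) := Nat.cast_nonneg _
      exact mul_nonneg (by linarith) (pow_nonneg (Real.sqrt_nonneg _) _))
    rw [zero_add] at this
    exact this

end Pool.Agent.Y164.HG
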