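import Pool.Agent.Y164.HG.Ew
import Pool.Agent.Y164.HG.Lvl
import Pool.Agent.Y164.HG.El1

/-!
The data attached to polynomials `a i` with squarefree product of differences.
-/

set_option autoImplicit false
set_option linter.all false

open Polynomial IsDedekindDomain
open scoped Classical

namespace Pool.Agent.Y164.HG

open Pool.Agent.H341R2.Sharp Finset
open Pool.Agent.Y164.PS (L ch el el' Fam el_eq L_el' Lm L_comm L_congr L_neg_left ch_mul ch_eq_zero_iff
  coprime_of_not_dvd L_eq_zero_iff el'_not_dvd)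

variable {k : Type} [Field k] [Fintype k] [DecidableEq k]
variable {n : ℕ}

/-- the product of the differences -/
noncomputable def Del (a : Fin n → k[X]) : k[X] :=
  ∏ x ∈ (univ : Finset (Fin n × Fin n)).filter (fun x => x.1 < x.2), (a x.1 - a x.2)

/-- the hypotheses -/
structure Geo (a : Fin n → k[X]) (N : ℕ) : Prop where
  hk : ringChar k ≠ 2
  hm : IsSquare (-1 : k)
  hn : Odd n
  hn3 : 3 ≤ n
  hN : 1 ≤ N
  hdeg : ∀ i j, i ≠ j → (a i - a j).natDegree = N
  hsq : Squarefree (Del a)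

variable {a : Fin n → k[X]} {N : ℕ} (H : Geo a N)

include H

theorem Geo.ne {i j : Fin n} (h : i ≠ j) : a i - a j ≠ 0 := by
  intro h0
  have := H.hdeg i j h
  rw [h0, natDegree_zero] at this
  have := H.hN
  omega

theorem Geo.del_ne : Del a ≠ 0 :=
  prod_ne_zero_iff.2 fun x hx => H.ne (ne_of_lt (mem_filter.1 hx).2)

theorem Geo.dvd_del {i j : Fin n} (h : i ≠ j) : a i - a j ∣ Del a := by
  rcases lt_or_gt_of_ne h with h | h
  · exact dvd_prod_of_mem (fun x : Fin n × Fin n => a x.1 - a x.2) (a := (i, j))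
      (mem_filter.2 ⟨mem_univ _, h⟩)
  · have h1 : a j - a i ∣ Del a := dvd_prod_of_mem (fun x : Fin n × Fin n => a x.1 - a x.2)
      (a := (j, i)) (mem_filter.2 ⟨mem_univ _, h⟩)
    rw [← neg_sub, neg_dvd]
    exact h1

theorem Geo.sqf {i j : Fin n} (h : i ≠ j) : Squarefree (a i - a j) :=
  H.hsq.squarefree_of_dvd (H.dvd_del h)

/-- a prime divides at most one difference -/
theorem Geo.uniq {Q : k[X]} (hQ : Irreducible Q) {i j i' j' : Fin n} (h : i < j) (h' : i' < j')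
    (hd : Q ∣ a i - a j) (hd' : Q ∣ a i' - a j') : i = i' ∧ j = j' := by
  by_contra hne
  have hne' : ((i, j) : Fin n × Fin n) ≠ (i', j') := by
    intro h0
    exact hne ⟨congrArg Prod.fst h0, congrArg Prod.snd h0⟩
  have hm : (i, j) ∈ (univ : Finset (Fin n × Fin n)).filter (fun x => x.1 < x.2) :=
    mem_filter.2 ⟨mem_univ _, h⟩
  have hm' : (i', j') ∈ ((univ : Finset (Fin n × Fin n)).filter (fun x => x.1 < x.2)).erase (i, j) :=
    mem_erase.2 ⟨hne'.symm, mem_filter.2 ⟨mem_univ _, h'⟩⟩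
  obtain ⟨f, hf⟩ : ∃ f : Fin n × Fin n → k[X], f = fun x => a x.1 - a x.2 := ⟨_, rfl⟩
  have h2 := mul_prod_erase _ f hm
  have h3 := dvd_prod_of_mem f hm'
  have h4 : Del a = ∏ x ∈ (univ : Finset (Fin n × Fin n)).filter (fun x => x.1 < x.2), f x := by
    rw [hf, Del]
  have h5 : Q ∣ f (i, j) := by rw [hf]; exact hd
  have h6 : Q ∣ f (i', j') := by rw [hf]; exact hd'
  have h1 : Q * Q ∣ Del a := by
    rw [h4, ← h2]
    exact mul_dvd_mul h5 (h6.trans h3)
  exact hQ.not_isUnit (H.hsq Q h1)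

omit H in
/-- the nodes -/
noncomputable def bpF (a : Fin n → k[X]) : Finset k[X] :=
  (Irr k (Del a).natDegree).filter fun Q => Q ∣ Del a

omit H in
/-- the type of the nodes -/
abbrev Tau (a : Fin n → k[X]) : Type := {Q : k[X] // Q ∈ bpF a}

omit H in
/-- the nodes, as polynomials -/
def QQ (a : Fin n → k[X]) (s : Tau a) : k[X] := s.1

theorem Geo.mem {Q : k[X]} : Q ∈ bpF a ↔ Q.Monic ∧ Irreducible Q ∧ Q ∣ Del a := by
  rw [bpF, mem_filter, mem_Irr]
  constructor
  · rintro ⟨⟨h1, h2, _⟩, h3⟩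
    exact ⟨h1, h2, h3⟩
  · rintro ⟨h1, h2, h3⟩
    exact ⟨⟨h1, h2, natDegree_le_of_dvd h3 H.del_ne⟩, h3⟩

theorem Geo.fam : Fam (QQ a) where
  mon := fun s => (H.mem.1 s.2).1
  irr := fun s => (H.mem.1 s.2).2.1
  inj := Subtype.val_injective

theorem Geo.hyp : Hyp (QQ a) := ⟨H.hk, H.hm, H.fam⟩

theorem Geo.ex_pair (s : Tau a) : ∃ x : Fin n × Fin n, x.1 < x.2 ∧ QQ a s ∣ a x.1 - a x.2 := by
  obtain ⟨x, hx, hd⟩ := ((H.fam.irr s).prime.dvd_finset_prod_iff _).1 (H.mem.1 s.2).2.2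
  exact ⟨x, (mem_filter.1 hx).2, hd⟩

/-- the first index -/
noncomputable def Geo.p (s : Tau a) : Fin n := (H.ex_pair s).choose.1

/-- the second index -/
noncomputable def Geo.q (s : Tau a) : Fin n := (H.ex_pair s).choose.2

theorem Geo.lt (s : Tau a) : H.p s < H.q s := (H.ex_pair s).choose_spec.1

theorem Geo.dvd (s : Tau a) : QQ a s ∣ a (H.p s) - a (H.q s) := (H.ex_pair s).choose_spec.2

theorem Geo.dvd_iff (s : Tau a) {i j : Fin n} (h : i ≠ j) :
    QQ a s ∣ a i - a j ↔ ((H.p s = i ∧ H.q s = j) ∨ (H.p s = j ∧ H.q s = i)) := by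
  constructor
  · intro hd
    rcases lt_or_gt_of_ne h with h | h
    · have := H.uniq (H.fam.irr s) (H.lt s) h (H.dvd s) hd
      exact Or.inl this
    · rw [← neg_sub, dvd_neg] at hd
      have := H.uniq (H.fam.irr s) (H.lt s) h (H.dvd s) hd
      exact Or.inr this
  · rintro (⟨rfl, rfl⟩ | ⟨rfl, rfl⟩)
    · exact H.dvd s
    · rw [← neg_sub, dvd_neg]
      exact H.dvd s

/-- factorization of the differences -/
theorem Geo.fac {i j : Fin n} (h : i ≠ j) :
    a i - a j = el (QQ a) (a i - a j).leadingCoeff (fun s => if QQ a s ∣ a i - a j then 1 else 0) := by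
  have h0 := H.ne h
  have hl : (a i - a j).leadingCoeff ≠ 0 := leadingCoeff_ne_zero.2 h0
  have hm := monic_mul_leadingCoeff_inv h0
  have hu : IsUnit (C (a i - a j).leadingCoeff⁻¹) := isUnit_C.2 (IsUnit.mk0 _ (inv_ne_zero hl))
  have hdv : ∀ Q : k[X], Q ∣ (a i - a j) * C (a i - a j).leadingCoeff⁻¹ ↔ Q ∣ a i - a j :=
    fun Q => hu.dvd_mul_right
  have h1 := sqf_eq H.fam hm (by
    intro Q hQ
    exact H.sqf h Q ((hdv _).1 hQ)) (by
    intro π hπ hd
    rw [hdv] at hd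
    have hp0 : π.leadingCoeff ≠ 0 := leadingCoeff_ne_zero.2 hπ.ne_zero
    have hass : Associated π (π * C π.leadingCoeff⁻¹) :=
      ⟨(isUnit_C.2 (IsUnit.mk0 _ (inv_ne_zero hp0))).unit, rfl⟩
    have hmem : π * C π.leadingCoeff⁻¹ ∈ bpF a := by
      rw [H.mem]
      exact ⟨monic_mul_leadingCoeff_inv hπ.ne_zero, hass.irreducible hπ,
        (hass.symm.dvd).trans (hd.trans (H.dvd_del h))⟩
    exact ⟨⟨_, hmem⟩, hass.symm.dvd⟩)
  simp only [hdv] at h1
  rw [el, ← h1, mul_comm (C _) _, mul_assoc, ← C_mul, inv_mul_cancel₀ hl, C_1, mul_one]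

/-- the cast of the exponents -/
theorem Geo.cast_exp {i j : Fin n} (h : i ≠ j) (s : Tau a) :
    (((if QQ a s ∣ a i - a j then 1 else 0 : ℕ)) : F2) = mu H.p H.q i j s := by
  rw [mu, H.dvd_iff s h]
  split_ifs <;> simp

theorem Geo.L_fac {i j : Fin n} (h : i ≠ j) (s : Tau a) (hs : ¬ QQ a s ∣ a i - a j) :
    L (a i - a j) (QQ a s) = ∑ s', mu H.p H.q i j s' * L (QQ a s') (QQ a s) +
      ((QQ a s).natDegree : F2) * ch (a i - a j).leadingCoeff := by
  have hl : (a i - a j).leadingCoeff ≠ 0 := leadingCoeff_ne_zero.2 (H.ne h)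
  have h1 := H.fac h
  rw [el_eq s, if_neg hs, pow_zero, one_mul] at h1
  conv_lhs => rw [h1]
  rw [L_el' H.fam s hl, Lm]
  congr 1
  exact sum_congr rfl fun s' _ => by rw [H.cast_exp h]

theorem Geo.deg_fac {i j : Fin n} (h : i ≠ j) :
    ∑ s, mu H.p H.q i j s * ((QQ a s).natDegree : F2) = (N : F2) := by
  have hl : (a i - a j).leadingCoeff ≠ 0 := leadingCoeff_ne_zero.2 (H.ne h)
  have h1 := congrArg natDegree (H.fac h)
  rw [H.hdeg i j h, el, natDegree_C_mul hl,
    natDegree_prod_of_monic _ _ fun s _ => (H.fam.mon s).pow _] at h1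
  have h2 := congrArg (Nat.cast : ℕ → F2) h1
  rw [Nat.cast_sum] at h2
  rw [h2]
  refine sum_congr rfl fun s _ => ?_
  rw [(H.fam.mon s).natDegree_pow, Nat.cast_mul, H.cast_exp h s]

theorem Geo.ch_symm (i j : Fin n) : ch (a i - a j).leadingCoeff = ch (a j - a i).leadingCoeff := by
  by_cases h : i = j
  · rw [h]
  have hl : (a i - a j).leadingCoeff ≠ 0 := leadingCoeff_ne_zero.2 (H.ne h)
  have h1 : (a j - a i).leadingCoeff = (-1) * (a i - a j).leadingCoeff := by
    rw [← neg_sub, leadingCoeff_neg, neg_one_mul]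
  rw [h1, ch_mul (by simp) hl, (ch_eq_zero_iff (by simp)).2 H.hm, zero_add]

/-- the combinatorial data -/
noncomputable def Geo.comb : Comb n (Tau a) where
  p := H.p
  q := H.q
  hpq := fun s => ne_of_lt (H.lt s)
  G := fun s s' => L (QQ a s) (QQ a s')
  e := fun s => ((QQ a s).natDegree : F2)
  c := fun i j => ch (a i - a j).leadingCoeff
  lam := fun s l => L (a (H.p s) - a l) (QQ a s)
  N := (N : F2)
  symG := fun s s' => L_comm H.hm _ _
  symc := H.ch_symm
  hN := fun i j h => H.deg_fac h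
  hp := by
    intro s l h1 h2
    have h3 : ¬ QQ a s ∣ a (H.p s) - a l := by
      rw [H.dvd_iff s h1.symm]
      rintro (⟨_, h⟩ | ⟨_, h⟩)
      · exact h2 h.symm
      · exact (ne_of_lt (H.lt s)) h.symm
    rw [H.L_fac h1.symm s h3]
    congr 1
    exact sum_congr rfl fun s' _ => by rw [L_comm H.hm]
  hq := by
    intro s l h1 h2
    have h3 : ¬ QQ a s ∣ a (H.q s) - a l := by
      rw [H.dvd_iff s h2.symm]
      rintro (⟨h, _⟩ | ⟨h, _⟩)
      · exact (ne_of_lt (H.lt s)) h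
      · exact h1 h.symm
    have h4 : L (a (H.p s) - a l) (QQ a s) = L (a (H.q s) - a l) (QQ a s) := by
      apply L_congr H.hk (H.fam.mon s) (H.fam.irr s)
      have : a (H.p s) - a l - (a (H.q s) - a l) = a (H.p s) - a (H.q s) := by ring
      rw [this]
      exact H.dvd s
    rw [h4, H.L_fac h2.symm s h3]
    congr 1
    exact sum_congr rfl fun s' _ => by rw [L_comm H.hm]

/-- the data of a class -/
noncomputable def Geo.dat [Fact (Odd n)] (σ : Tau a → F2) : Dat (EW n) (Tau a) := H.comb.dat σ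

theorem Geo.conn [Fact (Odd n)] (σ : Tau a → F2) : Conn (H.dat σ).t := by
  apply H.comb.conn H.hn3
  intro i j hij
  -- the difference has a prime factor
  have h0 := H.ne hij
  have hnu : ¬ IsUnit (a i - a j) := by
    intro h
    have h1 := natDegree_eq_zero_of_isUnit h
    rw [H.hdeg i j hij] at h1
    have := H.hN
    omega
  obtain ⟨π, hπ, hd⟩ := WfDvdMonoid.exists_irreducible_factor hnu h0
  have hp0 : π.leadingCoeff ≠ 0 := leadingCoeff_ne_zero.2 hπ.ne_zero
  have hass : Associated π (π * C π.leadingCoeff⁻¹) :=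
    ⟨(isUnit_C.2 (IsUnit.mk0 _ (inv_ne_zero hp0))).unit, rfl⟩
  have hmem : π * C π.leadingCoeff⁻¹ ∈ bpF a := by
    rw [H.mem]
    exact ⟨monic_mul_leadingCoeff_inv hπ.ne_zero, hass.irreducible hπ,
      (hass.symm.dvd).trans (hd.trans (H.dvd_del hij))⟩
  exact ⟨⟨_, hmem⟩, (H.dvd_iff ⟨_, hmem⟩ hij).1 (hass.symm.dvd.trans hd)⟩

end Pool.Agent.Y164.HG
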