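import Mathlib

/-!
An elementary inequality.
-/

set_option autoImplicit false
set_option linter.all false

namespace Pool.Agent.Y164.HG

theorem two_mul_le_pow {w : ℕ} (hw : 2 ≤ w) : 2 * w ≤ 2 ^ w := by
  induction w, hw using Nat.le_induction with
  | base => norm_num
  | succ n hn ih =>
    rw [pow_succ]
    omega

theorem bern (v : ℕ) : 2 * v ^ (v + 1) ≤ (v + 1) ^ (v + 1) := by
  have h1 : v ^ (v + 1) + (v + 1) * v ^ v ≤ (v + 1) ^ (v + 1) := by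
    have key : ∀ n : ℕ, v ^ (n + 1) + (n + 1) * v ^ n ≤ (v + 1) ^ (n + 1) := by
      intro n
      induction n with
      | zero => simp
      | succ n ih =>
        calc v ^ (n + 1 + 1) + (n + 1 + 1) * v ^ (n + 1)
            ≤ (v ^ (n + 1) + (n + 1) * v ^ n) * (v + 1) := by
              have : (v ^ (n + 1) + (n + 1) * v ^ n) * (v + 1) =
                v ^ (n + 1 + 1) + (n + 1 + 1) * v ^ (n + 1) + (n + 1) * v ^ n := by ring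
              rw [this]
              exact Nat.le_add_right _ _
          _ ≤ (v + 1) ^ (n + 1) * (v + 1) := Nat.mul_le_mul_right _ ih
          _ = _ := by rw [← pow_succ]
    exact key v
  have h2 : v ^ (v + 1) ≤ (v + 1) * v ^ v := by
    rw [pow_succ, mul_comm]
    exact Nat.mul_le_mul_right _ (Nat.le_succ v)
  omega

theorem base_ineq {w : ℕ} (hw : 2 ≤ w) : (w - 1) ^ (w ^ 2) * (2 * w) ≤ w ^ (w ^ 2) := by
  obtain ⟨v, rfl⟩ : ∃ v, w = v + 1 := ⟨w - 1, by omega⟩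
  rw [Nat.add_sub_cancel]
  calc v ^ ((v + 1) ^ 2) * (2 * (v + 1)) ≤ v ^ ((v + 1) ^ 2) * 2 ^ (v + 1) :=
        Nat.mul_le_mul_left _ (two_mul_le_pow hw)
    _ = (2 * v ^ (v + 1)) ^ (v + 1) := by
        rw [mul_pow, ← pow_mul, sq, mul_comm]
    _ ≤ ((v + 1) ^ (v + 1)) ^ (v + 1) := Nat.pow_le_pow_left (bern v) _
    _ = _ := by rw [← pow_mul, sq]

theorem num1 {w : ℕ} (hw : 2 ≤ w) {m g s : ℕ} (hgm : g ≤ m) (hs : m - g ≤ s)
    (hm : (w ^ 2 + 1) * s ≤ m) :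
    ((w - 1 : ℕ) : ℝ) ^ g * ((w : ℝ) ^ 2) ^ (m - g) ≤ (w : ℝ) ^ m * (1 / 2) ^ s := by
  obtain ⟨r, rfl⟩ : ∃ r, m = g + r := ⟨m - g, by omega⟩
  rw [Nat.add_sub_cancel_left] at hs ⊢
  have hg : w ^ 2 * s ≤ g := by nlinarith
  obtain ⟨g', rfl⟩ : ∃ g', g = w ^ 2 * s + g' := ⟨g - w ^ 2 * s, by omega⟩
  have hw1 : (1 : ℝ) ≤ w := by exact_mod_cast (by omega : 1 ≤ w)
  have hv : ((w - 1 : ℕ) : ℝ) ≤ w := by exact_mod_cast Nat.sub_le w 1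
  have h1 : (((w - 1) ^ (w ^ 2) : ℕ) : ℝ) * (2 * w) ≤ (w : ℝ) ^ (w ^ 2) := by
    exact_mod_cast base_ineq hw
  push_cast at h1
  set v : ℝ := ((w - 1 : ℕ) : ℝ) with hvd
  have hv0 : 0 ≤ v := Nat.cast_nonneg _
  have h2 : (v ^ (w ^ 2) * (2 * w)) ^ s ≤ ((w : ℝ) ^ (w ^ 2)) ^ s :=
    pow_le_pow_left₀ (mul_nonneg (pow_nonneg hv0 _) (by linarith)) h1 s
  have h3 : v ^ g' ≤ (w : ℝ) ^ g' := pow_le_pow_left₀ hv0 hv _
  have h4 : (w : ℝ) ^ r ≤ (w : ℝ) ^ s := pow_le_pow_right₀ hw1 hs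
  have h5 : (2 : ℝ) ^ s * (1 / 2) ^ s = 1 := by rw [← mul_pow]; norm_num
  have h6 : v ^ (w ^ 2 * s) * (w : ℝ) ^ s ≤ (w : ℝ) ^ (w ^ 2 * s) * (1 / 2) ^ s := by
    rw [pow_mul, pow_mul]
    rw [mul_pow, mul_pow] at h2
    have h7 := mul_le_mul_of_nonneg_right h2 (show (0 : ℝ) ≤ (1 / 2) ^ s by positivity)
    refine le_trans (le_of_eq ?_) h7
    calc (v ^ w ^ 2) ^ s * (w : ℝ) ^ s = (v ^ w ^ 2) ^ s * (w : ℝ) ^ s * (2 ^ s * (1 / 2) ^ s) := by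
          rw [h5, mul_one]
      _ = _ := by ring
  have hw0 : (0 : ℝ) ≤ w := by linarith
  calc v ^ (w ^ 2 * s + g') * ((w : ℝ) ^ 2) ^ r = (v ^ (w ^ 2 * s) * (w : ℝ) ^ r) * v ^ g' * (w : ℝ) ^ r := by
        rw [pow_add, ← pow_mul, mul_comm 2 r, pow_mul]
        ring
    _ ≤ (v ^ (w ^ 2 * s) * (w : ℝ) ^ s) * (w : ℝ) ^ g' * (w : ℝ) ^ r := by
        apply mul_le_mul_of_nonneg_right _ (pow_nonneg hw0 _)
        apply mul_le_mul (mul_le_mul_of_nonneg_left h4 (pow_nonneg hv0 _)) h3 (pow_nonneg hv0 _)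
        exact mul_nonneg (pow_nonneg hv0 _) (pow_nonneg hw0 _)
    _ ≤ ((w : ℝ) ^ (w ^ 2 * s) * (1 / 2) ^ s) * (w : ℝ) ^ g' * (w : ℝ) ^ r := by
        apply mul_le_mul_of_nonneg_right _ (pow_nonneg hw0 _)
        exact mul_le_mul_of_nonneg_right h6 (pow_nonneg hw0 _)
    _ = _ := by rw [pow_add, pow_add]; ring

end Pool.Agent.Y164.HG
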