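import Pool.Agent.Y164.HG.Lvl
import Pool.Agent.Y164.HG.Num
import Pool.Agent.Y164.PS.Lvl2

/-!
Squarefree polynomials with a given number of prime factors, continued.
-/

set_option autoImplicit false
set_option linter.all false

namespace Pool.Agent.Y164.HG

open Finset Polynomial Pool.Agent.H341R2.Sharp
open Pool.Agent.Y164.PS (L L_comm L_prod_left sg_L sg sg_add sg_zero sg_one abs_sg prod_not_sq sum_update abs_lam_le lam_irr coprime_of_not_dvd Fam
  Tp mem_Tp cell lgs cell_deg cell_eq lgs_eq self_cell cell_Tp cells_nonneg tup_prod fibre tuple_sum small_eq Pr mem_Pr card_Pr_ge char_sum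
  Sf mem_Sf pf mem_pf numcore m_le Xt Xt_closed Xt_self sm conv)
open scoped Classical

variable {k : Type} [Field k] [Fintype k] [DecidableEq k]
variable {W : Type} [AddCommGroup W] [Module F2 W] [Symp W] [Fintype W]
variable {ι τ : Type} [Fintype ι] [Fintype τ]
variable {Q : τ → k[X]} {D : Dat W τ}
variable (H : Hyp Q)

omit [Fintype τ] in
theorem card_W_ge {t : τ → W} (h : Conn t) : 2 ≤ Fintype.card W := by
  obtain ⟨s⟩ := h.nonempty
  have : Nontrivial W := ⟨⟨t s, 0, h.ne s⟩⟩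
  exact Fintype.one_lt_card

include H in
theorem lvl_tuples (hq : 4 ≤ Fintype.card k)
    (h2t : Conn D.t)
    (hsp : (Fintype.card τ : F2) = ∑ s, D.sp s)
    {n z s : ℕ} (hn : (n : F2) + D.N = 1) (hz : 2 ≤ z) (hs : 1 ≤ s)
    (hm : (Fintype.card W ^ 2 + 1) * s ≤ Fintype.card ι) {ε : ℝ} (hε : 0 < ε) (hε2 : ε ≤ 1 / 2)
    (hA : (Fintype.card W : ℝ) * (2 ^ (Fintype.card W ^ 2) * (8 ^ Fintype.card τ * (1 / 2 : ℝ) ^ s)) ≤ ε)
    (hB : et Q n z * ((Fintype.card W : ℝ) ^ Fintype.card ι * 4 ^ Fintype.card τ) ≤ ε) :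
    (1 - 10 * ε) * ∑ T ∈ Xt k ι n z s, (if ok Q T ∧ cl D Q T then (1 : ℝ) else 0)
      ≤ 3 * ∑ T ∈ Xt k ι n z s, (if (ok Q T ∧ cl D Q T) ∧
        Triv D (AT T) (BT Q T) (fun i => ((T i).natDegree : F2)) then (1 : ℝ) else 0) ∧
    (1 - ε) * ∑ T ∈ Xt k ι n z s, (if ok Q T then (1 : ℝ) else 0) ≤
      2 ^ Fintype.card τ *
        ∑ T ∈ Xt k ι n z s, (if ok Q T ∧ cl D Q T then (1 : ℝ) else 0) := by
  have hw2 := card_W_ge h2t
  have key : ∀ T0 ∈ Xt k ι n z s,
      (1 - 10 * ε) * YY D Q (cell z T0) ≤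
        3 * XX D Q (fun i => ((T0 i).natDegree : F2)) (cell z T0) ∧
      (1 - ε) * OK Q (cell z T0) ≤
        2 ^ Fintype.card τ * YY D Q (cell z T0) := by
    intro T0 h0
    rw [Xt, mem_filter] at h0
    have hlm : (lgs z T0).card ≤ Fintype.card ι := card_le_univ _
    have hne : (lgs z T0).Nonempty := by
      rw [← card_pos]
      have h5 : 1 ≤ Fintype.card W ^ 2 * s := Nat.mul_pos (by positivity) hs
      rw [add_mul, one_mul] at hm
      omega
    have hc := cell_inst (D := D) H hq hz h0.1 hne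
    have het := et_nonneg (Q := Q) n z
    apply cell_final hc _ h2t hsp _ hε hε2
    · have h1 := num1 hw2 hlm h0.2 hm
      have h2 : (0 : ℝ) ≤ (Fintype.card W : ℝ) * (2 ^ (Fintype.card W ^ 2) * 8 ^ Fintype.card τ) :=
        mul_nonneg (Nat.cast_nonneg _) (by positivity)
      calc (Fintype.card W : ℝ) * (2 ^ (Fintype.card W ^ 2) * (8 ^ Fintype.card τ *
            (((Fintype.card W - 1 : ℕ) : ℝ) ^ (lgs z T0).card *
              ((Fintype.card W : ℝ) ^ 2) ^ (Fintype.card ι - (lgs z T0).card)))) =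
          (Fintype.card W : ℝ) * (2 ^ (Fintype.card W ^ 2) * 8 ^ Fintype.card τ) *
            (((Fintype.card W - 1 : ℕ) : ℝ) ^ (lgs z T0).card *
              ((Fintype.card W : ℝ) ^ 2) ^ (Fintype.card ι - (lgs z T0).card)) := by ring
        _ ≤ (Fintype.card W : ℝ) * (2 ^ (Fintype.card W ^ 2) * 8 ^ Fintype.card τ) *
            ((Fintype.card W : ℝ) ^ Fintype.card ι * (1 / 2) ^ s) :=
          mul_le_mul_of_nonneg_left h1 h2
        _ = ((Fintype.card W : ℝ) * (2 ^ (Fintype.card W ^ 2) * (8 ^ Fintype.card τ *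
            (1 / 2 : ℝ) ^ s))) * (Fintype.card W : ℝ) ^ Fintype.card ι := by ring
        _ ≤ _ := mul_le_mul_of_nonneg_right hA (pow_nonneg (Nat.cast_nonneg _) _)
    · refine le_trans (le_of_eq ?_) hB
      have : (4 : ℝ) ^ Fintype.card τ =
          2 ^ Fintype.card τ * 2 ^ Fintype.card τ := by
        rw [← mul_pow]; norm_num
      rw [this]; ring
    · have h1 : ((lgs z T0).card : ℝ) + 2 ^ Fintype.card τ ≤
          (Fintype.card W : ℝ) ^ Fintype.card ι * 4 ^ Fintype.card τ := by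
        have h2 : ((lgs z T0).card : ℝ) ≤ Fintype.card ι := by exact_mod_cast hlm
        have h3 : (Fintype.card ι : ℝ) + 1 ≤ (Fintype.card W : ℝ) ^ Fintype.card ι := by
          have : Fintype.card ι + 1 ≤ Fintype.card W ^ Fintype.card ι := Nat.lt_pow_self hw2
          exact_mod_cast this
        have h4 : (2 : ℝ) ^ Fintype.card τ ≤ 4 ^ Fintype.card τ :=
          pow_le_pow_left₀ (by norm_num) (by norm_num) _
        have h5 : (1 : ℝ) ≤ 4 ^ Fintype.card τ := one_le_pow₀ (by norm_num)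
        have h6 : (0 : ℝ) ≤ Fintype.card ι := Nat.cast_nonneg _
        nlinarith
      calc ((lgs z T0).card + 2 ^ Fintype.card τ) * et Q n z ≤
          ((Fintype.card W : ℝ) ^ Fintype.card ι * 4 ^ Fintype.card τ) * et Q n z :=
            mul_le_mul_of_nonneg_right h1 het
        _ ≤ ε := by rw [mul_comm]; exact hB
    · have h1 : ∑ i, ((T0 i).natDegree : F2) = (n : F2) := by
        rw [← (mem_Tp.1 h0.1).2]
        push_cast
        rfl
      rw [h1]
      exact hn
    · intro i hi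
      rw [lgs, mem_filter] at hi
      push Not at hi
      exact ⟨T0 i, by rw [cell, if_pos (hi (mem_univ _))]⟩
  constructor
  · have h1 := cells_nonneg (z := z) (X := Xt k ι n z s) Xt_closed Xt_self
      (fun T => 3 * (if (ok Q T ∧ cl D Q T) ∧
        Triv D (AT T) (BT Q T) (fun i => ((T i).natDegree : F2)) then (1 : ℝ) else 0) -
        (1 - 10 * ε) * (if ok Q T ∧ cl D Q T then (1 : ℝ) else 0)) (by
        intro T0 h0
        have h2 := (key T0 h0).1
        rw [sum_sub_distrib, ← mul_sum, ← mul_sum]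
        have h3 : ∑ T ∈ Fintype.piFinset (cell z T0), (if (ok Q T ∧ cl D Q T) ∧
            Triv D (AT T) (BT Q T) (fun i => ((T i).natDegree : F2)) then (1 : ℝ) else 0)
            = XX D Q (fun i => ((T0 i).natDegree : F2)) (cell z T0) := by
          rw [XX]
          refine sum_congr rfl fun T hT => ?_
          simp only [cell_deg hT]
        rw [h3]
        exact sub_nonneg.2 h2)
    rw [sum_sub_distrib, ← mul_sum, ← mul_sum] at h1
    exact sub_nonneg.1 h1
  · have h1 := cells_nonneg (z := z) (X := Xt k ι n z s) Xt_closed Xt_self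
      (fun T => 2 ^ Fintype.card τ *
        (if ok Q T ∧ cl D Q T then (1 : ℝ) else 0) -
        (1 - ε) * (if ok Q T then (1 : ℝ) else 0)) (by
        intro T0 h0
        have h2 := (key T0 h0).2
        rw [sum_sub_distrib, ← mul_sum, ← mul_sum]
        exact sub_nonneg.2 h2)
    rw [sum_sub_distrib, ← mul_sum, ← mul_sum] at h1
    exact sub_nonneg.1 h1

/-- the class -/
def P1 (D : Dat W τ) (Q : τ → k[X]) (E : k[X]) : Prop := nb Q E ∧ gcl D Q E

/-- the good members of the class -/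
def P2 (G : k[X] → Prop) (D : Dat W τ) (Q : τ → k[X]) (E : k[X]) : Prop := P1 D Q E ∧ G E

/-- `G` holds for the twists with trivial kernel -/
def Imp (D : Dat W τ) (Q : τ → k[X]) (G : k[X] → Prop) : Prop :=
  ∀ (ι : Type) [Fintype ι] (T : ι → k[X]), Fam (Sum.elim T Q) →
    cl D Q T → ∑ i, ((T i).natDegree : F2) + D.N = 1 →
    Triv D (AT T) (BT Q T) (fun i => ((T i).natDegree : F2)) → G (∏ i, T i)

include H in
/-- squarefree polynomials with a given number of prime factors -/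
theorem lvl' (ι : Type) [Fintype ι] {G : k[X] → Prop} (hG : Imp D Q G) (hq : 4 ≤ Fintype.card k)
    (h2t : Conn D.t)
    (hsp : (Fintype.card τ : F2) = ∑ s, D.sp s)
    {n m z s : ℕ} (hcm : Fintype.card ι = m) (hn : (n : F2) + D.N = 1) (hz : 2 ≤ z) (hs : 1 ≤ s)
    (hm : (Fintype.card W ^ 2 + 1) * s ≤ m) {ε : ℝ} (hε : 0 < ε) (hε2 : ε ≤ 1 / 2)
    (hA : (Fintype.card W : ℝ) * (2 ^ (Fintype.card W ^ 2) * (8 ^ Fintype.card τ * (1 / 2 : ℝ) ^ s)) ≤ ε)
    (hB : et Q n z * ((Fintype.card W : ℝ) ^ m * 4 ^ Fintype.card τ) ≤ ε) (hε10 : 0 ≤ 1 - 10 * ε) :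
    (1 - 10 * ε) * (((Sf k n).filter fun E => (pf E).card = m ∧ sm z E ≤ s ∧
        P1 D Q E).card : ℝ) ≤
      3 * (((Sf k n).filter fun E => (pf E).card = m ∧ sm z E ≤ s ∧
        P2 G D Q E).card : ℝ) ∧
    (1 - ε) * (((Sf k n).filter fun E => (pf E).card = m ∧ sm z E ≤ s ∧ nb Q E).card : ℝ) ≤
      2 ^ Fintype.card τ * (((Sf k n).filter fun E => (pf E).card = m ∧ sm z E ≤ s ∧
        P1 D Q E).card : ℝ) := by
  have h0 := lvl_tuples (ι := ι) H hq h2t hsp hn hz hs (by rw [hcm]; exact hm) hε hε2 hA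
    (by rw [hcm]; exact hB)
  have hf : (0 : ℝ) < ((Fintype.card ι).factorial : ℝ) := by
    exact_mod_cast Nat.factorial_pos _
  have c1 := conv (k := k) (ι := ι) n z s (P1 D Q)
  have c2 := conv (k := k) (ι := ι) n z s (nb Q)
  have c3 := conv (k := k) (ι := ι) n z s (P2 G D Q)
  rw [hcm] at c1 c2 c3
  rw [hcm] at hf
  have e1 : ∑ T ∈ Xt k ι n z s, (if ok Q T ∧ cl D Q T then (1 : ℝ) else 0)
      = ∑ T ∈ Xt k ι n z s, (if Function.Injective T ∧ P1 D Q (∏ i, T i) then (1 : ℝ) else 0) := by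
    refine sum_congr rfl fun T hT => ?_
    rw [Xt, mem_filter] at hT
    have h1 : (ok Q T ∧ cl D Q T) ↔ (Function.Injective T ∧ P1 D Q (∏ i, T i)) := by
      constructor
      · rintro ⟨h2, h3⟩
        have h4 := (ok_iff H hT.1).1 h2
        exact ⟨h4.1, h4.2, (cl_iff H hT.1 h4.2).1 h3⟩
      · rintro ⟨h2, h3, h4⟩
        exact ⟨(ok_iff H hT.1).2 ⟨h2, h3⟩, (cl_iff H hT.1 h3).2 h4⟩
    simp only [h1]
  have e2 : ∑ T ∈ Xt k ι n z s, (if ok Q T then (1 : ℝ) else 0)
      = ∑ T ∈ Xt k ι n z s, (if Function.Injective T ∧ nb Q (∏ i, T i)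
        then (1 : ℝ) else 0) := by
    refine sum_congr rfl fun T hT => ?_
    rw [Xt, mem_filter] at hT
    simp only [ok_iff H hT.1]
  have e3 : ∑ T ∈ Xt k ι n z s, (if (ok Q T ∧ cl D Q T) ∧
        Triv D (AT T) (BT Q T) (fun i => ((T i).natDegree : F2)) then (1 : ℝ) else 0)
      ≤ ∑ T ∈ Xt k ι n z s, (if Function.Injective T ∧ P2 G D Q (∏ i, T i) then (1 : ℝ) else 0) := by
    apply sum_le_sum
    intro T hT
    rw [Xt, mem_filter] at hT
    by_cases h1 : (ok Q T ∧ cl D Q T) ∧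
        Triv D (AT T) (BT Q T) (fun i => ((T i).natDegree : F2))
    · rw [if_pos h1]
      obtain ⟨⟨h2, h3⟩, h4⟩ := h1
      have h5 := (ok_iff H hT.1).1 h2
      have h6 := (cl_iff H hT.1 h5.2).1 h3
      have h7 := (mem_Tp.1 hT.1)
      have hR : Fam (Sum.elim T (Q)) := by
        refine ⟨?_, ?_, h2⟩
        · rintro (i | s)
          · exact (h7.1 i).1
          · exact H.fam.mon s
        · rintro (i | s)
          · exact (h7.1 i).2
          · exact H.fam.irr s
      have h8 : ∑ i, ((T i).natDegree : F2) + D.N = 1 := by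
        have h9 : ∑ i, ((T i).natDegree : F2) = (n : F2) := by
          rw [← h7.2]
          push_cast
          rfl
        rw [h9]
        exact hn
      have h9 : G (∏ i, T i) := hG ι T hR h3 h8 h4
      rw [if_pos ⟨h5.1, ⟨h5.2, h6⟩, h9⟩]
    · rw [if_neg h1]
      split_ifs <;> norm_num
  rw [e1, e2, c1, c2] at h0
  rw [c3] at e3
  constructor
  · have h1 : (m.factorial : ℝ) * ((1 - 10 * ε) * (((Sf k n).filter fun E => (pf E).card = m ∧
        sm z E ≤ s ∧ P1 D Q E).card : ℝ)) ≤ (m.factorial : ℝ) *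
        (3 * (((Sf k n).filter fun E => (pf E).card = m ∧ sm z E ≤ s ∧
        P2 G D Q E).card : ℝ)) := by
      have h2 := h0.1
      linarith
    exact le_of_mul_le_mul_left h1 hf
  · have h1 : (m.factorial : ℝ) * ((1 - ε) * (((Sf k n).filter fun E => (pf E).card = m ∧
        sm z E ≤ s ∧ nb Q E).card : ℝ)) ≤ (m.factorial : ℝ) *
        (2 ^ Fintype.card τ * (((Sf k n).filter fun E => (pf E).card = m ∧ sm z E ≤ s ∧
        P1 D Q E).card : ℝ)) := by
      have h2 := h0.2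
      linarith
    exact le_of_mul_le_mul_left h1 hf


include H in
/-- squarefree polynomials with a given number of prime factors -/
theorem lvl {G : k[X] → Prop} (hG : Imp D Q G) (hq : 4 ≤ Fintype.card k)
    (h2t : Conn D.t)
    (hsp : (Fintype.card τ : F2) = ∑ s, D.sp s)
    {n m z s : ℕ} (hn : (n : F2) + D.N = 1) (hz : 2 ≤ z) (hs : 1 ≤ s)
    (hm : (Fintype.card W ^ 2 + 1) * s ≤ m) {ε : ℝ} (hε : 0 < ε) (hε2 : ε ≤ 1 / 2)
    (hA : (Fintype.card W : ℝ) * (2 ^ (Fintype.card W ^ 2) * (8 ^ Fintype.card τ * (1 / 2 : ℝ) ^ s)) ≤ ε)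
    (hB : et Q n z * ((Fintype.card W : ℝ) ^ m * 4 ^ Fintype.card τ) ≤ ε) (hε10 : 0 ≤ 1 - 10 * ε) :
    (1 - 10 * ε) * (((Sf k n).filter fun E => (pf E).card = m ∧ sm z E ≤ s ∧
        P1 D Q E).card : ℝ) ≤
      3 * (((Sf k n).filter fun E => (pf E).card = m ∧ sm z E ≤ s ∧
        P2 G D Q E).card : ℝ) ∧
    (1 - ε) * (((Sf k n).filter fun E => (pf E).card = m ∧ sm z E ≤ s ∧ nb Q E).card : ℝ) ≤
      2 ^ Fintype.card τ * (((Sf k n).filter fun E => (pf E).card = m ∧ sm z E ≤ s ∧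
        P1 D Q E).card : ℝ) :=
  lvl' H (Fin m) hG hq h2t hsp (Fintype.card_fin m) hn hz hs hm hε hε2 hA hB hε10

end Pool.Agent.Y164.HG
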