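import Pool.Agent.Y164.HG.Asy
import Pool.Agent.Y164.HG.Lvl2
import Pool.Agent.Y164.PS.Main

/-!
A positive proportion of the twists.
-/

set_option autoImplicit false
set_option linter.all false

namespace Pool.Agent.Y164.HG

open Finset Polynomial Pool.Agent.H341R2.Sharp Filter Topology
open Pool.Agent.Y164.PS (L L_comm L_prod_left Fam Sf mem_Sf pf mem_pf sm cb cb_pos markov few_primes sum_omega
  tend_log2 asy2 cop_lower)
open scoped Classical

variable {k : Type} [Field k] [Fintype k] [DecidableEq k]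
variable {W : Type} [AddCommGroup W] [Module F2 W] [Symp W] [Fintype W]
variable {τ : Type} [Fintype τ]
variable {Q : τ → k[X]} {D : Dat W τ}
variable (H : Hyp Q)

/-- typical polynomials -/
def ty (R A l s z : ℕ) (D : k[X]) : Prop := R * s ≤ (pf D).card ∧ (pf D).card ≤ A * l ∧ sm z D ≤ s

theorem nontyp (hk : ringChar k ≠ 2) (n R A l s z : ℕ) :
    (((Sf k n).filter fun D => ¬ ty R A l s z D).card : ℝ) ≤ (Fintype.card k : ℝ) ^ n *
      ((1 + Real.log n) / ((A * l : ℕ) + 1) + (1 + Real.log z) / (s + 1) + 2 ^ (R * s) * cb n) := by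
  have hpf : ∀ D ∈ Mon k n, (pf D).filter (fun P => P.natDegree ≤ n) = pf D := by
    intro D hD
    apply filter_true_of_mem
    intro P hP
    rw [pf, mem_filter, mem_Irr, (mem_Mon.1 hD).2] at hP
    exact hP.1.2.2
  have h1 : (((Sf k n).filter fun D => A * l < (pf D).card).card : ℝ) ≤
      ((Fintype.card k : ℝ) ^ n * (1 + Real.log n)) / ((A * l : ℕ) + 1) := by
    apply markov
    refine le_trans (le_of_eq ?_) (sum_omega (k := k) hk n n)
    refine sum_congr rfl fun D hD => ?_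
    rw [hpf D hD]
  have h2 : (((Sf k n).filter fun D => s < sm z D).card : ℝ) ≤
      ((Fintype.card k : ℝ) ^ n * (1 + Real.log z)) / (s + 1) := by
    apply markov
    refine le_trans (sum_le_sum fun D hD => ?_) (sum_omega (k := k) hk n z)
    have : sm z D ≤ ((pf D).filter (fun P => P.natDegree ≤ z)).card := by
      apply card_le_card
      intro P hP
      rw [mem_filter] at hP ⊢
      exact ⟨hP.1, hP.2.le⟩
    exact_mod_cast this
  have h3 := few_primes (k := k) hk n (R * s)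
  have h4 : (Sf k n).filter (fun D => ¬ ty R A l s z D) ⊆
      ((Sf k n).filter fun D => A * l < (pf D).card) ∪ ((Sf k n).filter fun D => s < sm z D) ∪
      ((Sf k n).filter fun D => (pf D).card < R * s) := by
    intro D hD
    rw [mem_filter, ty] at hD
    rw [mem_union, mem_union, mem_filter, mem_filter, mem_filter]
    by_cases e1 : A * l < (pf D).card
    · exact Or.inl (Or.inl ⟨hD.1, e1⟩)
    · by_cases e2 : s < sm z D
      · exact Or.inl (Or.inr ⟨hD.1, e2⟩)
      · right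
        refine ⟨hD.1, ?_⟩
        by_contra e3
        exact hD.2 ⟨not_lt.1 e3, not_lt.1 e1, not_lt.1 e2⟩
  have h5 : (((Sf k n).filter fun D => ¬ ty R A l s z D).card : ℝ) ≤
      (((Sf k n).filter fun D => A * l < (pf D).card).card : ℝ) +
      ((Sf k n).filter fun D => s < sm z D).card + ((Sf k n).filter fun D => (pf D).card < R * s).card := by
    have h6 := (card_le_card h4).trans ((card_union_le _ _).trans
      (Nat.add_le_add_right (card_union_le _ _) _))
    exact_mod_cast h6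
  refine h5.trans ?_
  have h7 : (Fintype.card k : ℝ) ^ n *
      ((1 + Real.log n) / ((A * l : ℕ) + 1) + (1 + Real.log z) / (s + 1) + 2 ^ (R * s) * cb n) =
      ((Fintype.card k : ℝ) ^ n * (1 + Real.log n)) / ((A * l : ℕ) + 1) +
      ((Fintype.card k : ℝ) ^ n * (1 + Real.log z)) / (s + 1) +
      2 ^ (R * s) * cb n * (Fintype.card k : ℝ) ^ n := by ring
  rw [h7]
  linarith

/-- the choice of the parameters -/
theorem params (hk : ringChar k ≠ 2) (Q : τ → k[X]) {w : ℕ} (hw : 1 ≤ w) (R : ℕ) (δ : ℝ) (hδ : 0 < δ) :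
    ∃ A : ℕ, ∀ ε : ℝ, 0 < ε → ∀ᶠ n : ℕ in atTop, ∃ l s z : ℕ, 1 ≤ s ∧ 2 ≤ z ∧
      (w : ℝ) * (2 ^ (w ^ 2) * (8 ^ Fintype.card τ * (1 / 2 : ℝ) ^ s)) ≤ ε ∧
      (∀ m ≤ A * l, et Q n z * ((w : ℝ) ^ m * 4 ^ Fintype.card τ) ≤ ε) ∧
      (((Sf k n).filter fun D => ¬ ty R A l s z D).card : ℝ) ≤ δ * (Fintype.card k : ℝ) ^ n := by
  obtain ⟨A, hA⟩ := exists_nat_gt (9 / δ)
  have hAp : (0 : ℝ) < A := lt_trans (by positivity) hA
  have hA1 : 1 ≤ A := by
    have : 0 < A := by exact_mod_cast hAp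
    exact this
  obtain ⟨c, hcd⟩ : ∃ c, c = 2 * R + 2 := ⟨_, rfl⟩
  have hc1 : 1 ≤ c := by omega
  refine ⟨A, fun ε hε => ?_⟩
  have h1 := tend_log2.eventually (asy1 c hc1 ((w : ℝ) * (2 ^ (w ^ 2) * 8 ^ Fintype.card τ)) ε hε)
  have h2 := tend_log2.eventually (asy2 ((2 * (5 * (2 + dQ Q) + 2 + 2 * (2 +
    Fintype.card τ))) * 4 ^ Fintype.card τ) ε hε)
  have h3 := tend_log2.eventually (asy3 c hc1 (w * A + 3) (by omega) (δ / 3) (by positivity))
  have h4 : ∀ᶠ l : ℕ in atTop, (1 / 2 : ℝ) ^ (l / c) ≤ δ / 3 := by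
    have h5 : Tendsto (fun l : ℕ => (1 / 2 : ℝ) ^ (l / c)) atTop (𝓝 0) :=
      (tendsto_pow_atTop_nhds_zero_of_lt_one (by norm_num) (by norm_num)).comp (tend_div c hc1)
    exact h5.eventually_le_const (by positivity)
  have h4' := tend_log2.eventually h4
  have h5 := tend_log2.eventually_ge_atTop c
  filter_upwards [h1, h2, h3, h4', h5, eventually_ge_atTop 1] with n e1 e2 e3 e4 e5 e6
  set l := Nat.log 2 n with hl
  have hl1 : 2 ^ l ≤ n := Nat.pow_log_le_self 2 (by omega)
  have hl2 : n < 2 ^ (l + 1) := Nat.lt_pow_succ_log_self (by norm_num) n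
  have hs1 : 1 ≤ l / c := (Nat.one_le_div_iff (by omega)).2 e5
  have hl0' : 1 ≤ l := hc1.trans e5
  refine ⟨l, l / c, (w * A + 3) * l, hs1, ?_, ?_, ?_, ?_⟩
  · have : 3 * 1 ≤ (w * A + 3) * l := Nat.mul_le_mul (by omega) hl0'
    omega
  · refine le_trans (le_of_eq ?_) e1
    ring
  · intro m hm
    have h6 := et_le (Q := Q) (A := A) hw hl2
    have hw1 : (1 : ℝ) ≤ w := by exact_mod_cast hw
    have h7 : (w : ℝ) ^ m ≤ (w : ℝ) ^ (A * l) := pow_le_pow_right₀ hw1 hm
    have h8 := et_nonneg (Q := Q) n ((w * A + 3) * l)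
    calc et Q n ((w * A + 3) * l) * ((w : ℝ) ^ m * 4 ^ Fintype.card τ) ≤
        et Q n ((w * A + 3) * l) * ((w : ℝ) ^ (A * l) * 4 ^ Fintype.card τ) := by
          apply mul_le_mul_of_nonneg_left _ h8
          exact mul_le_mul_of_nonneg_right h7 (pow_nonneg (by norm_num) _)
      _ = (et Q n ((w * A + 3) * l) * (w : ℝ) ^ (A * l)) * 4 ^ Fintype.card τ := by ring
      _ ≤ ((2 * (5 * (2 + dQ Q) + 2 + 2 * (2 + Fintype.card τ))) * (1 / 2) ^ l) *
          4 ^ Fintype.card τ := mul_le_mul_of_nonneg_right h6 (pow_nonneg (by norm_num) _)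
      _ = _ := by ring
      _ ≤ ε := e2
  · refine (nontyp (k := k) hk n R A l (l / c) ((w * A + 3) * l)).trans ?_
    rw [mul_comm δ]
    apply mul_le_mul_of_nonneg_left _ (by positivity)
    have h6 : (1 + Real.log n) / ((A * l : ℕ) + 1) ≤ δ / 3 := by
      have hn0 : (0 : ℝ) < n := by exact_mod_cast e6
      have h7 : Real.log n ≤ l + 1 := by
        have h8 : Real.log n ≤ Real.log (2 ^ (l + 1)) := by
          apply Real.log_le_log hn0
          exact_mod_cast hl2.le
        rw [Real.log_pow] at h8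
        have h9 : Real.log 2 ≤ 1 := by
          have := Real.log_two_lt_d9
          linarith
        calc Real.log n ≤ ((l + 1 : ℕ) : ℝ) * Real.log 2 := h8
          _ ≤ ((l + 1 : ℕ) : ℝ) * 1 := mul_le_mul_of_nonneg_left h9 (by positivity)
          _ = _ := by push_cast; ring
      have hl0 : (1 : ℝ) ≤ l := by exact_mod_cast hl0'
      rw [div_le_iff₀ (by positivity)]
      have h8 : 9 < δ * A := by
        rw [div_lt_iff₀ hδ] at hA
        linarith
      push_cast
      nlinarith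
    have h7 := e3
    have h8 := asy4 (R := R) (n := n) (l := l) (s := l / c) hl1 (by
      rw [← hcd]
      exact Nat.mul_div_le l c)
    have h9 := h8.trans e4
    linarith

/-- the number of typical polynomials with a property -/
noncomputable def cnt (R A l s z n : ℕ) (p : k[X] → Prop) : ℝ :=
  (((Sf k n).filter fun D => ty R A l s z D ∧ p D).card : ℝ)

theorem cnt_eq (R A l s z n : ℕ) (p : k[X] → Prop) : cnt R A l s z n p =
    ∑ m ∈ Icc (R * s) (A * l),
      (((Sf k n).filter fun D => (pf D).card = m ∧ sm z D ≤ s ∧ p D).card : ℝ) := by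
  rw [cnt, ← Nat.cast_sum]
  congr 1
  rw [← card_biUnion]
  · congr 1
    ext D
    rw [mem_filter, mem_biUnion, ty]
    constructor
    · rintro ⟨h1, ⟨h2, h3, h4⟩, h5⟩
      exact ⟨(pf D).card, mem_Icc.2 ⟨h2, h3⟩, mem_filter.2 ⟨h1, rfl, h4, h5⟩⟩
    · rintro ⟨m, hm, hD⟩
      rw [mem_Icc] at hm
      obtain ⟨h1, h2, h3, h4⟩ := mem_filter.1 hD
      exact ⟨h1, ⟨by omega, by omega, h3⟩, h4⟩
  · intro m _ m' _ hne
    rw [Function.onFun, disjoint_left]
    intro D hD hD'
    exact hne ((mem_filter.1 hD).2.1.symm.trans (mem_filter.1 hD').2.1)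

theorem cnt_le (R A l s z n : ℕ) (p : k[X] → Prop) :
    cnt R A l s z n p ≤ (((Sf k n).filter p).card : ℝ) := by
  rw [cnt]
  have : ((Sf k n).filter fun D => ty R A l s z D ∧ p D).card ≤ ((Sf k n).filter p).card := by
    apply card_le_card
    intro D hD
    rw [mem_filter] at hD ⊢
    exact ⟨hD.1, hD.2.2⟩
  exact_mod_cast this

theorem le_cnt (R A l s z n : ℕ) (p : k[X] → Prop) : (((Sf k n).filter p).card : ℝ) ≤
    cnt R A l s z n p + (((Sf k n).filter fun D => ¬ ty R A l s z D).card : ℝ) := by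
  rw [cnt]
  have : ((Sf k n).filter p).card ≤ ((Sf k n).filter fun D => ty R A l s z D ∧ p D).card +
      ((Sf k n).filter fun D => ¬ ty R A l s z D).card := by
    refine le_trans (card_le_card ?_) (card_union_le _ _)
    intro D hD
    rw [mem_union, mem_filter, mem_filter]
    rw [mem_filter] at hD
    by_cases h : ty R A l s z D
    · exact Or.inl ⟨hD.1, h, hD.2⟩
    · exact Or.inr ⟨hD.1, h⟩
  exact_mod_cast this

include H in
/-- many polynomials are prime to the bad primes -/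
theorem nb_lower (hq : 4 ≤ Fintype.card k) : ∃ c : ℝ, 0 < c ∧ ∀ᶠ n : ℕ in atTop,
    c * (Fintype.card k : ℝ) ^ n ≤ (((Sf k n).filter (nb Q)).card : ℝ) := by
  set m0 : k[X] := ∏ s : τ, Q s with hm0
  have hm : m0.Monic := monic_prod_of_monic _ _ fun s _ => H.fam.mon s
  set M0 := m0.natDegree with hM0
  set q : ℝ := (Fintype.card k : ℝ) with hqd
  have hq4 : (4 : ℝ) ≤ q := by rw [hqd]; exact_mod_cast hq
  refine ⟨1 / (4 * q ^ M0), by positivity, ?_⟩
  filter_upwards [eventually_ge_atTop (2 * M0 + 6)] with n hn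
  have h1 := cop_lower (k := k) H.hk (by omega) hm (n := n) (by omega)
  have h2 : (((Sf k n).filter (fun D => IsCoprime D m0)).card : ℝ) ≤
      (((Sf k n).filter (nb Q)).card : ℝ) := by
    have : ((Sf k n).filter (fun D => IsCoprime D m0)).card ≤ ((Sf k n).filter (nb Q)).card := by
      apply card_le_card
      intro D hD
      rw [mem_filter] at hD ⊢
      refine ⟨hD.1, fun s hs => ?_⟩
      exact (H.fam.irr s).not_isUnit (hD.2.isUnit_of_dvd' hs (dvd_prod_of_mem _ (mem_univ s)))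
    exact_mod_cast this
  refine le_trans ?_ (h1.trans h2)
  rw [← hqd, ← hM0]
  obtain ⟨r, hr⟩ : ∃ r, n = M0 + r := ⟨n - M0, by omega⟩
  have h3 : n - M0 = r := by omega
  rw [h3, hr, pow_add]
  have h4 : 8 * q ^ (n / 2) ≤ q ^ r := by
    calc 8 * q ^ (n / 2) ≤ q ^ 2 * q ^ (n / 2) := by
          apply mul_le_mul_of_nonneg_right _ (by positivity)
          nlinarith
      _ = q ^ (2 + n / 2) := by rw [pow_add]
      _ ≤ q ^ r := pow_le_pow_right₀ (by linarith) (by omega)
  rw [hr] at h4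
  have h5 : 1 / (4 * q ^ M0) * (q ^ M0 * q ^ r) = q ^ r / 4 := by
    have : q ^ M0 ≠ 0 := by positivity
    field_simp
  rw [h5]
  linarith

include H in
/-- the main estimate in a class -/
theorem step_cnt {G : k[X] → Prop} (hG : Imp D Q G)
    (hq : 4 ≤ Fintype.card k) (h2t : Conn D.t) (hsp : (Fintype.card τ : F2) = ∑ s, D.sp s)
    (δ : ℝ) (hδ : 0 < δ) (ε : ℝ) (hε : 0 < ε) (hε1 : ε ≤ 1 / 10) : ∀ᶠ n : ℕ in atTop,
      (n : F2) + D.N = 1 → ∃ x y : ℝ, 
        (1 - 10 * ε) * x ≤ 3 * (((Sf k n).filter (P2 G D Q)).card : ℝ) ∧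
        (1 - ε) * y ≤ 2 ^ Fintype.card τ * x ∧
        (((Sf k n).filter (nb Q)).card : ℝ) ≤ y + δ * (Fintype.card k : ℝ) ^ n := by
  have hw2 := card_W_ge h2t
  obtain ⟨R, hR⟩ : ∃ R, R = Fintype.card W ^ 2 + 1 := ⟨_, rfl⟩
  obtain ⟨A, hA⟩ := params (k := k) H.hk Q (w := Fintype.card W) (by omega) R δ hδ
  filter_upwards [hA ε hε] with n hn hodd
  obtain ⟨l, s, z, h1, h2, h3, h4, h5⟩ := hn
  have key : ∀ m ∈ Icc (R * s) (A * l), _ := fun m hm =>
    lvl H hG hq h2t hsp (n := n) (m := m) (z := z) (s := s) hodd h2 h1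
      (by rw [← hR]; exact (mem_Icc.1 hm).1) hε
      (by linarith) h3 (h4 m (mem_Icc.1 hm).2) (by linarith)
  refine ⟨cnt R A l s z n (P1 D Q), cnt R A l s z n (nb Q), ?_, ?_, ?_⟩
  · refine le_trans ?_ (mul_le_mul_of_nonneg_left (cnt_le R A l s z n (P2 G D Q)) (by norm_num))
    rw [cnt_eq, cnt_eq, mul_sum, mul_sum]
    exact sum_le_sum fun m hm => (key m hm).1
  · rw [cnt_eq, cnt_eq, mul_sum, mul_sum]
    exact sum_le_sum fun m hm => (key m hm).2
  · refine (le_cnt R A l s z n (nb Q)).trans ?_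
    linarith

include H in
/-- the main estimate in a class, in terms of all the polynomials -/
theorem class_cnt {G : k[X] → Prop} (hG : Imp D Q G)
    (hq : 4 ≤ Fintype.card k) (h2t : Conn D.t) (hsp : (Fintype.card τ : F2) = ∑ s, D.sp s)
    (ε : ℝ) (hε : 0 < ε) (hε1 : ε ≤ 1 / 10) : ∀ᶠ n : ℕ in atTop,
      (n : F2) + D.N = 1 → (1 - 12 * ε) * (((Sf k n).filter (nb Q)).card : ℝ) ≤
        3 * 2 ^ Fintype.card τ * (((Sf k n).filter (P2 G D Q)).card : ℝ) := by
  obtain ⟨c0, hc0, hlow⟩ := nb_lower H hq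
  filter_upwards [hlow, step_cnt H hG hq h2t hsp (c0 * ε) (by positivity) ε hε hε1] with n e1 e2 hodd
  obtain ⟨x, y, g1, g2, g3⟩ := e2 hodd
  set Y : ℝ := (((Sf k n).filter (nb Q)).card : ℝ) with hY
  set Z : ℝ := (((Sf k n).filter (P2 G D Q)).card : ℝ) with hZ
  set q : ℝ := (Fintype.card k : ℝ) with hqd
  have hY0 : 0 ≤ Y := Nat.cast_nonneg _
  have ht : (0 : ℝ) < 2 ^ Fintype.card τ := pow_pos (by norm_num) _
  have h1 : (1 - ε) * Y ≤ y := by
    have : c0 * ε * q ^ n ≤ ε * Y := by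
      calc c0 * ε * q ^ n = ε * (c0 * q ^ n) := by ring
        _ ≤ ε * Y := mul_le_mul_of_nonneg_left e1 hε.le
    linarith
  have h2 : (1 - ε) * ((1 - ε) * Y) ≤ 2 ^ Fintype.card τ * x :=
    (mul_le_mul_of_nonneg_left h1 (by linarith)).trans g2
  have h3 : 2 ^ Fintype.card τ * ((1 - 10 * ε) * x) ≤ 2 ^ Fintype.card τ * (3 * Z) :=
    mul_le_mul_of_nonneg_left g1 ht.le
  have h4 : (1 - 10 * ε) * ((1 - ε) * ((1 - ε) * Y)) ≤ (1 - 10 * ε) * (2 ^ Fintype.card τ * x) :=
    mul_le_mul_of_nonneg_left h2 (by linarith)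
  have h5 : (1 - 12 * ε) * Y ≤ (1 - 10 * ε) * ((1 - ε) * ((1 - ε) * Y)) := by
    have : (1 - 10 * ε) * ((1 - ε) * ((1 - ε) * Y)) = (1 - 12 * ε) * Y +
        (ε ^ 2 * (21 - 10 * ε)) * Y := by ring
    rw [this]
    have : 0 ≤ (ε ^ 2 * (21 - 10 * ε)) * Y :=
      mul_nonneg (mul_nonneg (by positivity) (by linarith)) hY0
    linarith
  linarith

/-- the even classes are half of all the classes -/
theorem card_even [Nonempty τ] (c : F2) :
    2 * ((univ : Finset (τ → F2)).filter fun σ => c = ∑ s, σ s).card = 2 ^ Fintype.card τ := by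
  obtain ⟨s0⟩ := ‹Nonempty τ›
  set e : τ → F2 := Pi.single s0 1 with he
  have hee : e + e = 0 := by
    funext i
    exact F2_add_self _
  have hsum : ∀ σ : τ → F2, ∑ s, (σ + e) s = ∑ s, σ s + 1 := by
    intro σ
    simp only [Pi.add_apply, sum_add_distrib]
    congr 1
    rw [he, sum_pi_single']
    simp
  have h1 : ((univ : Finset (τ → F2)).filter fun σ => c = ∑ s, σ s).card =
      ((univ : Finset (τ → F2)).filter fun σ => ¬ c = ∑ s, σ s).card := by
    apply card_bij' (fun σ _ => σ + e) (fun σ _ => σ + e)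
    · intro σ hσ
      rw [mem_filter] at hσ ⊢
      refine ⟨mem_univ _, ?_⟩
      rw [hsum, ← hσ.2]
      intro h
      have : (1 : F2) = 0 := by
        calc (1 : F2) = c + (c + 1) := by rw [← add_assoc, F2_add_self, zero_add]
          _ = c + c := by rw [← h]
          _ = 0 := F2_add_self c
      exact absurd this (by decide)
    · intro σ hσ
      rw [mem_filter] at hσ ⊢
      refine ⟨mem_univ _, ?_⟩
      rw [hsum]
      have h2 : ∀ a b : F2, ¬ a = b → a = b + 1 := by decide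
      exact h2 _ _ hσ.2
    · intro σ _
      show σ + e + e = σ
      rw [add_assoc, hee, add_zero]
    · intro σ _
      show σ + e + e = σ
      rw [add_assoc, hee, add_zero]
  have h2 := card_filter_add_card_filter_not (s := (univ : Finset (τ → F2))) (fun σ => c = ∑ s, σ s)
  rw [card_univ, Fintype.card_fun, ZMod.card] at h2
  omega

include H in
/-- the main theorem, on the level of the classes -/
theorem main_cnt {G : k[X] → Prop} (DD : (τ → F2) → Dat W τ) (hspd : ∀ σ, (DD σ).sp = σ)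
    (hg : ∀ σ σ', (DD σ).g = (DD σ').g) (N : F2) (hN : ∀ σ, (DD σ).N = N)
    (hG : ∀ σ, (Fintype.card τ : F2) = ∑ s, σ s → Imp (DD σ) Q G)
    (hq : 4 ≤ Fintype.card k) (h2t : ∀ σ, Conn (DD σ).t) (ε : ℝ) (hε : 0 < ε) :
    ∀ᶠ n : ℕ in atTop, (n : F2) + N = 1 →
      (1 / 6 - ε) * (((Sf k n).filter (nb Q)).card : ℝ) ≤
        (((Sf k n).filter fun E => nb Q E ∧ G E).card : ℝ) := by
  have hne : Nonempty τ := (h2t 0).nonempty
  by_cases hε3 : 1 / 6 ≤ ε
  · filter_upwards with n _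
    have : (0 : ℝ) ≤ (((Sf k n).filter (nb Q)).card : ℝ) := Nat.cast_nonneg _
    have h2 : (0 : ℝ) ≤ (((Sf k n).filter fun E => nb Q E ∧ G E).card : ℝ) := Nat.cast_nonneg _
    nlinarith
  push Not at hε3
  set EV : Finset (τ → F2) := univ.filter fun σ => (Fintype.card τ : F2) = ∑ s, σ s with hEV
  have h1 : ∀ᶠ n : ℕ in atTop, ∀ σ ∈ EV, (n : F2) + N = 1 →
      (1 - 12 * (ε / 2)) * (((Sf k n).filter (nb Q)).card : ℝ) ≤
        3 * 2 ^ Fintype.card τ * (((Sf k n).filter (P2 G (DD σ) Q)).card : ℝ) := by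
    rw [Filter.eventually_all_finset]
    intro σ hσ
    have hσ' := (mem_filter.1 hσ).2
    have := class_cnt (D := DD σ) H (hG σ hσ') hq (h2t σ) (by rw [hspd]; exact hσ') (ε / 2)
      (by positivity) (by linarith)
    rw [hN] at this
    exact this
  filter_upwards [h1] with n hn hodd
  have h2 : ∑ σ ∈ EV, (((Sf k n).filter (P2 G (DD σ) Q)).card : ℝ) ≤
      (((Sf k n).filter fun E => nb Q E ∧ G E).card : ℝ) := by
    rw [← Nat.cast_sum]
    have h3 : ∑ σ ∈ EV, ((Sf k n).filter (P2 G (DD σ) Q)).card ≤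
        ((Sf k n).filter fun E => nb Q E ∧ G E).card := by
      rw [← card_biUnion]
      · apply card_le_card
        intro E hE
        obtain ⟨σ, -, h⟩ := mem_biUnion.1 hE
        obtain ⟨h4, h5⟩ := mem_filter.1 h
        exact mem_filter.2 ⟨h4, h5.1.1, h5.2⟩
      · intro σ _ σ' _ hne
        rw [Function.onFun, disjoint_left]
        intro E hE hE'
        apply hne
        funext s
        have h4 := (mem_filter.1 hE).2.1.2 s
        have h5 := (mem_filter.1 hE').2.1.2 s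
        rw [hspd] at h4 h5
        rw [hg σ' σ] at h5
        have h6 : ∀ a b c d : F2, a + c + d = 0 → b + c + d = 0 → a = b := by decide
        exact h6 _ _ _ _ h4 h5
    exact_mod_cast h3
  have h3 : ∑ σ ∈ EV, (1 - 12 * (ε / 2)) * (((Sf k n).filter (nb Q)).card : ℝ) ≤
      ∑ σ ∈ EV, 3 * 2 ^ Fintype.card τ * (((Sf k n).filter (P2 G (DD σ) Q)).card : ℝ) :=
    sum_le_sum fun σ hσ => hn σ hσ hodd
  rw [sum_const, nsmul_eq_mul, ← mul_sum] at h3
  have h4 : (2 : ℝ) * EV.card = 2 ^ Fintype.card τ := by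
    exact_mod_cast card_even (τ := τ) (Fintype.card τ : F2)
  have ht : (0 : ℝ) < EV.card := by
    have : (0 : ℝ) < 2 ^ Fintype.card τ := pow_pos (by norm_num) _
    linarith
  set Y : ℝ := (((Sf k n).filter (nb Q)).card : ℝ) with hY
  set Z : ℝ := (((Sf k n).filter fun E => nb Q E ∧ G E).card : ℝ) with hZ
  have h5 : (EV.card : ℝ) * ((1 - 12 * (ε / 2)) * Y) ≤ EV.card * (6 * Z) := by
    refine h3.trans ?_
    rw [← h4]
    have := mul_le_mul_of_nonneg_left h2 (show (0 : ℝ) ≤ 3 * (2 * EV.card) by linarith)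
    linarith
  have h6 := le_of_mul_le_mul_left h5 ht
  linarith

end Pool.Agent.Y164.HG
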