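import Pool.Agent.Y164.HG.Stm

/-!
The rational points: descent.
-/

set_option autoImplicit false
set_option linter.all false

open Polynomial IsDedekindDomain

namespace Pool.Agent.Y164.HG

open Pool.Agent.Y713.SE.Dat (au phi_apply rs mC_mC mC_PT mC_phi)

theorem sq_eq_of {G : Type} [CommGroup G] {b Q : G} (h : b * Q⁻¹ = Q) : Q ^ 2 = b := by
  rw [sq]
  exact (mul_inv_eq_iff_eq_mul.1 h).symm

theorem fin_eq {G : Type} [CommGroup G] {P b Q Q' : G} (h1 : Q ^ 2 = b) (h2 : Q' ^ 2 = P) :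
    b = P * (Q / Q') ^ 2 := by
  rw [div_pow, h1, h2, mul_div_cancel]

section
variable {n : ℕ} {K : Type} [Field K] (D : Y713.SE.Dat 2 n K)

theorem sC_inv {F : Type} [Field F] (D : Y713.SE.Dat 2 n F) (c : ClassGroup D.A) : D.sC c = c⁻¹ := by
  have h := D.prod_sC c
  rw [Finset.prod_range_succ, Finset.prod_range_one] at h
  simp only [Function.iterate_zero, id, Function.iterate_one] at h
  exact eq_inv_of_mul_eq_one_right h

theorem triv_one {E F Ω : Type} [Field E] [Algebra K E] [Field F] [Algebra K F] [Field Ω]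
    [Algebra K Ω] [Algebra F Ω] [IsScalarTower K F Ω] (ι : E →ₐ[K] Ω) :
    D.Triv (L := E) F Ω (fun _ => 1) :=
  ⟨ι, 1, fun τ σ h => by rw [map_one, map_one, div_one]⟩

theorem coc_one {E : Type} [Field E] [Algebra K E] : D.Coc (L := E) (fun _ => 1) :=
  ⟨IsLocallyConstant.const _, fun σ τ => by rw [map_one, mul_one]⟩

theorem div_of_crit (hEXT : S_EXT) (hINJ : S_INJ) {E : Type} [Field E] [Algebra K E]
    [IsGalois K E] [IsSepClosed E] {p : ℕ} [ExpChar E p]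
    (LT : ((E ≃ₐ[K] E) → ClassGroup (D.base E).A) → Prop) (h1 : LT (fun _ => 1))
    (hLT : ∀ c Q, LT c → LT (fun σ => c σ / (D.mC (au σ) Q / Q)))
    (crit : ∀ χ : (E ≃ₐ[K] E) → Fin n → ℕ,
      D.Coc (fun σ => Y713.SE.cl ((D.base E).PT (χ σ))) →
      LT (fun σ => Y713.SE.cl ((D.base E).PT (χ σ))) →
      ∃ (m : Fin n → ℕ) (Q : ClassGroup (D.base E).A),
        Y713.SE.cl ((D.base E).PT m) * (D.base E).sC Q = Q ∧
        ∀ σ, Y713.SE.cl ((D.base E).PT (χ σ)) = D.mC (au σ) Q / Q)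
    (x : ClassGroup (D.base K).A) :
    ∃ (m : Fin n → ℕ) (y : ClassGroup (D.base K).A), x = Y713.SE.cl ((D.base K).PT m) * y ^ 2 := by
  obtain ⟨b, hb⟩ : ∃ b, b = D.mC (Algebra.ofId K E) x := ⟨_, rfl⟩
  have hbinv : ∀ σ : E ≃ₐ[K] E, D.mC (au σ) b = b := by
    intro σ
    rw [hb, mC_mC]
    congr 2
    exact Subsingleton.elim _ _
  obtain ⟨Q, hQ⟩ := (D.base E).phi_surj (p := p) b
  have hφQ : (D.base E).phi Q = b := by
    rw [phi_apply, div_eq_iff_eq_mul]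
    exact hQ.symm
  have hQ2 : Q ^ 2 = b := by
    rw [sC_inv] at hQ
    exact sq_eq_of hQ
  have h3 : ∀ σ, ∃ m : Fin n → ℕ, 1 / (D.mC (au σ) Q⁻¹ / Q⁻¹) =
      Y713.SE.cl ((D.base E).PT m) := by
    intro σ
    have h4 : (D.base E).phi (1 / (D.mC (au σ) Q⁻¹ / Q⁻¹)) = 1 := by
      rw [_root_.map_div, _root_.map_div, ← mC_phi, map_inv, hφQ, map_inv, hbinv, map_one,
        div_self', div_one]
    rw [phi_apply, div_eq_one] at h4
    obtain ⟨m', hm⟩ := (D.base E).phi_ker (p := p) h4.symm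
    exact ⟨m', by rw [hm, (D.base E).cl_PT]⟩
  choose χ hχ using h3
  have hf : (fun σ => Y713.SE.cl ((D.base E).PT (χ σ))) =
      fun σ => (1 : ClassGroup (D.base E).A) / (D.mC (au σ) Q⁻¹ / Q⁻¹) :=
    funext fun σ => (hχ σ).symm
  obtain ⟨m, Q', hQ', hQ''⟩ := crit χ (by rw [hf]; exact (coc_one D).div D Q⁻¹)
    (by rw [hf]; exact hLT _ _ h1)
  have hQ'2 : Q' ^ 2 = Y713.SE.cl ((D.base E).PT m) := by
    rw [sC_inv] at hQ'
    exact sq_eq_of hQ'
  obtain ⟨R, hR⟩ : ∃ R, R = Q / Q' := ⟨_, rfl⟩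
  have hRinv : ∀ σ : E ≃ₐ[K] E, D.mC (au σ) R = R := by
    intro σ
    have h5 := hQ'' σ
    rw [← hχ σ] at h5
    have h6 : (1 : ClassGroup (D.base E).A) / (D.mC (au σ) Q⁻¹ / Q⁻¹) = D.mC (au σ) Q / Q := by
      rw [map_inv, one_div, inv_div, inv_div_inv]
    rw [h6] at h5
    rw [hR, _root_.map_div]
    rw [div_eq_div_iff_mul_eq_mul] at h5
    rw [div_eq_div_iff_mul_eq_mul, h5, mul_comm]
  obtain ⟨B, hB, hBc, hBinv⟩ := D.exists_can R
  obtain ⟨I0, hI0⟩ := hEXT 2 n K D E B (fun σ => hBinv σ (hRinv σ))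
  have hI0' : I0 ≠ ⊥ := by
    rintro rfl
    apply hB
    rw [← hI0]
    exact Ideal.map_bot
  refine ⟨m, Y713.SE.cl I0, ?_⟩
  apply hINJ 2 n K D E
  rw [map_mul, map_pow, D.mC_cl _ hI0', hI0, hBc, mC_PT, hR, ← hb]
  exact fin_eq hQ2 hQ'2

end

end Pool.Agent.Y164.HG
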