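import Pool.Agent.Y164.HG.Sel
import Pool.Agent.Y164.HG.Main
import Pool.Agent.Y164.HG.Rk
import Pool.Agent.Y288.HG.Rep
import Pool.Agent.Y288.HG.Inj
import Pool.Agent.Y500.HG.Ext
import Pool.Agent.Y31.HG.Adj
import Pool.Agent.Y713.SE.Twist

/-!
Twists with trivial kernel.
-/

set_option autoImplicit false
set_option linter.all false

open Polynomial IsDedekindDomain
open scoped Classical

namespace Pool.Agent.Y164.HG

open Finset
open Pool.Agent.Y713.SE (tDat)
open Pool.Agent.Y713.SE.Dat (au)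
open Pool.Agent.Y713.Jac (J ShaPrimaryTrivial)
open Pool.Agent.Y164.PS (Fam)

/-- the polynomial of the twist by `E` -/
noncomputable def cur {k : Type} [Field k] (K : Type) [Field K] [Algebra k[X] K] {n : ℕ}
    (a : Fin n → k[X]) (E : k[X]) : K[X] :=
  C (algebraMap k[X] K E) * ∏ i, (X - C (algebraMap k[X] K (a i)))

/-- the conclusion for the twist by `E` -/
def Good {k : Type} [Field k] (K : Type) [Field K] [Algebra k[X] K] [IsFractionRing k[X] K]
    {n : ℕ} (a : Fin n → k[X]) (E : k[X]) : Prop :=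
  ShaPrimaryTrivial 2 (cur K a E) k[X] ∧
  ∀ x : J 2 (cur K a E) K, ∃ t y : J 2 (cur K a E) K, t ^ 2 = 1 ∧ x = t * y ^ 2

section
variable {k K : Type} [Field k] [Fintype k] [DecidableEq k] [Field K] [Algebra k[X] K]
  [IsFractionRing k[X] K]
variable {n : ℕ} {a : Fin n → k[X]} {N : ℕ} (H : Geo a N)

omit [Fintype k] [DecidableEq k] in
theorem sq_one_of {G : Type} [CommGroup G] {x : G} (h : x = x⁻¹) : x ^ 2 = 1 := by
  rw [sq]
  exact mul_eq_one_iff_eq_inv.2 h

theorem PT_sq {F : Type} [Field F] {n : ℕ} (D : Y713.SE.Dat 2 n F) (m : Fin n → ℕ) :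
    Y713.SE.cl (D.PT m) ^ 2 = 1 := by
  have h1 : D.sC (Y713.SE.cl (D.PT m)) = Y713.SE.cl (D.PT m) := by
    rw [D.sC_cl (D.PT_ne m), D.sI_PT]
  have h2 := sC_inv D (Y713.SE.cl (D.PT m))
  rw [h1] at h2
  exact sq_one_of h2

include H in
theorem imp_good [Fact (Odd n)] (σ : Tau a → F2) : Imp (H.dat σ) (QQ a) (Good K a) := by
  intro ι _ T hR hcl hpar htr
  have hinj : Function.Injective (algebraMap k[X] K) := IsFractionRing.injective k[X] K
  have h2 : ((2 : ℕ) : k) ≠ 0 := by
    have := Ring.two_ne_zero H.hk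
    exact_mod_cast this
  have hζ : IsPrimitiveRoot (-1 : k) 2 := by
    refine IsPrimitiveRoot.mk_of_lt _ (by norm_num) (by norm_num) ?_
    intro l hl1 hl2
    have : l = 1 := by omega
    rw [this, pow_one]
    intro h
    apply Ring.two_ne_zero H.hk
    have h3 : (2 : k) = 1 + 1 := by norm_num
    rw [h3]
    nth_rewrite 1 [← h]
    ring
  have hT0 : (∏ i, T i) ≠ 0 := prod_ne_zero_iff.2 fun i _ => (hR.irr (Sum.inl i)).ne_zero
  have hδ : algebraMap k[X] K (∏ i, T i) ≠ 0 := (map_ne_zero_iff _ hinj).2 hT0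
  have he : Function.Injective (fun i => algebraMap k[X] K (a i)) := by
    intro i j hij
    by_contra hne
    exact H.ne hne (sub_eq_zero.2 (hinj hij))
  have hn : ¬ 2 ∣ n := by
    rw [← even_iff_two_dvd, Nat.not_even_iff_odd]
    exact H.hn
  obtain ⟨D0, hD⟩ : ∃ D0 : Y713.SE.Dat 2 n K, D0 = tDat K Nat.prime_two h2 hζ hδ he hn :=
    ⟨_, rfl⟩
  have hDδ : D0.δ = algebraMap k[X] K (∏ i, T i) := by rw [hD]; rfl
  have hDe : ∀ i, D0.e i = algebraMap k[X] K (a i) := fun i => by rw [hD]; rfl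
  have hf : D0.f = cur K a (∏ i, T i) := by
    rw [Y713.SE.Dat.f, hDδ, cur]
    simp only [hDe]
  obtain ⟨p, hexp⟩ := ExpChar.exists K
  haveI := hexp
  haveI : ExpChar (SeparableClosure K) p :=
    expChar_of_injective_algebraMap (algebraMap K (SeparableClosure K)).injective p
  haveI : ∀ v : HeightOneSpectrum k[X], ExpChar (SeparableClosure (v.adicCompletion K)) p := fun v =>
    expChar_of_injective_algebraMap
      (algebraMap K (SeparableClosure (v.adicCompletion K))).injective p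
  have key := crit (K := K) H Pool.Agent.Y288.HG.Rep.t Pool.Agent.Y31.HG.Adj.t hR D0 hDδ hDe σ hcl
    hpar htr (E := SeparableClosure K) (p := p)
    (fun v : HeightOneSpectrum k[X] => SeparableClosure (v.adicCompletion K))
  unfold Good
  rw [← hf]
  constructor
  · apply D0.sha_primary (R := k[X])
    intro χ hc ht
    obtain ⟨m, Q, -, hQ⟩ := key χ hc ht
    exact ⟨Q, hQ⟩
  · intro x
    obtain ⟨m, y, hy⟩ := div_of_crit D0 Pool.Agent.Y500.HG.t Pool.Agent.Y288.HG.Inj.t
      (E := SeparableClosure K) (p := p)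
      (fun c => ∀ v : HeightOneSpectrum k[X], D0.Triv (v.adicCompletion K)
        (SeparableClosure (v.adicCompletion K)) c)
      (fun v => triv_one D0 (IsSepClosed.lift))
      (fun c Q h v => (h v).div D0 Q) key ((D0.Te K).symm x)
    refine ⟨D0.Te K (Y713.SE.cl ((D0.base K).PT m)), D0.Te K y, ?_, ?_⟩
    · rw [← map_pow, PT_sq, map_one]
    · rw [← map_pow, ← map_mul, ← hy, MulEquiv.apply_symm_apply]

end

end Pool.Agent.Y164.HG
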