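import Pool.Agent.Y164.HG.Eqs

/-!
Kummer data: relations. Valuations of the differences and of the twist.
-/

set_option autoImplicit false
set_option linter.all false

open Polynomial IsDedekindDomain
open scoped Classical

namespace Pool.Agent.Y164.HG

open Finset
open Pool.Agent.Y713.SE.Dat (exists_F)
open Pool.Agent.Y713.SE (hp Pw mem_hp eq_hp val_hp_self not_pw_exp val_eq_one_iff val_C
  exists_gen)
open Pool.Agent.Y164.PS (L ch el Fam ch_mul el_mul el_ne L_comm L_prod_left coprime_of_not_dvd)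

section kd
variable {n : ℕ} {K E : Type} [Field K] [Field E] [Algebra K E] [IsGalois K E]
variable (D : Y713.SE.Dat 2 n K) {χ : (E ≃ₐ[K] E) → Fin n → ℕ}

theorem kd_ne (kd : D.KD χ) (i j : Fin n) : kd.d i j ≠ 0 := by
  intro h0
  have h := kd.hd i j
  rw [h0, map_zero] at h
  exact kd.h0 i j (pow_eq_zero_iff two_ne_zero |>.1 h)

theorem kd_rel (kd : D.KD χ) (i j l : Fin n) :
    ∃ z : K, z ≠ 0 ∧ kd.d i j * kd.d j l = z ^ 2 * kd.d i l := by
  have hfix : ∀ σ : E ≃ₐ[K] E, σ (kd.θ i j * kd.θ j l / kd.θ i l) =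
      kd.θ i j * kd.θ j l / kd.θ i l := by
    intro σ
    have hA : (D.base E).ζ ^ χ σ i ≠ 0 := pow_ne_zero _ (D.base E).ζ_ne
    have hB : (D.base E).ζ ^ χ σ j ≠ 0 := pow_ne_zero _ (D.base E).ζ_ne
    have hC : (D.base E).ζ ^ χ σ l ≠ 0 := pow_ne_zero _ (D.base E).ζ_ne
    have h1 := kd.hθ σ i j
    have h2 := kd.hθ σ j l
    have h3 := kd.hθ σ i l
    have n1 := kd.h0 i j
    have n2 := kd.h0 j l
    have n3 := kd.h0 i l
    generalize (D.base E).ζ ^ χ σ i = A at *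
    generalize (D.base E).ζ ^ χ σ j = B at *
    generalize (D.base E).ζ ^ χ σ l = C at *
    rw [map_div₀, map_mul]
    have e1 : σ (kd.θ i j) = A * kd.θ i j / B := by
      rw [eq_div_iff hB, mul_comm]; exact h1
    have e2 : σ (kd.θ j l) = B * kd.θ j l / C := by
      rw [eq_div_iff hC, mul_comm]; exact h2
    have e3 : σ (kd.θ i l) = A * kd.θ i l / C := by
      rw [eq_div_iff hC, mul_comm]; exact h3
    rw [e1, e2, e3]
    field_simp
  obtain ⟨x, hx⟩ := exists_F (F := K) hfix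
  have n1 := kd.h0 i j
  have n2 := kd.h0 j l
  have n3 := kd.h0 i l
  refine ⟨x, ?_, ?_⟩
  · rintro rfl
    rw [map_zero] at hx
    exact div_ne_zero (mul_ne_zero n1 n2) n3 hx.symm
  · apply (algebraMap K E).injective
    rw [map_mul, map_mul, map_pow, hx, ← kd.hd, ← kd.hd, ← kd.hd, div_pow, mul_pow,
      div_mul_cancel₀ _ (pow_ne_zero _ n3)]

/-- the classes attached to the indices -/
def mm (kd : D.KD χ) (i0 i : Fin n) : K := kd.d i i0 * ∏ j, kd.d j i0

theorem mm_ne (kd : D.KD χ) (i0 i : Fin n) : mm D kd i0 i ≠ 0 :=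
  mul_ne_zero (kd_ne D kd _ _) (prod_ne_zero_iff.2 fun j _ => kd_ne D kd _ _)

theorem mm_rel (kd : D.KD χ) (i0 i j : Fin n) :
    ∃ z : K, z ≠ 0 ∧ mm D kd i0 i * mm D kd i0 j = z ^ 2 * kd.d i j := by
  obtain ⟨z1, hz1, e1⟩ := kd_rel D kd j i0 j
  obtain ⟨z2, hz2, e2⟩ := kd_rel D kd j j j
  obtain ⟨z3, hz3, e3⟩ := kd_rel D kd i i0 j
  have n1 := kd_ne D kd j j
  have n2 := kd_ne D kd i0 j
  have n3 : (∏ l, kd.d l i0) ≠ 0 := prod_ne_zero_iff.2 fun j _ => kd_ne D kd _ _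
  have e2' : kd.d j j = z2 ^ 2 := mul_right_cancel₀ n1 e2
  refine ⟨z1 * z2 * z3 * (∏ l, kd.d l i0) / kd.d i0 j, ?_, ?_⟩
  · exact div_ne_zero (mul_ne_zero (mul_ne_zero (mul_ne_zero hz1 hz2) hz3) n3) n2
  · unfold mm
    rw [div_pow, div_mul_eq_mul_div, eq_div_iff (pow_ne_zero _ n2)]
    rw [e2'] at e1
    generalize (∏ l, kd.d l i0) = P at *
    calc (kd.d i i0 * P) * (kd.d j i0 * P) * kd.d i0 j ^ 2 =
        (kd.d i i0 * kd.d i0 j) * (kd.d j i0 * kd.d i0 j) * P ^ 2 := by ring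
      _ = _ := by rw [e3, e1]; ring

end kd

section val
variable {k K : Type} [Field k] [Fintype k] [DecidableEq k] [Field K] [Algebra k[X] K]
  [IsFractionRing k[X] K]
variable {n : ℕ} {a : Fin n → k[X]} {N : ℕ} (H : Geo a N)
variable {ι : Type} [Fintype ι] {T : ι → k[X]}

include H in
theorem val_two (v : HeightOneSpectrum k[X]) : v.valuation K ((2 : ℕ) : K) = 1 := by
  have h2 : ((2 : ℕ) : k) ≠ 0 := by
    have := Ring.two_ne_zero H.hk
    exact_mod_cast this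
  have h3 : ((2 : ℕ) : K) = algebraMap k[X] K (C ((2 : ℕ) : k)) := by
    rw [C_eq_natCast, map_natCast]
  rw [h3]
  exact val_C h2

include H in
theorem val_sub_one {v : HeightOneSpectrum k[X]} (hv : ∀ s, QQ a s ∉ v.asIdeal) {i j : Fin n}
    (h : i ≠ j) : v.valuation K (algebraMap k[X] K (a i) - algebraMap k[X] K (a j)) = 1 := by
  rw [← map_sub, val_eq_one_iff]
  intro hm
  obtain ⟨π, hπ, hmon, rfl⟩ := exists_gen v
  rw [mem_hp] at hm
  have hmem : π ∈ bpF a := H.mem.2 ⟨hmon, hπ, hm.trans (H.dvd_del h)⟩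
  exact hv ⟨π, hmem⟩ ((mem_hp hπ _).2 dvd_rfl)

include H in
theorem val_sub_node (s : Tau a) {i j : Fin n} (h : i ≠ j) (h1 : ¬ (i = H.p s ∧ j = H.q s))
    (h2 : ¬ (i = H.q s ∧ j = H.p s)) :
    (hp (QQ a s) (H.fam.irr s)).valuation K (algebraMap k[X] K (a i) - algebraMap k[X] K (a j)) =
      1 := by
  rw [← map_sub, val_eq_one_iff, mem_hp, H.dvd_iff s h]
  rintro (⟨h3, h4⟩ | ⟨h3, h4⟩)
  · exact h1 ⟨h3.symm, h4.symm⟩
  · exact h2 ⟨h4.symm, h3.symm⟩

include H in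
theorem val_sub_pq (s : Tau a) :
    (hp (QQ a s) (H.fam.irr s)).valuation K
      (algebraMap k[X] K (a (H.p s)) - algebraMap k[X] K (a (H.q s))) = WithZero.exp (-1 : ℤ) := by
  obtain ⟨r, hr⟩ := H.dvd s
  have h1 : ¬ QQ a s ∣ r := by
    rintro ⟨r', rfl⟩
    refine (H.fam.irr s).not_isUnit (H.sqf (ne_of_lt (H.lt s)) _ ⟨r', ?_⟩)
    rw [hr]; ring
  rw [← map_sub, hr, map_mul, map_mul, val_hp_self,
    (val_eq_one_iff (K := K) (hp (QQ a s) (H.fam.irr s)) r).2 (fun h => h1 ((mem_hp _ _).1 h)),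
    mul_one]

omit [Fintype k] [DecidableEq k] in
theorem exp_lt : (WithZero.exp (-1 : ℤ)) < 1 := by
  rw [← WithZero.exp_zero, WithZero.exp_lt_exp]
  norm_num

theorem val_twist_one {v : HeightOneSpectrum k[X]} (hv : ∀ x, T x ∉ v.asIdeal) :
    v.valuation K (algebraMap k[X] K (∏ x, T x)) = 1 := by
  rw [val_eq_one_iff]
  intro h
  rw [v.isPrime.prod_mem_iff] at h
  obtain ⟨x, -, hx⟩ := h
  exact hv x hx

theorem val_twist (hT : ∀ x, Irreducible (T x)) (hm : ∀ x, (T x).Monic)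
    (hi : Function.Injective T) (x : ι) :
    (hp (T x) (hT x)).valuation K (algebraMap k[X] K (∏ x, T x)) = WithZero.exp (-1 : ℤ) := by
  rw [← mul_prod_erase univ _ (mem_univ x), map_mul, map_mul, val_hp_self]
  have h1 : (hp (T x) (hT x)).valuation K (algebraMap k[X] K (∏ y ∈ univ.erase x, T y)) = 1 := by
    rw [val_eq_one_iff]
    intro h
    rw [(hp (T x) (hT x)).isPrime.prod_mem_iff] at h
    obtain ⟨y, hy, hy2⟩ := h
    rw [mem_hp] at hy2
    have h3 := eq_of_monic_of_associated (hm x) (hm y) (((hT x).associated_of_dvd (hT y)) hy2)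
    exact (ne_of_mem_erase hy) (hi h3).symm
  rw [h1, mul_one]

end val

end Pool.Agent.Y164.HG
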