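import Pool.Agent.Y164.HG.Stm
import Pool.Agent.Y164.HG.Geo

/-!
Representations modulo squares: algebra.
-/

set_option autoImplicit false
set_option linter.all false

open Polynomial IsDedekindDomain
open scoped Classical

namespace Pool.Agent.Y164.HG

open Finset
open Pool.Agent.Y164.PS (L ch el Fam ch_mul el_mul el_ne)

section
variable {k K : Type} [Field k] [Fintype k] [DecidableEq k] [Field K] [Algebra k[X] K]
  [IsFractionRing k[X] K]
variable {κ : Type} [Fintype κ] {R : κ → k[X]}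

theorem ch_one : ch (1 : k) = 0 := by
  have h := ch_mul (c := (1 : k)) (c' := 1) one_ne_zero one_ne_zero
  rw [mul_one] at h
  have h2 : ∀ a : F2, a = a + a → a = 0 := by decide
  exact h2 _ h

theorem isRep_el {r : k} (hr : r ≠ 0) (n : κ → ℕ) :
    IsRep R (algebraMap k[X] K (el R r n)) (ch r) (fun x => (n x : F2)) :=
  ⟨r, n, 1, hr, one_ne_zero, rfl, fun _ => rfl, by rw [one_pow, mul_one]⟩

theorem isRep_one : IsRep R (1 : K) 0 0 := by
  refine ⟨1, 0, 1, one_ne_zero, one_ne_zero, ch_one, fun _ => by simp, ?_⟩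
  simp [el]

theorem IsRep.ne (hR : Fam R) {d : K} {c : F2} {u : κ → F2} (h : IsRep R d c u) : d ≠ 0 := by
  obtain ⟨r, n, y, hr, hy, -, -, rfl⟩ := h
  refine mul_ne_zero ?_ (pow_ne_zero _ hy)
  rw [Ne, IsFractionRing.to_map_eq_zero_iff]
  exact el_ne hR hr n

theorem IsRep.mul {d d' : K} {c c' : F2} {u u' : κ → F2} (h : IsRep R d c u)
    (h' : IsRep R d' c' u') : IsRep R (d * d') (c + c') (fun x => u x + u' x) := by
  obtain ⟨r, n, y, hr, hy, hc, hu, rfl⟩ := h
  obtain ⟨r', n', y', hr', hy', hc', hu', rfl⟩ := h'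
  refine ⟨r * r', n + n', y * y', mul_ne_zero hr hr', mul_ne_zero hy hy', ?_, fun x => ?_, ?_⟩
  · rw [ch_mul hr hr', hc, hc']
  · rw [Pi.add_apply, Nat.cast_add, hu, hu']
  · rw [← el_mul, map_mul]; ring

theorem IsRep.sq_mul {d : K} {c : F2} {u : κ → F2} (h : IsRep R d c u) {z : K} (hz : z ≠ 0) :
    IsRep R (z ^ 2 * d) c u := by
  obtain ⟨r, n, y, hr, hy, hc, hu, rfl⟩ := h
  exact ⟨r, n, z * y, hr, mul_ne_zero hz hy, hc, hu, by ring⟩

theorem IsRep.inv (hR : Fam R) {d : K} {c : F2} {u : κ → F2} (h : IsRep R d c u) :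
    IsRep R d⁻¹ c u := by
  have hd := h.ne hR
  have h1 := h.sq_mul (z := d⁻¹) (inv_ne_zero hd)
  have h2 : (d⁻¹) ^ 2 * d = d⁻¹ := by field_simp
  rwa [h2] at h1

theorem IsRep.congr {d : K} {c c' : F2} {u u' : κ → F2} (h : IsRep R d c u) (hc : c = c')
    (hu : ∀ x, u x = u' x) : IsRep R d c' u' := by
  have : u = u' := funext hu
  rw [← hc, ← this]
  exact h

theorem IsRep.pow {d : K} {c : F2} {u : κ → F2} (h : IsRep R d c u) (m : ℕ) :
    IsRep R (d ^ m) (m * c) (fun x => m * u x) := by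
  induction m with
  | zero =>
    rw [pow_zero]
    exact isRep_one.congr (by simp) (fun x => by simp)
  | succ m ih =>
    rw [pow_succ]
    exact (ih.mul h).congr (by push_cast; ring) (fun x => by push_cast; ring)

theorem IsRep.prod {α : Type} (s : Finset α) {f : α → K} {c : α → F2} {u : α → κ → F2}
    (h : ∀ a ∈ s, IsRep R (f a) (c a) (u a)) :
    IsRep R (∏ a ∈ s, f a) (∑ a ∈ s, c a) (fun x => ∑ a ∈ s, u a x) := by
  induction s using Finset.induction_on with
  | empty =>
    rw [prod_empty]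
    exact isRep_one.congr (by simp) (fun x => by simp)
  | insert a s ha ih =>
    rw [prod_insert ha]
    refine ((h a (mem_insert_self _ _)).mul (ih fun b hb => h b (mem_insert_of_mem hb))).congr ?_ ?_
    · rw [sum_insert ha]
    · intro x
      rw [sum_insert ha]

end

section geo
variable {k K : Type} [Field k] [Fintype k] [DecidableEq k] [Field K] [Algebra k[X] K]
  [IsFractionRing k[X] K]
variable {n : ℕ} {a : Fin n → k[X]} {N : ℕ} (H : Geo a N)
variable {ι : Type} [Fintype ι] {T : ι → k[X]}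

/-- the family of all primes -/
abbrev RR (a : Fin n → k[X]) (T : ι → k[X]) : ι ⊕ Tau a → k[X] := Sum.elim T (QQ a)

theorem isRep_twist : IsRep (RR a T) (algebraMap k[X] K (∏ i, T i)) 0
    (Sum.elim (fun _ => 1) (fun _ => 0)) := by
  have h := isRep_el (K := K) (R := RR a T) (r := 1) one_ne_zero (Sum.elim (fun _ => 1) (fun _ => 0))
  have h1 : el (RR a T) 1 (Sum.elim (fun _ => 1) (fun _ => 0)) = ∏ i, T i := by
    rw [el, Fintype.prod_sum_type]
    simp
  rw [h1] at h
  refine h.congr ch_one ?_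
  rintro (x | x) <;> simp

include H in
theorem isRep_diff {i j : Fin n} (h : i ≠ j) :
    IsRep (RR a T) (algebraMap k[X] K (a i) - algebraMap k[X] K (a j)) (H.comb.c i j)
      (Sum.elim (fun _ => 0) (fun s => mu H.p H.q i j s)) := by
  have hl : (a i - a j).leadingCoeff ≠ 0 := leadingCoeff_ne_zero.2 (H.ne h)
  have h0 := isRep_el (K := K) (R := RR a T) hl
    (Sum.elim (fun _ => 0) (fun s => if QQ a s ∣ a i - a j then 1 else 0))
  have h1 : el (RR a T) (a i - a j).leadingCoeff
      (Sum.elim (fun _ => 0) (fun s => if QQ a s ∣ a i - a j then 1 else 0)) = a i - a j := by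
    conv_rhs => rw [H.fac h]
    rw [el, el, Fintype.prod_sum_type]
    simp only [Sum.elim_inl, Sum.elim_inr, pow_zero, prod_const_one, one_mul]
  rw [h1, map_sub] at h0
  refine h0.congr rfl ?_
  rintro (x | s)
  · simp
  · exact H.cast_exp h s

end geo

end Pool.Agent.Y164.HG
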