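import Pool.Agent.Y164.HG.Kda

/-!
The criterion.
-/

set_option autoImplicit false
set_option linter.all false

open Polynomial IsDedekindDomain
open scoped Classical

namespace Pool.Agent.Y164.HG

open Finset
open Pool.Agent.Y713.SE (hp Pw mem_hp eq_hp val_hp_self not_pw_exp val_eq_one_iff val_C
  exists_gen)
open Pool.Agent.Y713.SE.Dat (au)
open Pool.Agent.Y164.PS (L ch el Fam ch_mul el_mul el_ne L_comm L_prod_left coprime_of_not_dvd)

section
variable {k K : Type} [Field k] [Fintype k] [DecidableEq k] [Field K] [Algebra k[X] K]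
  [IsFractionRing k[X] K]
variable {n : ℕ} {a : Fin n → k[X]} {N : ℕ} (H : Geo a N)
variable {ι : Type} [Fintype ι] {T : ι → k[X]}

theorem RR_notMem (hR : Fam (RR a T)) {x y : ι ⊕ Tau a} (h : y ≠ x) :
    RR a T y ∉ (hp (RR a T x) (hR.irr x)).asIdeal := by
  rw [mem_hp]
  intro hd
  have h1 := eq_of_monic_of_associated (hR.mon x) (hR.mon y)
    (((hR.irr x).associated_of_dvd (hR.irr y)) hd)
  exact h (hR.inj h1).symm

omit [Fintype k] [DecidableEq k] in
include H in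
theorem third (i j : Fin n) : ∃ l, l ≠ i ∧ l ≠ j := by
  have h3 := H.hn3
  have h1 : ({i, j} : Finset (Fin n)).card < (univ : Finset (Fin n)).card := by
    rw [card_univ, Fintype.card_fin]
    exact lt_of_le_of_lt card_le_two (by omega)
  obtain ⟨c, -, hc⟩ := exists_mem_notMem_of_card_lt_card h1
  rw [mem_insert, mem_singleton, not_or] at hc
  exact ⟨c, hc⟩

include H in
theorem crit (hREP : S_REP) (hADJ : S_ADJ) (hR : Fam (RR a T)) [Fact (Odd n)]
    (D0 : Y713.SE.Dat 2 n K)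
    (hδ : D0.δ = algebraMap k[X] K (∏ i, T i)) (he : ∀ i, D0.e i = algebraMap k[X] K (a i))
    (σ : Tau a → F2) (hcl : ∀ s, σ s + ∑ i, BT (QQ a) T i s + H.comb.gg s = 0)
    (hpar : ∑ i, ((T i).natDegree : F2) + (N : F2) = 1)
    (htr : Triv (H.dat σ) (AT T) (BT (QQ a) T) (fun i => ((T i).natDegree : F2)))
    {E : Type} [Field E] [Algebra K E] [IsGalois K E] [IsSepClosed E] {p : ℕ} [ExpChar E p]
    (Ω : HeightOneSpectrum k[X] → Type) [∀ v, Field (Ω v)]
    [∀ v, Algebra (v.adicCompletion K) (Ω v)] [∀ v, Algebra K (Ω v)]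
    [∀ v, IsScalarTower K (v.adicCompletion K) (Ω v)] [∀ v, IsSepClosed (Ω v)]
    [∀ v, IsGalois (v.adicCompletion K) (Ω v)] [∀ v, ExpChar (Ω v) p]
    (χ : (E ≃ₐ[K] E) → Fin n → ℕ) (hc : D0.Coc (fun τ => Y713.SE.cl ((D0.base E).PT (χ τ))))
    (ht : ∀ v, D0.Triv (v.adicCompletion K) (Ω v) (fun τ => Y713.SE.cl ((D0.base E).PT (χ τ)))) :
    ∃ (m : Fin n → ℕ) (Q : ClassGroup (D0.base E).A),
      Y713.SE.cl ((D0.base E).PT m) * (D0.base E).sC Q = Q ∧
      ∀ τ, Y713.SE.cl ((D0.base E).PT (χ τ)) = D0.mC (au τ) Q / Q := by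
  obtain ⟨kd⟩ := D0.exists_KD hc
  have hn3 := H.hn3
  obtain ⟨i0⟩ : Nonempty (Fin n) := ⟨⟨0, by omega⟩⟩
  have hm1 : IsSquare (-1 : K) := by
    have h := (H.hm.map (C : k →+* k[X])).map (algebraMap k[X] K)
    rwa [map_neg, map_neg, map_one, map_one] at h
  obtain ⟨rA, rB, rC, rD⟩ := hREP k K (ι ⊕ Tau a) (RR a T) hR H.hk
  -- representations
  have hrep0 : ∀ i, ∃ c u, IsRep (RR a T) (kd.d i i0) c u := by
    intro i
    refine rD _ (kd_ne D0 kd _ _) ?_
    intro v hv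
    refine D0.good_place (p := p) ?_ ?_ (val_two H v) (ht v) kd i i0
    · intro i j hij
      rw [he, he]
      exact val_sub_one H (fun s => hv (Sum.inr s)) hij
    · rw [hδ]
      exact val_twist_one (fun x => hv (Sum.inl x))
  choose c0 u0 hcu using hrep0
  obtain ⟨mi, hmi⟩ : ∃ mi : Fin n → K, mi = mm D0 kd i0 := ⟨_, rfl⟩
  have hmi0 : ∀ i, mi i ≠ 0 := fun i => by rw [hmi]; exact mm_ne D0 kd i0 i
  have hmir : ∀ i j, ∃ z : K, z ≠ 0 ∧ mi i * mi j = z ^ 2 * kd.d i j := by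
    intro i j
    rw [hmi]
    exact mm_rel D0 kd i0 i j
  obtain ⟨cc, hcc⟩ : ∃ cc : Fin n → F2, cc = fun i => c0 i + ∑ j, c0 j := ⟨_, rfl⟩
  obtain ⟨U, hU⟩ : ∃ U : Fin n → (ι ⊕ Tau a) → F2, U = fun i x => u0 i x + ∑ j, u0 j x :=
    ⟨_, rfl⟩
  have hrep : ∀ i, IsRep (RR a T) (mi i) (cc i) (U i) := by
    intro i
    rw [hmi, hcc, hU]
    exact (hcu i).mul (IsRep.prod univ (fun j _ => hcu j))
  have hsum : ∀ f : Fin n → F2, ∑ i, (f i + ∑ j, f j) = 0 := by
    intro f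
    rw [sum_add_distrib, sum_const, card_univ, Fintype.card_fin, nsmul_eq_mul, odd_cast H.hn,
      one_mul, F2_add_self]
  have hsc : ∑ i, cc i = 0 := by rw [hcc]; exact hsum c0
  have hsU : ∀ x, ∑ i, U i x = 0 := by
    intro x
    rw [hU]
    exact hsum (fun i => u0 i x)
  -- adjustments
  have hadj : ∀ mv : Fin n → ℕ, ∃ (Q : ClassGroup (D0.base E).A) (χ' : (E ≃ₐ[K] E) → Fin n → ℕ)
      (kd' : D0.KD χ'), Y713.SE.cl ((D0.base E).PT mv) * (D0.base E).sC Q = Q ∧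
      (∀ τ, Y713.SE.cl ((D0.base E).PT (χ' τ)) = Y713.SE.cl ((D0.base E).PT (χ τ)) / (D0.mC (au τ) Q / Q)) ∧
      ∀ i j, ∃ z : K, z ≠ 0 ∧ mi i * mi j * (Tm D0 mv i * Tm D0 mv j) = z ^ 2 * kd'.d i j := by
    intro mv
    obtain ⟨Q, χ', hQ, hχ', hc'⟩ := D0.exists_adj (p := p) mv hc
    obtain ⟨kd'⟩ := D0.exists_KD hc'
    refine ⟨Q, χ', kd', hQ, hχ', fun i j => ?_⟩
    obtain ⟨x, hx, e1⟩ := hADJ n K D0 E hm1 mv χ χ' kd kd' Q hQ hχ' i j
    obtain ⟨z, hz, e2⟩ := hmir i j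
    refine ⟨z / x, div_ne_zero hz hx, ?_⟩
    rw [e1, e2, div_pow]
    field_simp
  have hloc : ∀ (v : HeightOneSpectrum k[X]) (a b z : K), z ≠ 0 → a = z ^ 2 * b →
      (∃ x : v.adicCompletion K, algebraMap K (v.adicCompletion K) b = x ^ 2) →
      ∃ x : v.adicCompletion K, algebraMap K (v.adicCompletion K) a = x ^ 2 := by
    rintro v a b z - rfl ⟨x, hx⟩
    exact ⟨algebraMap K _ z * x, by rw [map_mul, map_pow, hx]; ring⟩
  -- twist places
  have hTl : ∀ x : ι, ∃ mv : Fin n → ℕ, ∀ i j,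
      ∃ z : (hp (RR a T (Sum.inl x)) (hR.irr (Sum.inl x))).adicCompletion K,
      algebraMap K _ (mi i * mi j * (Tm D0 mv i * Tm D0 mv j)) = z ^ 2 := by
    intro x
    obtain ⟨v, hv⟩ : ∃ v, v = hp (RR a T (Sum.inl x)) (hR.irr (Sum.inl x)) := ⟨_, rfl⟩
    have hnot : ∀ s, QQ a s ∉ v.asIdeal := by
      intro s
      rw [hv]
      exact RR_notMem hR (x := Sum.inl x) (y := Sum.inr s) Sum.inr_ne_inl
    obtain ⟨mv, hmv⟩ := D0.twist_place (p := p) (v := v) (Ω := Ω v) (fun i j hij => by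
      rw [he, he]
      exact val_sub_one H hnot hij) (by
      rw [hδ, hv]
      have h := val_twist (K := K) (T := T) (fun y => hR.irr (Sum.inl y))
        (fun y => hR.mon (Sum.inl y)) (fun y z h => Sum.inl.inj (hR.inj h)) x
      have h' : (hp (RR a T (Sum.inl x)) (hR.irr (Sum.inl x))).valuation K
          (algebraMap k[X] K (∏ x, T x)) = WithZero.exp (-1 : ℤ) := h
      rw [h']
      exact not_pw_exp Nat.prime_two) (val_two H v) (ht v)
    refine ⟨mv, fun i j => ?_⟩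
    obtain ⟨Q, χ', kd', hQ, hχ', hz⟩ := hadj mv
    obtain ⟨z, hz0, e⟩ := hz i j
    rw [← hv]
    exact hloc v _ _ z hz0 e (hmv Q χ' kd' hQ hχ' i j)
  -- nodes
  have hCl : ∀ s : Tau a, ∃ r : ℕ, (∀ i, U i (Sum.inr s) = (r : F2) * e2 (H.p s) (H.q s) i) ∧
      ∃ z : (hp (RR a T (Sum.inr s)) (hR.irr (Sum.inr s))).adicCompletion K,
      algebraMap K _ (mi (H.p s) * mi (H.q s) *
        (Tm D0 (fun l => if l = H.q s then r else 0) (H.p s) *
        Tm D0 (fun l => if l = H.q s then r else 0) (H.q s))) = z ^ 2 := by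
    intro s
    obtain ⟨v, hv⟩ : ∃ v, v = hp (RR a T (Sum.inr s)) (hR.irr (Sum.inr s)) := ⟨_, rfl⟩
    have hv' : v = hp (QQ a s) (H.fam.irr s) := hv
    obtain ⟨c1, hc1, hc2⟩ := third H (H.p s) (H.q s)
    have hpq : H.p s ≠ H.q s := ne_of_lt (H.lt s)
    obtain ⟨r, hr⟩ := D0.coll_place (p := p) (v := v) (Ω := Ω v) hpq hc1 hc2
      (by
        intro i j hij h1 h2
        rw [he, he, hv']
        exact val_sub_node H s hij h1 h2)
      (by
        rw [he, he, hv', val_sub_pq H s]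
        exact exp_lt)
      (by
        rw [he, he, hv', val_sub_pq H s]
        exact not_pw_exp Nat.prime_two)
      (by
        rw [hδ, hv]
        exact val_twist_one fun x => RR_notMem hR (x := Sum.inr s) (y := Sum.inl x) Sum.inl_ne_inr)
      (val_two H v) (ht v)
    obtain ⟨mv, hmv⟩ : ∃ mv : Fin n → ℕ, mv = fun l => if l = H.q s then r else 0 := ⟨_, rfl⟩
    obtain ⟨Q, χ', kd', hQ, hχ', hz⟩ := hadj mv
    have hmq : mv (H.q s) = r := by rw [hmv]; exact if_pos rfl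
    have hmp : mv (H.p s) = 0 := by rw [hmv]; exact if_neg hpq
    obtain ⟨k1, k2⟩ := hr mv Q χ' kd' hmq hmp hQ hχ'
    refine ⟨r, ?_, ?_⟩
    · have hT := isRep_Tm (K := K) H hR D0 hδ he mv
      have k3 : ∀ i j, U i (Sum.inr s) + U j (Sum.inr s) +
          (r : F2) * (e2 (H.p s) (H.q s) i + e2 (H.p s) (H.q s) j) = 0 := by
        intro i j
        obtain ⟨z, hz0, e⟩ := hz i j
        have h1 := ((hrep i).mul (hrep j)).mul ((hT i).mul (hT j))
        rw [e] at h1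
        have h2 := rA _ _ _ h1 (Sum.inr s) (by
          rw [← hv, map_mul, map_pow]
          exact (Pw.pow _).mul (k1 i j))
        have h3 : U i (Sum.inr s) + U j (Sum.inr s) +
          (e2 (H.p s) (H.q s) i * ((mv (H.p s) : F2) + mv (H.q s)) +
            e2 (H.p s) (H.q s) j * ((mv (H.p s) : F2) + mv (H.q s))) = 0 := h2
        rw [hmp, hmq, Nat.cast_zero, zero_add] at h3
        rw [← h3]
        ring
      have k4 := const_zero H.hn (fun i => U i (Sum.inr s) + (r : F2) * e2 (H.p s) (H.q s) i)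
        (by
          rw [sum_add_distrib, hsU, ← mul_sum, e2_sum, mul_zero, add_zero])
        (by
          intro i j
          have h5 := k3 i j
          calc U i (Sum.inr s) + (r : F2) * e2 (H.p s) (H.q s) i +
              (U j (Sum.inr s) + (r : F2) * e2 (H.p s) (H.q s) j) =
              U i (Sum.inr s) + U j (Sum.inr s) +
          (r : F2) * (e2 (H.p s) (H.q s) i + e2 (H.p s) (H.q s) j) := by ring
            _ = 0 := h5)
      intro i
      have k5 : U i (Sum.inr s) + (r : F2) * e2 (H.p s) (H.q s) i = 0 := congrFun k4 i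
      have k6 : ∀ x y : F2, x + y = 0 → x = y := by decide
      exact k6 _ _ k5
    · rw [← hmv, ← hv]
      obtain ⟨z, hz0, e⟩ := hz (H.p s) (H.q s)
      exact hloc v _ _ z hz0 e k2
  choose r hr1 hr2 using hCl
  obtain ⟨w, hw⟩ : ∃ w : V (EW n) ι (Tau a),
      w = (fun x => ⟨fun i => U i (Sum.inl x), hsU (Sum.inl x)⟩, fun s => (r s : F2)) := ⟨_, rfl⟩
  obtain ⟨x0, hx0⟩ : ∃ x0 : EW n, x0 = ⟨cc, hsc⟩ := ⟨_, rfl⟩
  have hrep' : ∀ i, IsRep (RR a T) (mi i) (x0.1 i) (uu H.p H.q w i) := by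
    intro i
    refine (hrep i).congr (by rw [hx0]) ?_
    rintro (x | s)
    · rw [hw]; rfl
    · rw [hr1, hw]; rfl
  have E1z : ∀ x, E1 (A := AT T) (H.dat σ) (BT (QQ a) T) (fun i => ((T i).natDegree : F2)) w x0 x =
      0 := by
    intro x
    obtain ⟨mv, hmv⟩ := hTl x
    exact E1_of_loc H hREP hR D0 hδ he σ w x0 mi hrep' x mv hmv
  have E2z : ∀ s, E2 (H.dat σ) (BT (QQ a) T) w x0 s = 0 := by
    intro s
    exact E2_of_loc H hREP hR D0 hδ he σ hcl w x0 mi hrep' s (r s) (by rw [hw]) (hr2 s)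
  obtain ⟨y, hy1, hy2⟩ := key_of_triv (H.dat σ) (BT (QQ a) T) _ hcl hpar htr w x0 E1z E2z
  -- the global comparison
  obtain ⟨m, hm⟩ : ∃ m : Fin n → ℕ, ∀ i, (m i : F2) = y.1 i := by
    refine ⟨fun i => (y.1 i).val, fun i => ?_⟩
    rw [ZMod.natCast_val, ZMod.cast_id', id]
  obtain ⟨Q, χ', kd', hQ, hχ', hz⟩ := hadj m
  have hT := isRep_Tm (K := K) H hR D0 hδ he m
  have hone : ∀ i, IsRep (RR a T) (mi i * Tm D0 m i) 0 0 := by
    intro i
    have hmf : (fun j => (m j : F2)) = y.1 := funext hm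
    refine ((hrep' i).mul (hT i)).congr ?_ ?_
    · rw [hmf]
      have h1 : x0.1 i = H.comb.ksf y.1 i := by rw [hy2]; rfl
      rw [h1, F2_add_self]
    · rintro (x | s)
      · show (w.1 x).1 i + (m i : F2) = 0
        rw [hy1, hm]
        exact F2_add_self _
      · show w.2 s * e2 (H.p s) (H.q s) i +
          e2 (H.p s) (H.q s) i * ((m (H.p s) : F2) + m (H.q s)) = 0
        have h1 : w.2 s = y.1 (H.p s) + y.1 (H.q s) := by
          rw [hy1]
          exact om_E2v y _ _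
        rw [h1, hm, hm, mul_comm, F2_add_self]
  have hsq : ∀ i j, ∃ z : K, kd'.d i j = z ^ 2 := by
    intro i j
    obtain ⟨z, hz0, e⟩ := hz i j
    have h1 := (hone i).mul (hone j)
    have h2 : mi i * Tm D0 m i * (mi j * Tm D0 m j) = z ^ 2 * kd'.d i j := by
      rw [← e]; ring
    rw [h2] at h1
    have h3 := h1.sq_mul (z := z⁻¹) (inv_ne_zero hz0)
    have h4 : z⁻¹ ^ 2 * (z ^ 2 * kd'.d i j) = kd'.d i j := by
      field_simp
    rw [h4] at h3
    exact rC _ (h3.congr (add_zero 0) (fun _ => add_zero 0))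
  refine ⟨m, Q, hQ, fun τ => ?_⟩
  have h2 := hχ' τ
  rw [(D0.base E).cl_PT_of_modEq fun i j => ?_] at h2
  · exact (div_eq_one.1 h2.symm)
  · obtain ⟨z, hz⟩ := hsq i j
    exact D0.modEq_of_pow kd' hz τ

end

end Pool.Agent.Y164.HG
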