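import Pool.Agent.Y713.SE.StmT
import Pool.Agent.Y713.SE.Ari
import Pool.Agent.Y164.PS.El0

/-!
Definitions and statements of lemmas (project HG: 2-descent on the quadratic twists of hyperelliptic
Jacobians over `k(t)`).
-/

set_option autoImplicit false
set_option linter.all false

open Polynomial IsDedekindDomain

namespace Pool.Agent.Y164.HG

open Pool.Agent.Y713.SE
open Pool.Agent.Y164.PS (L ch el Fam)

section
variable {k K : Type} [Field k] [Fintype k] [DecidableEq k] [Field K] [Algebra k[X] K]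
variable {κ : Type} [Fintype κ]

/-- `d` is a constant with symbol `c` times the product of the `R x ^ u x`, modulo squares -/
def IsRep (R : κ → k[X]) (d : K) (c : ZMod 2) (u : κ → ZMod 2) : Prop :=
  ∃ (r : k) (n : κ → ℕ) (y : K), r ≠ 0 ∧ y ≠ 0 ∧ ch r = c ∧ (∀ x, (n x : ZMod 2) = u x) ∧
    d = algebraMap k[X] K (el R r n) * y ^ 2

end

/-- the Kummer class of a torsion point -/
noncomputable def Tm {n : ℕ} {K : Type} [Field K] (D : Dat 2 n K) (m : Fin n → ℕ) (i : Fin n) : K :=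
  ∏ k, (if k = i then (D.δ * ∏ j ∈ Finset.univ.erase i, (D.e i - D.e j))⁻¹ else D.e i - D.e k) ^ m k

/-- HG-REP: representations modulo squares -/
def S_REP : Prop :=
  ∀ (k K : Type) [Field k] [Fintype k] [DecidableEq k] [Field K] [Algebra k[X] K]
    [IsFractionRing k[X] K] (κ : Type) [Fintype κ] (R : κ → k[X]) (hR : Fam R)
    (_ : ringChar k ≠ 2),
  -- even valuation
  (∀ (d : K) (c : ZMod 2) (u : κ → ZMod 2), IsRep R d c u → ∀ x : κ,
    Pw 2 ((hp (R x) (hR.irr x)).valuation K d) → u x = 0) ∧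
  -- local squares
  (∀ (d : K) (c : ZMod 2) (u : κ → ZMod 2), IsRep R d c u → ∀ x : κ,
    (∃ z : (hp (R x) (hR.irr x)).adicCompletion K, algebraMap K _ d = z ^ 2) →
      u x = 0 ∧ ∑ y, u y * L (R y) (R x) + ((R x).natDegree : ZMod 2) * c = 0) ∧
  -- global squares
  (∀ d : K, IsRep R d 0 0 → ∃ z : K, d = z ^ 2) ∧
  -- existence
  (∀ d : K, d ≠ 0 → (∀ v : HeightOneSpectrum k[X], (∀ x, R x ∉ v.asIdeal) →
    Pw 2 (v.valuation K d)) → ∃ c u, IsRep R d c u)

/-- HG-ADJ: the Kummer data of an adjusted cocycle -/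
def S_ADJ : Prop :=
  ∀ (n : ℕ) (K : Type) [Field K] (D : Dat 2 n K) (L : Type) [Field L] [Algebra K L]
    [IsGalois K L], IsSquare (-1 : K) →
    ∀ (m : Fin n → ℕ) (χ χ' : (L ≃ₐ[K] L) → Fin n → ℕ) (kd : D.KD χ) (kd' : D.KD χ')
      (Q : ClassGroup (D.base L).A),
      cl ((D.base L).PT m) * (D.base L).sC Q = Q →
      (∀ σ, cl ((D.base L).PT (χ' σ)) = cl ((D.base L).PT (χ σ)) / (D.mC (Dat.au σ) Q / Q)) →
      ∀ i j, ∃ x : K, x ≠ 0 ∧ kd'.d i j = x ^ 2 * (kd.d i j * (Tm D m i * Tm D m j))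

/-- HG-EXT: Galois descent for ideals -/
def S_EXT : Prop :=
  ∀ (ℓ n : ℕ) (K : Type) [Field K] (D : Dat ℓ n K) (L : Type) [Field L] [Algebra K L]
    [IsGalois K L] (I : Ideal (D.base L).A),
    (∀ σ : L ≃ₐ[K] L, D.mI (Dat.au σ) I = I) →
    ∃ I0 : Ideal (D.base K).A, D.mI (Algebra.ofId K L) I0 = I

/-- HG-INJ: injectivity on ideal classes -/
def S_INJ : Prop :=
  ∀ (ℓ n : ℕ) (K : Type) [Field K] (D : Dat ℓ n K) (L : Type) [Field L] [Algebra K L]
    [IsGalois K L], Function.Injective (D.mC (Algebra.ofId K L))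

end Pool.Agent.Y164.HG
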