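import Pool.Agent.Y164.HG.Rp

/-!
The Kummer classes of the torsion points, modulo squares.
-/

set_option autoImplicit false
set_option linter.all false

open Polynomial IsDedekindDomain
open scoped Classical

namespace Pool.Agent.Y164.HG

open Finset
open Pool.Agent.Y164.PS (L ch el Fam ch_mul el_mul el_ne L_comm)

variable {k K : Type} [Field k] [Fintype k] [DecidableEq k] [Field K] [Algebra k[X] K]
  [IsFractionRing k[X] K]
variable {n : ℕ} {a : Fin n → k[X]} {N : ℕ} (H : Geo a N)
variable {ι : Type} [Fintype ι] {T : ι → k[X]}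

/-- sums with one special term -/
theorem sum_special (i : Fin n) (m : Fin n → F2) (f : Fin n → F2) :
    ∑ k, m k * (if k = i then ∑ j ∈ univ.erase i, f j else f k) = ∑ j, (m i + m j) * f j := by
  rw [← add_sum_erase univ _ (mem_univ i), ← add_sum_erase univ (fun j => (m i + m j) * f j)
    (mem_univ i), if_pos rfl, F2_add_self, zero_mul, zero_add, mul_sum, ← sum_add_distrib]
  refine sum_congr rfl fun j hj => ?_
  rw [if_neg (ne_of_mem_erase hj)]
  ring

theorem sum_special2 (i : Fin n) (m : Fin n → F2) :
    ∑ k, m k * (if k = i then (1 : F2) else 0) = m i := by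
  simp

include H in
theorem isRep_Tm (hR : Fam (RR a T)) (D0 : Y713.SE.Dat 2 n K)
    (hδ : D0.δ = algebraMap k[X] K (∏ i, T i)) (he : ∀ i, D0.e i = algebraMap k[X] K (a i))
    (m : Fin n → ℕ) (i : Fin n) :
    IsRep (RR a T) (Tm D0 m i) (H.comb.ksf (fun j => (m j : F2)) i)
      (Sum.elim (fun _ => (m i : F2))
        (fun s => e2 (H.p s) (H.q s) i * ((m (H.p s) : F2) + m (H.q s)))) := by
  have hdiff : ∀ j, j ≠ i → IsRep (RR a T) (D0.e i - D0.e j) (H.comb.c i j)
      (Sum.elim (fun _ => 0) (fun s => mu H.p H.q i j s)) := by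
    intro j hj
    rw [he, he]
    exact isRep_diff H hj.symm
  have h1 : ∀ k ∈ (univ : Finset (Fin n)), IsRep (RR a T)
      ((if k = i then (D0.δ * ∏ j ∈ univ.erase i, (D0.e i - D0.e j))⁻¹ else D0.e i - D0.e k) ^ m k)
      ((m k : F2) * (if k = i then ∑ j ∈ univ.erase i, H.comb.c i j else H.comb.c i k))
      (Sum.elim (fun _ => (m k : F2) * (if k = i then (1 : F2) else 0))
        (fun s => (m k : F2) * (if k = i then ∑ j ∈ univ.erase i, mu H.p H.q i j s else
          mu H.p H.q i k s))) := by
    intro k _
    by_cases hk : k = i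
    · simp only [if_pos hk]
      have h2 := (isRep_twist (K := K) (a := a) (T := T)).mul (IsRep.prod (univ.erase i)
        (fun j hj => hdiff j (ne_of_mem_erase hj)))
      rw [← hδ] at h2
      refine ((h2.inv hR).pow (m k)).congr ?_ ?_
      · rw [zero_add]
      · rintro (x | s)
        · simp only [Sum.elim_inl, sum_const_zero, add_zero]
        · simp only [Sum.elim_inr, zero_add]
    · simp only [if_neg hk]
      refine ((hdiff k hk).pow (m k)).congr rfl ?_
      rintro (x | s)
      · simp only [Sum.elim_inl]
      · simp only [Sum.elim_inr]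
  refine (IsRep.prod univ h1).congr ?_ ?_
  · rw [sum_special i (fun j => (m j : F2)) (fun j => H.comb.c i j)]
    rfl
  · rintro (x | s)
    · simp only [Sum.elim_inl]
      exact sum_special2 i (fun j => (m j : F2))
    · simp only [Sum.elim_inr]
      rw [sum_special i (fun j => (m j : F2)) (fun j => mu H.p H.q i j s)]
      refine Eq.trans ?_ (H.comb.key (fun j => (m j : F2)) i s)
      refine sum_congr rfl fun j _ => ?_
      rw [mul_comm]
      rfl

end Pool.Agent.Y164.HG
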